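import Pool.Agent.Lib.DK.G.Spec

set_option autoImplicit false

/-!
# Theorem DK, part G: characters of odd order (`S_Chi`)
-/

open scoped Pointwise

noncomputable section

namespace Pool.Agent.DK.G

open Pool.Agent.MuZ Pool.Agent.FW Pool.Agent.DK
open Pool.Agent.DI (io ofC io_inj exists_io io_ofC ofC_io VP MP UP TP ex sqr sqr_sq kap)

variable {k : ℕ}

private theorem pri_top (f : ℕ) : PrI (⊤ : Ideal (OO k)) f := by
  unfold PrI
  exact top_sup_eq _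

private theorem top_ne [SqK k] : (⊤ : Ideal (OO k)) ≠ ⊥ := by
  intro h
  have h1 : (1 : OO k) ∈ (⊥ : Ideal (OO k)) := by
    rw [← h]
    exact Submodule.mem_top
  exact one_ne_zero ((Submodule.mem_bot _).1 h1)

private theorem chi_one [SqK k] {f : ℕ} {χ : Ideal (OO k) → Om} (hχ : IsChi f χ) : χ ⊤ = 1 := by
  obtain ⟨m, hmo, hm⟩ := hχ.odd
  have h1 : χ ⊤ ≠ 0 := by
    intro h0
    have h2 := hm ⊤ top_ne (pri_top f)
    rw [h0, zero_pow hmo.pos.ne'] at h2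
    exact zero_ne_one h2
  have h2 : χ ⊤ * χ ⊤ = χ ⊤ * 1 := by
    rw [← hχ.mul, Ideal.mul_top, mul_one]
  exact mul_left_cancel₀ h1 h2

private theorem chi_pow [SqK k] {f : ℕ} {χ : Ideal (OO k) → Om} (hχ : IsChi f χ)
    (a : Ideal (OO k)) (n : ℕ) : χ (a ^ n) = χ a ^ n := by
  induction n with
  | zero => rw [pow_zero, pow_zero, Ideal.one_eq_top, chi_one hχ]
  | succ n ih => rw [pow_succ, pow_succ, hχ.mul, ih]

private theorem eq_one_of_pow {x : Om} {j m : ℕ} (hm : Odd m) (h1 : x ^ 2 ^ j = 1)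
    (h2 : x ^ m = 1) : x = 1 := by
  have h3 : x ^ Nat.gcd (2 ^ j) m = 1 := by
    have h4 : orderOf x ∣ 2 ^ j := orderOf_dvd_of_pow_eq_one h1
    have h5 : orderOf x ∣ m := orderOf_dvd_of_pow_eq_one h2
    exact orderOf_dvd_iff_pow_eq_one.1 (Nat.dvd_gcd h4 h5)
  have h6 : Nat.gcd (2 ^ j) m = 1 := (Nat.Coprime.pow_left j (Nat.coprime_two_left.2 hm))
  rw [h6, pow_one] at h3
  exact h3

private theorem cop_pow' {f : ℕ} {v : OO k} (h : Cop v f) (n : ℕ) : Cop (v ^ n) f := by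
  induction n with
  | zero => rw [pow_zero]; exact cop_one f
  | succ n ih => rw [pow_succ]; exact cop_mul ih h

theorem tChi : S_Chi := by
  intro hO6 hO7 k hk f χ hf h3 hχ
  have hfpos : 0 < f := by omega
  obtain ⟨-, -, -, o4, -⟩ := hO6 k
  obtain ⟨-, -, -, -, -, p6, -, p8, -, -⟩ := hO7 k f hfpos
  obtain ⟨m, hmo, hm⟩ := hχ.odd
  have hmpos : 0 < m := hmo.pos
  have h1 : χ ⊤ = 1 := chi_one hχ
  have hsp : ∀ v : OO k, v ≠ 0 → (sp v : Ideal (OO k)) ≠ ⊥ := by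
    intro v hv h
    exact hv (Ideal.span_singleton_eq_bot.1 h)
  have hHf : ∀ v : OO k, v ≠ 0 → Hf f v → χ (sp v) = 1 := by
    intro v hv hh
    obtain ⟨hc, j, hj⟩ := hh
    have hvj : v ^ 2 ^ j ≠ 0 := pow_ne_zero _ hv
    have hcj : Cop (v ^ 2 ^ j) f := cop_pow' hc _
    have hr : Ray f (sp (v ^ 2 ^ j)) (sp (1 : OO k)) :=
      (p8 (v ^ 2 ^ j) 1 hvj one_ne_zero hcj (cop_one f)).2 (Or.inl hj)
    have h2 : χ (sp (v ^ 2 ^ j)) = χ (sp (1 : OO k)) :=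
      hχ.ray _ _ (hsp _ hvj) (hsp _ one_ne_zero) ((o4 f _ hfpos).2 hcj)
        ((o4 f _ hfpos).2 (cop_one f)) hr
    have h4 : (sp (1 : OO k) : Ideal (OO k)) = ⊤ := Ideal.span_singleton_one
    have h5 : (sp (v ^ 2 ^ j) : Ideal (OO k)) = (sp v) ^ 2 ^ j := by
      rw [Ideal.span_singleton_pow]
    rw [h4, h1, h5, chi_pow hχ] at h2
    exact eq_one_of_pow hmo h2 (hm _ (hsp _ hv) ((o4 f _ hfpos).2 hc))
  refine ⟨h1, ?_, hHf, ?_, ?_, m, hmo, ?_⟩
  · intro a ha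
    obtain ⟨v, hv, hh, hr⟩ := ha
    have hpv : PrI (Ideal.span {v}) f := (o4 f v hfpos).2 hh.1
    have h6 := p6 a (Ideal.span {v}) hr
    have ha0 : a ≠ ⊥ := h6.1.2 (hsp v hv)
    have hpa : PrI a f := h6.2.2 hpv
    rw [hχ.ray a _ ha0 (hsp v hv) hpa hpv hr]
    exact hHf v hv hh
  · intro b
    by_cases hc : b = ⊥ ∨ ¬ PrI b f
    · rw [hχ.zero b hc]
      exact isIntegral_zero
    · push Not at hc
      apply IsIntegral.of_pow hmpos
      rw [hm b hc.1 hc.2]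
      exact isIntegral_one
  · intro P b hP hb hc
    have : P.IsPrime := hP.1
    apply UP.of_pow hmpos
    rw [hm b hb hc]
    exact UP.one
  · intro b
    by_cases hc : b = ⊥ ∨ ¬ PrI b f
    · exact Or.inl (hχ.zero b hc)
    · push Not at hc
      exact Or.inr (hm b hc.1 hc.2)

end Pool.Agent.DK.G
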