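import Pool.Agent.Lib.DK.G.Spec
import Pool.Agent.Lib.MuZ.AsmA

/-!
# THEOREM DK, part G, module ChiF (helper61): the field `M` of definition of `eta_chi`

Adapted from `DI/G/ChiF.lean` (helper47).
-/

set_option autoImplicit false

open scoped Pointwise

noncomputable section

namespace Pool.Agent.DK.G

open Pool.Agent.MuZ Pool.Agent.FW Pool.Agent.DK
open Pool.Agent.DI (io ofC io_inj exists_io io_ofC ofC_io VP MP UP TP ex sqr sqr_sq kap)
open Pool.Agent.DI.G (Unr)

private theorem ChiF_stable (S : Set Om) (σ : Gal(Om/ℚ))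
    (h : ∀ x ∈ S, σ x ∈ IntermediateField.adjoin ℚ S) :
    ∀ x ∈ IntermediateField.adjoin ℚ S, σ x ∈ IntermediateField.adjoin ℚ S := by
  intro x hx
  induction hx using IntermediateField.adjoin_induction with
  | mem x hx => exact h x hx
  | algebraMap x =>
    rw [AlgEquiv.commutes]
    exact IntermediateField.algebraMap_mem _ x
  | add x y _ _ hx hy =>
    rw [map_add]
    exact add_mem hx hy
  | inv x _ hx =>
    rw [map_inv₀]
    exact inv_mem hx
  | mul x y _ _ hx hy =>
    rw [map_mul]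
    exact mul_mem hx hy

private theorem ChiF_fixed (S : Set Om) (σ : Gal(Om/ℚ)) (h : ∀ x ∈ S, σ x = x) :
    ∀ x ∈ IntermediateField.adjoin ℚ S, σ x = x := by
  intro x hx
  induction hx using IntermediateField.adjoin_induction with
  | mem x hx => exact h x hx
  | algebraMap x => exact AlgEquiv.commutes σ x
  | add x y _ _ hx hy => rw [map_add, hx, hy]
  | inv x _ hx => rw [map_inv₀, hx]
  | mul x y _ _ hx hy => rw [map_mul, hx, hy]

/-- A root of unity of odd order which is `1` modulo a prime above `2` is `1`. -/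
private theorem ChiF_one {R : Type*} [CommRing R] [IsDomain R] {P : Ideal R} {k : ℕ}
    (hk : (k : R) ∉ P) {y : R} (h1 : y ^ k = 1) (h2 : y - 1 ∈ P) : y = 1 := by
  by_contra hne
  have e1 : (∑ i ∈ Finset.range k, y ^ i) * (y - 1) = 0 := by
    rw [geom_sum_mul, h1, sub_self]
  have e2 : (∑ i ∈ Finset.range k, y ^ i) = 0 := by
    rcases mul_eq_zero.1 e1 with h | h
    · exact h
    · exact absurd (sub_eq_zero.1 h) hne
  have e3 : (∑ i ∈ Finset.range k, (y ^ i - 1)) ∈ P := by
    refine Ideal.sum_mem P (fun i _ => ?_)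
    have hd : y - 1 ∣ y ^ i - 1 := by
      have := sub_dvd_pow_sub_pow y 1 i
      rwa [one_pow] at this
    exact Ideal.mem_of_dvd P hd h2
  rw [Finset.sum_sub_distrib, e2, Finset.sum_const, Finset.card_range, zero_sub,
    Ideal.neg_mem_iff, nsmul_eq_mul, mul_one] at e3
  exact hk e3

private theorem ChiF_root (P : Ideal ZZ) {k : ℕ} (hk0 : 0 < k) (hk : (k : ZZ) ∉ P)
    (σ : Gal(Om/ℚ)) (hσ : σ ∈ P.inertia Gal(Om/ℚ)) (z : Om) (hz : z ^ k = 1) : σ z = z := by
  have hint : IsIntegral ℤ z := by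
    refine IsIntegral.of_pow hk0 ?_
    rw [hz]
    exact isIntegral_one
  set x : ZZ := ⟨z, hint⟩ with hx
  have hx1 : x ^ k = 1 := Subtype.ext hz
  have hxx : x * x ^ (k - 1) = 1 := by
    rw [← pow_succ', Nat.sub_add_cancel hk0, hx1]
  have hs : σ • x - x ∈ P := hσ x
  have hs1 : (σ • x) ^ k = 1 := by
    rw [← smul_pow', hx1, smul_one]
  have h1 : (σ • x * x ^ (k - 1)) ^ k = 1 := by
    rw [mul_pow, hs1, one_mul, ← pow_mul, mul_comm (k - 1), pow_mul, hx1, one_pow]
  have h2 : σ • x * x ^ (k - 1) - 1 ∈ P := by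
    have e : σ • x * x ^ (k - 1) - 1 = (σ • x - x) * x ^ (k - 1) := by
      rw [sub_mul, hxx]
    rw [e]
    exact P.mul_mem_right _ hs
  have h3 : σ • x * x ^ (k - 1) = 1 := ChiF_one hk h1 h2
  have h4 : σ • x = x := by
    calc σ • x = σ • x * (x * x ^ (k - 1)) := by rw [hxx, mul_one]
      _ = (σ • x * x ^ (k - 1)) * x := by ring
      _ = x := by rw [h3, one_mul]
  exact congrArg Subtype.val h4

theorem tChiF : S_ChiF := by
  intro hE9 hGM hUnr hChi k _ f χ P hf h3 hχ hP
  obtain ⟨-, -, hLfin, hKL, -⟩ := hGM k f hf h3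
  obtain ⟨hst, -, -, -, hin, -⟩ := hE9 k f hf h3
  obtain ⟨-, -, -, -, -, n, hnodd, hn⟩ := hChi k f χ hf h3 hχ
  obtain ⟨hNpr, h2, -⟩ := hP
  have hn0 : 0 < n := hnodd.pos
  have := hNpr.1
  have h2P : (2 : ZZ) ∈ P := by
    have := (Pool.Agent.DI.MP.nat_iff (P := P) 2).1 (by simpa using h2)
    simpa using this
  have hnP : (n : ZZ) ∉ P := by
    intro h
    obtain ⟨j, hj⟩ := hnodd
    have h3 : (1 : ZZ) ∈ P := by
      have e : (1 : ZZ) = (n : ZZ) - 2 * (j : ZZ) := by
        rw [hj]
        push_cast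
        ring
      rw [e]
      exact P.sub_mem h (P.mul_mem_right _ h2P)
    exact hNpr.1.one_notMem h3
  let R : Set Om := {z | z ^ n = 1}
  have hRfin : R.Finite := by
    refine (Finset.finite_toSet (Polynomial.nthRootsFinset n (1 : Om))).subset ?_
    intro z hz
    exact Finset.mem_coe.2 ((Polynomial.mem_nthRootsFinset hn0 (1 : Om)).2 hz)
  have hsubL : ∀ x ∈ Mf k f, x ∈ IntermediateField.adjoin ℚ ((Mf k f : Set Om) ∪ R) :=
    fun x hx => IntermediateField.subset_adjoin _ _ (Or.inl hx)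
  have hsubR : ∀ x ∈ R, x ∈ IntermediateField.adjoin ℚ ((Mf k f : Set Om) ∪ R) :=
    fun x hx => IntermediateField.subset_adjoin _ _ (Or.inr hx)
  have hfin : FiniteDimensional ℚ (IntermediateField.adjoin ℚ ((Mf k f : Set Om) ∪ R)) := by
    rw [IntermediateField.adjoin_union, IntermediateField.adjoin_self]
    have h4 : Finite R := hRfin.to_subtype
    have h5 : FiniteDimensional ℚ (IntermediateField.adjoin ℚ R) :=
      IntermediateField.finiteDimensional_adjoin
        (fun x _ => (Algebra.IsIntegral.isIntegral x : IsIntegral ℚ x))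
    exact IntermediateField.finiteDimensional_sup _ _
  have hχM : ∀ b, χ b ∈ IntermediateField.adjoin ℚ ((Mf k f : Set Om) ∪ R) := by
    intro b
    rcases hn b with h | h
    · rw [h]
      exact zero_mem _
    · exact hsubR _ h
  refine ⟨IntermediateField.adjoin ℚ ((Mf k f : Set Om) ∪ R), ?_, hfin, hsubL, hχM, ?_⟩
  · refine hUnr _ hfin ?_ P hNpr.1 hNpr.2 h2 ?_
    · intro τ
      apply ChiF_stable
      rintro x (hx | hx)
      · exact hsubL _ (hst τ x hx)
      · apply hsubR
        change (τ x) ^ n = 1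
        rw [← map_pow, show x ^ n = 1 from hx, map_one]
    · intro τ hτ
      apply ChiF_fixed
      rintro x (hx | hx)
      · exact hin P hNpr h2 τ hτ x hx
      · exact ChiF_root P hn0 hnP τ hτ x hx
  · intro x hx
    rw [← InfiniteGalois.fixedField_fixingSubgroup
      (IntermediateField.adjoin ℚ ((Mf k f : Set Om) ∪ R)), IntermediateField.mem_fixedField_iff]
    intro τ hτ
    have hτ' := (mem_fix _ τ).1 hτ
    have hτK : τ ∈ GK k := (mem_fix (KQ k) τ).2 (fun y hy => hτ' y (hsubL y (hKL hy)))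
    exact hx τ hτK (fun y hy => hτ' y (hsubL y hy)) (fun v => hτ' _ (hχM v))

end Pool.Agent.DK.G
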