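import Pool.Agent.Lib.DK.G.Spec

/-!
# THEOREM DK, part G, module Cop: coprimality in `O`
-/

set_option autoImplicit false

open scoped Pointwise

noncomputable section

namespace Pool.Agent.DK.G

open Pool.Agent.MuZ Pool.Agent.FW Pool.Agent.DK
open Pool.Agent.DI (io ofC io_inj exists_io io_ofC ofC_io VP MP UP TP ex sqr sqr_sq kap)

variable {k : ℕ}

private theorem Cop_two_iff (v : OO k) : Cop v 2 ↔ ¬ (2 : ℤ) ∣ Nm v := by
  unfold Cop
  rw [isCoprime_comm]
  have h : Prime ((2 : ℕ) : ℤ) := Int.prime_two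
  exact Prime.coprime_iff_not_dvd h

private theorem Cop_parity (v : OO k) :
    ¬ (2 : ℤ) ∣ Nm v ↔ ¬ (2 : ℤ) ∣ v.re ∧ ¬ (2 : ℤ) ∣ v.re + v.im := by
  have e : Nm v = v.re * (v.re + v.im) + 2 * (k * v.im ^ 2) := by
    unfold Nm
    ring
  rw [e, Int.dvd_add_left ⟨_, rfl⟩, Int.prime_two.dvd_mul, not_or]

private theorem Cop_sub_one (v : OO k) :
    (2 : OO k) ∣ v - 1 ↔ (2 : ℤ) ∣ v.re - 1 ∧ (2 : ℤ) ∣ v.im := by
  have h := nat_dvd_iff 2 (v - 1)
  rw [QuadraticAlgebra.re_sub, QuadraticAlgebra.im_sub, re_one, im_one, sub_zero] at h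
  exact_mod_cast h

private theorem Cop_two_one (v : OO k) : Cop v 2 ↔ (2 : OO k) ∣ v - 1 := by
  rw [Cop_two_iff, Cop_parity, Cop_sub_one]
  omega

private theorem Cop_mul_left (v u : OO k) (M : ℕ) : Cop (v * u) M ↔ Cop v M ∧ Cop u M := by
  unfold Cop
  rw [Nm_mul, IsCoprime.mul_left_iff]

private theorem Cop_mul_right (v : OO k) (M M' : ℕ) : Cop v (M * M') ↔ Cop v M ∧ Cop v M' := by
  unfold Cop
  rw [Nat.cast_mul, IsCoprime.mul_right_iff]

private theorem Cop_pow_right (v : OO k) (M n : ℕ) (h : Cop v M) : Cop v (M ^ n) := by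
  unfold Cop at *
  rw [Nat.cast_pow]
  exact h.pow_right

/-- **Cop.** Coprimality, inverses, odd lifts. -/
theorem tCop : S_Cop := by
  intro h4 k _
  obtain ⟨-, -, -, -, -, -, -, -, -, hp, hpb⟩ := h4 k
  refine ⟨Cop_mul_left, Cop_mul_right, Cop_two_iff, ?_, Cop_two_one, ?_, ?_, ?_, ?_, ?_⟩
  · intro v
    rw [Cop_two_iff, Cop_parity, hp, hpb]
  · intro v M hM hv
    obtain ⟨u, hu, hd⟩ := cop_inv hv
    rcases eq_or_ne u 0 with rfl | h0
    · refine ⟨1, one_ne_zero, cop_one M, ?_⟩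
      rw [mul_zero, zero_sub, dvd_neg] at hd
      exact (isUnit_of_dvd_one hd).dvd
    · exact ⟨u, h0, hu, hd⟩
  · intro v u M hv hd
    obtain ⟨u', -, hu'⟩ := cop_inv hv
    have e : u = u' * (v * u) - (v * u' - 1) * u := by ring
    rw [e]
    exact dvd_sub (Dvd.dvd.mul_left hd _) (Dvd.dvd.mul_right hu' _)
  · intro v f hf hv
    obtain ⟨m, hm⟩ := hf
    have e : v + (f : OO k) * (1 - v) - 1 = 2 * (m * (1 - v)) := by
      rw [hm]
      push_cast
      ring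
    have h1 : (2 : OO k) ∣ v + (f : OO k) * (1 - v) - 1 := ⟨_, e⟩
    refine ⟨v + f * (1 - v), ?_, ?_, ?_⟩
    · intro h0
      rw [h0, Cop_sub_one, QuadraticAlgebra.re_zero] at h1
      omega
    · rw [add_sub_cancel_left]
      exact Dvd.intro _ rfl
    · rw [Cop_mul_right]
      refine ⟨(Cop_two_one _).2 h1, ?_⟩
      refine cop_congr (a := v) ?_ hv
      have e2 : v - (v + (f : OO k) * (1 - v)) = f * (v - 1) := by ring
      rw [e2]
      exact Dvd.intro _ rfl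
  · intro f N v _ hN hv
    rw [Cop_mul_right] at hv ⊢
    refine ⟨cop_dvd hv.2 ?_, hv.1⟩
    exact dvd_pow_self 2 (by omega)
  · intro f N v hv
    rw [Cop_mul_right] at hv ⊢
    exact ⟨hv.2, Cop_pow_right v 2 N hv.1⟩

end Pool.Agent.DK.G
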