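import Pool.Agent.Lib.DK.G.Spec

/-!
# Theorem DK, part G: the homomorphism `D` on the elliptic units (`S_DU`)
-/

set_option autoImplicit false

open scoped Pointwise

noncomputable section

namespace Pool.Agent.DK.G

open Pool.Agent.MuZ Pool.Agent.FW Pool.Agent.DK
open Pool.Agent.DI (io ofC io_inj exists_io io_ofC ofC_io VP MP UP TP ex sqr sqr_sq kap)

private theorem DU_prod {k : ℕ} {P : Ideal ZZ} [hP : P.IsPrime] (hw : VP P 2) (T : Finset (OO k))
    (F g : OO k → Om) (hg : ∀ h ∈ T, VP P (g h))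
    (hF : ∀ h ∈ T, TP P 4 (F h - 1 - 2 * g h)) :
    ∃ R : Om, VP P R ∧ ∏ h ∈ T, F h = 1 + 2 * (∑ h ∈ T, g h) + 4 * R := by
  classical
  induction T using Finset.induction_on with
  | empty => exact ⟨0, DI.VP.zero, by simp⟩
  | insert x T hx ih =>
    obtain ⟨R, hR, hRe⟩ := ih (fun h hh => hg h (Finset.mem_insert_of_mem hh))
      (fun h hh => hF h (Finset.mem_insert_of_mem hh))
    obtain ⟨r, hr, hre⟩ := hF x (Finset.mem_insert_self x T)
    have hgx := hg x (Finset.mem_insert_self x T)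
    have hG : VP P (∑ h ∈ T, g h) :=
      DI.VP.sum T g fun h hh => hg h (Finset.mem_insert_of_mem hh)
    refine ⟨r + R + g x * (∑ h ∈ T, g h) + 2 * (g x * R + r * (∑ h ∈ T, g h)) +
      2 * 2 * (r * R), ?_, ?_⟩
    · exact (((hr.add hR).add (hgx.mul hG)).add (hw.mul ((hgx.mul hR).add (hr.mul hG)))).add
        ((hw.mul hw).mul (hr.mul hR))
    · rw [Finset.prod_insert hx, Finset.sum_insert hx, hRe]
      have e : F x = 1 + 2 * g x + 4 * r := by linear_combination hre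
      rw [e]
      ring

theorem tDU : S_DU := by
  intro hO6 hD8 hSN hTra hThT hUBa hUBb k _ f m N T P hH hN hT hP s hs hpsi b hb hb2f
  have hPp : P.IsPrime := hP.1.1
  have hw : VP P 2 := hP.2.1.vp
  have hf0 : 0 < f := by
    have := hH.three
    omega
  have hN1 : 1 ≤ N := by omega
  have hb2 : PrI b 2 := (((hO6 k).2.1 2 f b).1 hb2f).1
  obtain ⟨ha0, hac, -, -⟩ := hSN k f N hH.odd hH.three hN
  -- the action of `s`
  obtain ⟨hu0, -, -, hu4, -⟩ := hUBa k f m N T hH hN1 hT b hb hb2f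
  have hsu : s (uN f N m T b) = ∏ h ∈ T, Theta m b (toC (aN k f N * h) / (f * 2 ^ N : ℕ)) := by
    rw [(hUBb k f m N T hH hN1 hT b hb hb2f).2 s hs _ hpsi, hu4 _ ha0 hac]
  have hch : ∀ h ∈ T, Cop h 2 := fun h hh => cop_dvd (hT.mem h hh).2 (dvd_mul_right 2 f)
  have hper := ((hD8 k m b hH.ne hb hH.two).2.1)
  have htr : ∀ h ∈ T, Theta m b (toC (aN k f N * h) / (f * 2 ^ N : ℕ)) =
      Theta m b (toC h / (f * 2 ^ N : ℕ) + ptT b) := by
    intro h hh
    have h1 := hTra k f N b hf0 hN1 hb hb2 h (hch h hh)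
    have h2 := (hper (toC h / (f * 2 ^ N : ℕ) + ptT b)).2 _ h1
    rw [add_sub_cancel] at h2
    exact h2
  have hth : ∀ h ∈ T, VP P (gt m b (toC h / (f * 2 ^ N : ℕ))) ∧
      Theta m b (toC h / (f * 2 ^ N : ℕ)) ≠ 0 ∧
      TP P 4 (Theta m b (toC (aN k f N * h) / (f * 2 ^ N : ℕ)) /
        Theta m b (toC h / (f * 2 ^ N : ℕ)) - 1 - 2 * gt m b (toC h / (f * 2 ^ N : ℕ))) := by
    intro h hh
    rw [htr h hh]
    exact hThT k f N m b hH.odd hN1 hH.ne hb hH.two hb2 P hP h (hch h hh) _ rfl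
  obtain ⟨R, hR, hRe⟩ := DU_prod hw T
    (fun h => Theta m b (toC (aN k f N * h) / (f * 2 ^ N : ℕ)) /
      Theta m b (toC h / (f * 2 ^ N : ℕ)))
    (fun h => gt m b (toC h / (f * 2 ^ N : ℕ)))
    (fun h hh => (hth h hh).1) (fun h hh => (hth h hh).2.2)
  rw [Finset.prod_div_distrib] at hRe
  have hq : s (uN f N m T b) / uN f N m T b =
      1 + 2 * (∑ h ∈ T, gt m b (toC h / (f * 2 ^ N : ℕ))) + 4 * R := by
    rw [hsu]
    exact hRe
  have hD : Dw s (uN f N m T b) = (∑ h ∈ T, gt m b (toC h / (f * 2 ^ N : ℕ))) + 2 * R := by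
    unfold Dw
    rw [hq]
    ring
  refine ⟨?_, fun h hh => (hth h hh).1, R, hR, ?_⟩
  · rw [hD]
    exact (DI.VP.sum T _ fun h hh => (hth h hh).1).add (hw.mul hR)
  · rw [hD]
    ring

end Pool.Agent.DK.G
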