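import Pool.Agent.Lib.DK.G.Spec

/-!
# Theorem DK, part G, module EtG: Galois action on `etaX` at `c / 2^j`
-/

set_option autoImplicit false

open scoped Pointwise

noncomputable section

namespace Pool.Agent.DK.G

open Pool.Agent.MuZ Pool.Agent.FW Pool.Agent.DK
open Pool.Agent.DI (io ofC io_inj exists_io io_ofC ofC_io VP MP UP TP ex sqr sqr_sq kap)

variable {k : ℕ}

private theorem EtG_zet_pow (n : ℕ) (hn : 0 < n) : zet n ^ n = 1 := by
  have hn' : (n : ℂ) ≠ 0 := by exact_mod_cast hn.ne'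
  have h1 : ex (1 / n) ^ n = 1 := by
    unfold ex
    rw [← Complex.exp_nat_mul]
    have e : (n : ℂ) * (2 * Real.pi * Complex.I * (1 / n)) = 2 * Real.pi * Complex.I := by
      field_simp
    rw [e, Complex.exp_two_pi_mul_I]
  have h2 : IsAlgebraic ℚ (ex (1 / n)) := by
    refine ⟨Polynomial.X ^ n - 1, ?_, ?_⟩
    · exact (Polynomial.monic_X_pow_sub_C (1 : ℚ) hn.ne').ne_zero
    · rw [map_sub, map_pow, Polynomial.aeval_X, map_one, h1, sub_self]
  apply io_inj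
  rw [map_pow, map_one]
  unfold zet
  rw [io_ofC _ h2, h1]

private theorem EtG_lam [SqK k] (b : Ideal (OO k)) (v : OO k) : toC v ∈ Lam b :=
  fun u _ => ⟨u * v, by rw [toC_mul]⟩

private theorem EtG_mul_ne [SqK k] {a b : Ideal (OO k)} (ha : a ≠ ⊥) (hb : b ≠ ⊥) : a * b ≠ ⊥ := by
  have h : a * b ≠ 0 := mul_ne_zero (by simpa using ha) (by simpa using hb)
  simpa using h

theorem tEtG : S_EtG := by
  classical
  intro hO2 hO6 hE1 hE6 hE10 hK1 hK2 hGM hR2 hChi k _ f m R χ hy hR hχ c j τ hτ hM hτχ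
  obtain ⟨hfo, hf3, hm0, hm2, hmf⟩ := hy
  have hf0 : 0 < f := by omega
  obtain ⟨hO6a, hO6b, hO6c, hO6d, hO6e⟩ := hO6 k
  obtain ⟨-, -, -, -, hNI, hNI0, -, -⟩ := hO2 k
  -- the power of two
  have hcop2 : ∀ b : Ideal (OO k), PrI b 2 → (NI b).Coprime (2 ^ j) := fun b hb =>
    ((hO6c 2 b two_pos).1 hb).pow_right j
  have hn0 : 0 < 2 ^ j := by positivity
  generalize hn : 2 ^ j = n at hn0 hcop2
  have hcj : ((c : ℚ) / 2 ^ j) = (c : ℚ) / (n : ℕ) := by
    rw [← hn]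
    push_cast
    rfl
  rw [hcj]
  have hNm0 : 0 < NI m := Nat.pos_of_ne_zero fun h => hm0 ((hNI0 m).1 h)
  have hM0 : 0 < f * n * NI m := by positivity
  -- the system R'
  obtain ⟨⟨R', hR', hR'2⟩, hRR, hRa⟩ := hR2 k f hfo hf3
  have hF : ∀ b b' : Ideal (OO k), b ≠ ⊥ → PrI b f → b' ≠ ⊥ → PrI b' f → Ray f b b' →
      χ b * etaM f m b ((c : ℚ) / (n : ℕ)) = χ b' * etaM f m b' ((c : ℚ) / (n : ℕ)) := by
    intro b b' hb hbf hb' hbf' hr
    rw [hχ.ray b b' hb hb' hbf hbf' hr,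
      hK1 k f m b b' hfo hf3 hm0 hm2 hmf hb hbf hb' hbf' hr]
  have e1 : etaX f m R χ ((c : ℚ) / (n : ℕ)) =
      ∑ b ∈ R', χ b * etaM f m b ((c : ℚ) / (n : ℕ)) :=
    hRR R R' hR hR' _ hF
  rw [e1]
  -- the ideal a
  obtain ⟨hE1a, -, -, -, hE1e⟩ := hE1 k (f * n * NI m) hM0
  obtain ⟨a, ha⟩ := hE1a τ hτ
  have haf : Psi τ f a := hE1e τ f a ha ⟨n * NI m, by ring⟩
  obtain ⟨-, -, -, -, -, hGMf, -, -⟩ := hGM k f hfo hf3
  have hHP : HP f a := (hGMf τ hτ a haf).1 hM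
  obtain ⟨-, hχ1, -, -, -, -⟩ := hChi k f χ hfo hf3 hχ
  have hχa : χ a = 1 := hχ1 a hHP
  have ha0 : a ≠ ⊥ := ha.ne
  have hafn : PrI a (f * n) := ((hO6b _ _ a).1 ha.cop).1
  have hafp : PrI a f := haf.cop
  -- the action on etaM
  have key : ∀ b ∈ R', τ (etaM f m b ((c : ℚ) / (n : ℕ))) = etaM f m (a * b) ((c : ℚ) / (n : ℕ)) := by
    intro b hb
    obtain ⟨hb0, hbf⟩ := hR'.mem b hb
    have hb2 : PrI b 2 := ((hO6b 2 f b).1 (hR'2 b hb)).1
    have hbn : PrI b n := (hO6c n b hn0).2 (hcop2 b hb2)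
    have hbfn : PrI b (f * n) := (hO6b f n b).2 ⟨hbf, hbn⟩
    have hab0 : a * b ≠ ⊥ := EtG_mul_ne ha0 hb0
    have habfn : PrI (a * b) (f * n) := (hO6a _ a b).2 ⟨hafn, hbfn⟩
    have hcnm : n.Coprime (NI m) := (hcop2 m hm2).symm
    rw [(hK2 k f m b hfo hf3 hm0 hm2 hmf hb0 c n hn0 hcnm hbfn).2,
      (hK2 k f m (a * b) hfo hf3 hm0 hm2 hmf hab0 c n hn0 hcnm habfn).2]
    rw [map_mul, map_div₀, map_one, map_natCast, map_sum]
    congr 1
    refine Finset.sum_congr rfl fun x _ => ?_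
    rw [map_sum]
    refine Finset.sum_congr rfl fun y _ => ?_
    rw [map_mul, map_zpow₀]
    have hζ : zet n ^ (f * n * NI m) = 1 := by
      have e : f * n * NI m = n * (f * NI m) := by ring
      rw [e, pow_mul, EtG_zet_pow n hn0, one_pow]
    rw [hE6 k τ (f * n * NI m) a hτ hM0 ha _ hζ]
    have hz0 : zet n ≠ 0 := fun h => by
      have := EtG_zet_pow n hn0
      rw [h, zero_pow hn0.ne'] at this
      exact zero_ne_one this
    set β : OO k := ⟨1 + f * x, f * y⟩ with hβ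
    have e2 : (zet n ^ NI a) ^ (c * ((NI m : ℤ) * NI b * Nm β)) =
        zet n ^ (c * ((NI m : ℤ) * NI (a * b) * Nm β)) := by
      rw [← zpow_natCast, ← zpow_mul, hNI]
      congr 1
      push_cast
      ring
    rw [e2]
    congr 1
    -- the action on g
    obtain ⟨-, hE10b, -⟩ := hE10 k τ (f * n * NI m) a hM0 ha
    obtain ⟨-, -, hg⟩ := hE10b f hfo hf3 ⟨n * NI m, by ring⟩
    have hfn : ((f * n : ℕ) : ℂ) ≠ 0 := by
      have : f * n ≠ 0 := by positivity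
      exact_mod_cast this
    refine hg m b hm0 hb0 hm2 hmf hbf ⟨f * n, by ring⟩ _ ?_ ?_
    · have e3 : ((f * n * NI m : ℕ) : ℂ) * (toC β / (f * n : ℕ)) = toC ((NI m : OO k) * β) := by
        rw [toC_mul, toC_nat, Nat.cast_mul (f * n)]
        field_simp
      rw [e3]
      exact EtG_lam b _
    · intro hz
      obtain ⟨v, hv, -, hv1⟩ := hO6e f (m * b) hf0 (EtG_mul_ne hm0 hb0) ((hO6a f m b).2 ⟨hmf, hbf⟩)
      obtain ⟨u, hu⟩ := hz v hv
      have e4 : v * β = ((f * n : ℕ) : OO k) * u := by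
        apply toC_inj
        rw [toC_mul, toC_mul, toC_nat, ← hu]
        field_simp
      have h5 : (f : OO k) ∣ v * β := by
        rw [e4]
        push_cast
        exact ⟨n * u, by ring⟩
      have h6 : (f : OO k) ∣ β - 1 := by
        rw [nat_dvd_iff]
        constructor
        · rw [QuadraticAlgebra.re_sub, re_one, hβ]
          exact ⟨x, by ring⟩
        · rw [QuadraticAlgebra.im_sub, im_one, hβ]
          exact ⟨y, by ring⟩
      have h7 : (f : OO k) ∣ 1 := by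
        have e5 : (1 : OO k) = v * β - (v - 1) * β - (β - 1) := by ring
        rw [e5]
        exact dvd_sub (dvd_sub h5 (hv1.mul_right β)) h6
      obtain ⟨h8, -⟩ := (nat_dvd_iff f _).1 h7
      rw [re_one] at h8
      have h9 := Int.le_of_dvd one_pos h8
      omega
  -- the conclusion
  rw [map_sum]
  have e6 : ∀ b ∈ R', τ (χ b * etaM f m b ((c : ℚ) / (n : ℕ))) =
      χ (a * b) * etaM f m (a * b) ((c : ℚ) / (n : ℕ)) := by
    intro b hb
    rw [map_mul, hτχ, key b hb, hχ.mul, hχa, one_mul]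
  rw [Finset.sum_congr rfl e6]
  exact hRa R' hR' a ha0 hafp (fun b => χ b * etaM f m b ((c : ℚ) / (n : ℕ))) hF

end Pool.Agent.DK.G
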