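import Pool.Agent.Lib.DK.G.Spec

/-!
# Theorem DK, part G, module Fou1: the Fourier transform, first form
-/

set_option autoImplicit false

open scoped Pointwise

noncomputable section

namespace Pool.Agent.DK.G

open Pool.Agent.MuZ Pool.Agent.FW Pool.Agent.DK
open Pool.Agent.DI (io ofC io_inj exists_io io_ofC ofC_io VP MP UP TP ex sqr sqr_sq kap)

/-- `zet n` is a primitive `n`-th root of unity. -/
private theorem Fou1_zet (n : ℕ) (hn : 0 < n) : IsPrimitiveRoot (zet n) n := by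
  have hn0 : (n : ℂ) ≠ 0 := by exact_mod_cast hn.ne'
  have h1 : IsPrimitiveRoot (ex (1 / n) : ℂ) n := by
    have h2 := Complex.isPrimitiveRoot_exp n hn.ne'
    have h3 : ex (1 / n) = Complex.exp (2 * Real.pi * Complex.I / n) := by
      unfold ex
      congr 1
      field_simp
    rw [h3]
    exact h2
  have halg : IsAlgebraic ℚ (ex (1 / n) : ℂ) := by
    have h2 : IsAlgebraic ℚ ((ex (1 / n) : ℂ) ^ n) := by
      rw [h1.pow_eq_one]
      exact isAlgebraic_one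
    exact h2.of_pow hn
  have h3 : io (zet n) = ex (1 / n) := io_ofC _ halg
  refine IsPrimitiveRoot.of_map_of_injective (f := io) ?_ io_inj
  rw [h3]
  exact h1

private theorem Fou1_geo {ζ : Om} {n : ℕ} (hζ : IsPrimitiveRoot ζ n) (k : ℤ) :
    ∑ c ∈ Finset.range n, ζ ^ ((c : ℤ) * k) = if (n : ℤ) ∣ k then (n : Om) else 0 := by
  have h1 : ∀ c : ℕ, ζ ^ ((c : ℤ) * k) = (ζ ^ k) ^ c := by
    intro c
    rw [mul_comm, zpow_mul, zpow_natCast]
  simp only [h1]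
  split_ifs with h
  · rw [(hζ.zpow_eq_one_iff_dvd k).2 h]
    simp
  · have h2 : ζ ^ k ≠ 1 := fun h3 => h ((hζ.zpow_eq_one_iff_dvd k).1 h3)
    have h3 : (ζ ^ k) ^ n = 1 := by
      rw [← zpow_natCast, ← zpow_mul, mul_comm, zpow_mul, zpow_natCast, hζ.pow_eq_one, one_zpow]
    have h4 := mul_geom_sum (ζ ^ k) n
    rw [h3, sub_self] at h4
    exact (mul_eq_zero.1 h4).resolve_left (sub_ne_zero.2 h2)

theorem tFou1 : S_Fou1 := by
  classical
  intro hO6 hK2 k _ f m R χ hy hR hR2 N a hN ha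
  obtain ⟨-, h6b, h6c, -, -⟩ := hO6 k
  have hf0 : 0 < f := by have := hy.three; omega
  have h2N : 0 < 2 ^ N := by positivity
  have hζ := Fou1_zet (2 ^ N) h2N
  have hζ0 : zet (2 ^ N) ≠ 0 := hζ.ne_zero h2N.ne'
  have hcop : (2 ^ N).Coprime (NI m) := by
    have h1 : (NI m).Coprime 2 := (h6c 2 m (by norm_num)).1 hy.two
    exact (Nat.Coprime.pow_right N h1).symm
  have hPr : ∀ b ∈ R, PrI b (f * 2 ^ N) := by
    intro b hb
    obtain ⟨h1, h2⟩ := (h6b 2 f b).1 (hR2 b hb)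
    refine (h6b f (2 ^ N) b).2 ⟨h2, ?_⟩
    exact (h6c (2 ^ N) b h2N).2 (Nat.Coprime.pow_right N ((h6c 2 b (by norm_num)).1 h1))
  have key : ∀ b ∈ R, ∀ c : ℤ, etaM f m b ((c : ℚ) / 2 ^ N) =
      (1 / (2 ^ N : ℕ) : Om) * ∑ x ∈ Finset.range (2 ^ N), ∑ y ∈ Finset.range (2 ^ N),
        zet (2 ^ N) ^ (c * (NI m * NI b * Nm (bt k f x y))) *
          gO f m b (toC (bt k f x y) / (f * 2 ^ N : ℕ)) := by
    intro b hb c
    have h1 := (hK2 k f m b hy.odd hy.three hy.ne hy.two hy.cop (hR.mem b hb).1 c (2 ^ N) h2N hcop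
      (hPr b hb)).2
    have h2 : ((c : ℚ) / 2 ^ N) = (c : ℚ) / ((2 ^ N : ℕ) : ℚ) := by
      push_cast
      rfl
    rw [h2]
    exact h1
  have key2 : ∀ c : ℕ, zet (2 ^ N) ^ (-((c : ℤ) * a)) * etas f m R χ ((c : ℚ) / 2 ^ N) =
      ∑ b ∈ R, χ b * ∑ x ∈ Finset.range (2 ^ N), ∑ y ∈ Finset.range (2 ^ N),
        (1 / (2 ^ N : ℕ) : Om) * gO f m b (toC (bt k f x y) / (f * 2 ^ N : ℕ)) *
          (zet (2 ^ N) ^ ((c : ℤ) * ((NI m * NI b * Nm (bt k f x y)) - a)) +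
            zet (2 ^ N) ^ ((c : ℤ) * (-((NI m * NI b * Nm (bt k f x y)) + a)))) := by
    intro c
    have h3 : ((c : ℤ) : ℚ) / 2 ^ N = (c : ℚ) / 2 ^ N := by
      push_cast
      rfl
    have h4 : ((-(c : ℤ) : ℤ) : ℚ) / 2 ^ N = -((c : ℚ) / 2 ^ N) := by
      push_cast
      rw [neg_div]
    unfold etas etaX
    rw [← Finset.sum_add_distrib, Finset.mul_sum]
    refine Finset.sum_congr rfl fun b hb => ?_
    have h1 := key b hb (c : ℤ)
    have h2 := key b hb (-(c : ℤ))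
    rw [h3] at h1
    rw [h4] at h2
    rw [h1, h2, ← mul_add, ← mul_add, ← Finset.sum_add_distrib, mul_left_comm]
    congr 1
    rw [mul_left_comm, Finset.mul_sum, Finset.mul_sum]
    refine Finset.sum_congr rfl fun x _ => ?_
    rw [← Finset.sum_add_distrib, Finset.mul_sum, Finset.mul_sum]
    refine Finset.sum_congr rfl fun y _ => ?_
    have e1 : zet (2 ^ N) ^ ((c : ℤ) * ((NI m * NI b * Nm (bt k f x y)) - a)) =
        zet (2 ^ N) ^ (-((c : ℤ) * a)) *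
          zet (2 ^ N) ^ ((c : ℤ) * (NI m * NI b * Nm (bt k f x y))) := by
      rw [← zpow_add₀ hζ0]
      congr 1
      ring
    have e2 : zet (2 ^ N) ^ ((c : ℤ) * (-((NI m * NI b * Nm (bt k f x y)) + a))) =
        zet (2 ^ N) ^ (-((c : ℤ) * a)) *
          zet (2 ^ N) ^ (-(c : ℤ) * (NI m * NI b * Nm (bt k f x y))) := by
      rw [← zpow_add₀ hζ0]
      congr 1
      ring
    rw [e1, e2]
    ring
  rw [Finset.sum_congr rfl fun c _ => key2 c, Finset.sum_comm]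
  unfold SSN
  refine Finset.sum_congr rfl fun b hb => ?_
  rw [← Finset.mul_sum, Finset.sum_comm]
  congr 1
  refine Finset.sum_congr rfl fun x _ => ?_
  rw [Finset.sum_comm]
  refine Finset.sum_congr rfl fun y _ => ?_
  generalize hq : ((NI m : ℤ) * NI b * Nm (bt k f x y)) = q
  generalize gO f m b (toC (bt k f x y) / (f * 2 ^ N : ℕ)) = g
  rw [← Finset.mul_sum, Finset.sum_add_distrib, Fou1_geo hζ, Fou1_geo hζ]
  simp only [dvd_neg]
  unfold Pm
  push_cast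
  have hex : ¬ ((2 : ℤ) ^ N ∣ q - a ∧ (2 : ℤ) ^ N ∣ q + a) := by
    rintro ⟨h1, h2⟩
    have h3 := dvd_sub h2 h1
    have h4 : q + a - (q - a) = 2 * a := by ring
    rw [h4] at h3
    have h5 : (2 : ℤ) ^ 2 ∣ 2 ^ N := pow_dvd_pow 2 hN
    obtain ⟨k, hk⟩ := h5.trans h3
    obtain ⟨j, hj⟩ := ha
    omega
  have h2' : ((2 : Om) ^ N) ≠ 0 := pow_ne_zero _ two_ne_zero
  by_cases h1 : (2 : ℤ) ^ N ∣ q - a
  · have h2 : ¬ (2 : ℤ) ^ N ∣ q + a := fun h => hex ⟨h1, h⟩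
    rw [if_pos h1, if_neg h2, if_pos (Or.inl h1)]
    field_simp
    ring
  · by_cases h2 : (2 : ℤ) ^ N ∣ q + a
    · rw [if_neg h1, if_pos h2, if_pos (Or.inr h2)]
      field_simp
      ring
    · rw [if_neg h1, if_neg h2, if_neg (by rintro (h | h); exact h1 h; exact h2 h)]
      ring

end Pool.Agent.DK.G
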