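import Pool.Agent.Lib.DK.G.Spec

/-!
# Theorem DK, part G, module Fou2: the Fourier transform, second form
-/

set_option autoImplicit false

open scoped Pointwise

noncomputable section

namespace Pool.Agent.DK.G

open Pool.Agent.MuZ Pool.Agent.FW Pool.Agent.DK
open Pool.Agent.DI (io ofC io_inj exists_io io_ofC ofC_io VP MP UP TP ex sqr sqr_sq kap)

private theorem Fou2_zpow {P : Ideal ZZ} (hP : P.IsPrime) {x : Om} (hx : UP P x) (k : ℤ) :
    VP P (x ^ k) := by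
  have := hP
  rcases Int.eq_nat_or_neg k with ⟨n, rfl | rfl⟩
  · rw [zpow_natCast]
    exact (hx.pow n).1
  · rw [zpow_neg, zpow_natCast]
    exact (hx.pow n).inv.1

private theorem Fou2_zet (n : ℕ) (hn : 0 < n) : IsPrimitiveRoot (zet n) n := by
  have h1 : ex (1 / n) = Complex.exp (2 * Real.pi * Complex.I / n) := by
    unfold Pool.Agent.DI.ex
    congr 1
    ring
  have h2 : IsPrimitiveRoot (ex (1 / n)) n := by
    rw [h1]
    exact Complex.isPrimitiveRoot_exp n hn.ne'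
  have h3 : IsAlgebraic ℚ (ex (1 / n)) :=
    (h2.isIntegral hn).isAlgebraic.extendScalars (algebraMap ℤ ℚ).injective_int
  refine IsPrimitiveRoot.of_map_of_injective (f := io) ?_ io_inj
  change IsPrimitiveRoot (io (ofC (ex (1 / n)))) n
  rw [io_ofC _ h3]
  exact h2

private theorem Fou2_odd (k f : ℕ) (m : Ideal (OO k)) [SqK k] (hO6 : S_O6) (hH : Hy f m) :
    Odd (MM k f m) := by
  have h1 : (NI m).Coprime 2 := ((hO6 k).2.2.1 2 m (by norm_num)).1 hH.two
  have h2 : Odd (NI m) := by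
    rw [Nat.coprime_comm, Nat.coprime_two_left] at h1
    exact h1
  have h3 : Odd (Dk k) := by
    have h4 := hk (k := k)
    unfold Dk
    refine ⟨4 * k - 1, ?_⟩
    omega
  exact (h3.mul (hH.odd.pow)).mul h2

theorem tFou2 : S_Fou2 := by
  intro hO4 hO6 hK3 hK4 hK6 hChi hFou1 k _ f m R χ P hH hR hRb hχ hP N a hN ha
  have hPp : P.IsPrime := hP.1.1
  have h2 : MP P 2 := hP.2.1
  have h2V : VP P 2 := h2.vp
  obtain ⟨M, rfl⟩ : ∃ M, N = M + 1 := ⟨N - 1, by omega⟩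
  have hM : M + 1 - 1 = M := rfl
  rw [hM]
  have hodd := Fou2_odd k f m hO6 hH
  -- basic facts
  have hχV : ∀ b, VP P (χ b) := fun b =>
    DI.VP.integral ((hChi k f χ hH.odd hH.three hχ).2.2.2.1 b)
  have hden : ∀ (r : ℚ) (c : ℤ) (j : ℕ), r = c / 2 ^ j → r.den.Coprime (MM k f m) := by
    intro r c j hr
    have h3 : (r.den : ℤ) ∣ ((2 ^ j : ℕ) : ℤ) := by
      rw [hr]
      have h4 := Rat.den_dvd c ((2 ^ j : ℕ) : ℤ)
      rw [Rat.divInt_eq_div] at h4
      push_cast at h4 ⊢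
      exact h4
    have h4 : r.den ∣ 2 ^ j := by exact_mod_cast h3
    exact Nat.Coprime.coprime_dvd_left h4
      (Nat.Coprime.pow_left j (Nat.coprime_two_left.2 hodd))
  have hX : ∀ (r : ℚ) (c : ℤ) (j : ℕ), r = c / 2 ^ j → VP P (etaX f m R χ r) := by
    intro r c j hr
    unfold etaX
    refine DI.VP.sum _ _ fun b hb => (hχV b).mul ?_
    exact hK6 k f m b hH.odd hH.three hH.ne hH.two hH.cop (hR.mem b hb).1 (hR.mem b hb).2 P hP.1 h2
      r (hden r c j hr)
  have hS : ∀ (r : ℚ) (c : ℤ) (j : ℕ), r = c / 2 ^ j → VP P (etas f m R χ r) := by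
    intro r c j hr
    refine (hX r c j hr).add (hX (-r) (-c) j ?_)
    rw [hr]
    push_cast
    ring
  have hper : ∀ r : ℚ, etaX f m R χ (r + 1) = etaX f m R χ r := by
    intro r
    unfold etaX
    refine Finset.sum_congr rfl fun b hb => ?_
    rw [hK4 k f m b hH.odd hH.three hH.ne hH.two hH.cop (hR.mem b hb).1 (hR.mem b hb).2 r]
  have hz := Fou2_zet (2 ^ (M + 1)) (by positivity)
  set ζ : Om := zet (2 ^ (M + 1)) with hζ
  have hζu : UP P ζ := by
    refine DI.UP.of_pow (n := 2 ^ (M + 1)) (by positivity) ?_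
    rw [hz.pow_eq_one]
    exact DI.UP.one
  have hζq : ζ ^ (2 ^ M) = -1 := by
    have h3 : ζ ^ (2 ^ M) * ζ ^ (2 ^ M) = 1 := by
      rw [← pow_two, ← pow_mul, ← pow_succ, hz.pow_eq_one]
    rcases mul_self_eq_one_iff.1 h3 with h4 | h4
    · exact absurd h4 (hz.pow_ne_one_of_pos_of_lt (by positivity)
        (Nat.pow_lt_pow_right (by norm_num) (by omega)))
    · exact h4
  have hζ0 : ζ ≠ 0 := hζu.ne_zero
  have hχ2 : χ (sp 2) = χ (pp k) * χ (ppb k) := by
    rw [← hχ.mul, (hO4 k).1]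
  -- the functional equation
  have hfe : ∀ (s : ℚ) (c : ℤ) (j : ℕ), 2 * s = c / 2 ^ j → ∃ y : Om, VP P y ∧
      etas f m R χ s + etas f m R χ (s + 1 / 2) + χ (sp 2) * etas f m R χ (2 * (2 * s)) -
      χ (pp k) * etas f m R χ (2 * s) = 2 * y := by
    intro s c j hs
    have hK := hK3 k f m hH.odd hH.three hH.ne hH.two hH.cop R χ hR hχ P hP
    obtain ⟨y1, hy1, e4⟩ := hK (2 * s) (hden _ c j hs)
    obtain ⟨y2, hy2, e5⟩ := hK (-(2 * s)) (hden _ (-c) j (by rw [hs]; push_cast; ring))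
    have e6 := hper (-(s + 1 / 2))
    have r1 : 2 * s / 2 = s := by ring
    have r2 : (2 * s + 1) / 2 = s + 1 / 2 := by ring
    have r3 : -(2 * s) / 2 = -s := by ring
    have r4 : (-(2 * s) + 1) / 2 = -(s + 1 / 2) + 1 := by ring
    have r5 : 2 * -(2 * s) = -(2 * (2 * s)) := by ring
    rw [r1, r2] at e4
    rw [r3, r4, r5, e6] at e5
    refine ⟨y1 + y2, hy1.add hy2, ?_⟩
    unfold etas
    linear_combination e4 + e5
  -- the difference
  have key : ∀ c : ℕ, ∃ y : Om, VP P y ∧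
      etas f m R χ ((c : ℚ) / 2 ^ (M + 1)) - etas f m R χ ((c : ℚ) / 2 ^ (M + 1) + 1 / 2) =
        χ (pp k) * haX f m R χ ((c : ℚ) / 2 ^ M) + 2 * y := by
    intro c
    have r0 : (c : ℚ) / 2 ^ M = 2 * ((c : ℚ) / 2 ^ (M + 1)) := by
      rw [pow_succ]
      field_simp
    set s : ℚ := (c : ℚ) / 2 ^ (M + 1) with hs
    have v1 : VP P (etas f m R χ (s + 1 / 2)) := by
      refine hS _ (c + 2 ^ M) (M + 1) ?_
      rw [hs, pow_succ]
      push_cast
      field_simp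
    have v3 : VP P (etas f m R χ (2 * (2 * s))) := by
      refine hS _ (2 * c) M ?_
      rw [← r0]
      push_cast
      ring
    obtain ⟨y, hy, h3⟩ := hfe s c M (by rw [← r0]; push_cast; rfl)
    refine ⟨y - etas f m R χ (s + 1 / 2) - χ (sp 2) * etas f m R χ (2 * (2 * s)), ?_, ?_⟩
    · exact (hy.sub v1).sub ((hχV _).mul v3)
    · unfold haX
      rw [r0]
      rw [hχ2] at h3 ⊢
      linear_combination h3
  choose y hyV hy using key
  -- the sum
  have hsum : SSN f m (M + 1) R χ a = ∑ c ∈ Finset.range (2 ^ M), ζ ^ (-((c : ℤ) * a)) *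
      (etas f m R χ ((c : ℚ) / 2 ^ (M + 1)) - etas f m R χ ((c : ℚ) / 2 ^ (M + 1) + 1 / 2)) := by
    rw [← hFou1 k f m R χ hH hR hRb (M + 1) a hN ha, ← hζ]
    have h3 : 2 ^ (M + 1) = 2 ^ M + 2 ^ M := by ring
    have h4 : Finset.range (2 ^ (M + 1)) = Finset.range (2 ^ M + 2 ^ M) := by rw [h3]
    rw [h4, Finset.sum_range_add, ← Finset.sum_add_distrib]
    refine Finset.sum_congr rfl fun c _ => ?_
    have h5 : ζ ^ (-(((2 ^ M + c : ℕ) : ℤ) * a)) = -ζ ^ (-((c : ℤ) * a)) := by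
      have h6 : -(((2 ^ M + c : ℕ) : ℤ) * a) = ((2 ^ M : ℕ) : ℤ) * (-a) + (-((c : ℤ) * a)) := by
        push_cast
        ring
      rw [h6, zpow_add₀ hζ0, zpow_mul, zpow_natCast, hζq, Odd.neg_one_zpow ha.neg, neg_one_mul]
    have h7 : (((2 ^ M + c : ℕ) : ℚ)) / 2 ^ (M + 1) = (c : ℚ) / 2 ^ (M + 1) + 1 / 2 := by
      rw [pow_succ]
      push_cast
      field_simp
      ring
    rw [h5, h7]
    ring
  have hdiff : SSN f m (M + 1) R χ a - χ (pp k) *
      ∑ c ∈ Finset.range (2 ^ M), ζ ^ (-((c : ℤ) * a)) * haX f m R χ ((c : ℚ) / 2 ^ M) =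
      2 * ∑ c ∈ Finset.range (2 ^ M), ζ ^ (-((c : ℤ) * a)) * y c := by
    rw [hsum]
    simp only [Finset.mul_sum]
    rw [← Finset.sum_sub_distrib]
    refine Finset.sum_congr rfl fun c _ => ?_
    rw [hy c]
    ring
  refine ⟨?_, ⟨_, ?_, hdiff⟩⟩
  · rw [hsum]
    refine DI.VP.sum _ _ fun c _ => (Fou2_zpow hPp hζu _).mul ?_
    refine (hS _ c (M + 1) ?_).sub (hS _ (c + 2 ^ M) (M + 1) ?_)
    · push_cast
      rfl
    · rw [pow_succ]
      push_cast
      field_simp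
  · exact DI.VP.sum _ _ fun c _ => (Fou2_zpow hPp hζu _).mul (hyV c)

end Pool.Agent.DK.G
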