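import Pool.Agent.Lib.DK.G.Spec

/-!
# Theorem DK, part G, module G3m: the elliptic units (`S_G3`)
-/

set_option autoImplicit false

namespace Pool.Agent.DK.G

theorem tG3m : S_G3m := by
  intro hA hB hT k _ f m N T ho h3 hm h2 hf hN hTT b hb hb2
  have hy : Hy f m := ⟨ho, h3, hm, h2, hf⟩
  obtain ⟨a1, a2, a3, _, a5, a6⟩ := hA k f m N T hy (by omega) hTT b hb hb2
  obtain ⟨b1, b2⟩ := hB k f m N T hy (by omega) hTT b hb hb2
  exact ⟨b1, a1, a2, a3, a5, b2, a6, fun T' hT' s hs a hPs h4 h5 =>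
    hT k f m N T hy hN hTT b hb hb2 T' hT' s hs a hPs h4 h5⟩

end Pool.Agent.DK.G
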