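import Pool.Agent.Lib.DK.G.Spec

/-!
# Theorem DK, part G, module G7: the sum of `χ(c) D(u_N(c))` is not `0` modulo `2`
-/

set_option autoImplicit false

open scoped Pointwise

noncomputable section

namespace Pool.Agent.DK.G

open Pool.Agent.MuZ Pool.Agent.FW Pool.Agent.DK
open Pool.Agent.DI (io ofC io_inj exists_io io_ofC ofC_io VP MP UP TP ex sqr sqr_sq kap)

private theorem G7_add {P : Ideal ZZ} [P.IsPrime] {t x y : Om} (hx : TP P t x) (hy : TP P t y) :
    TP P t (x + y) := by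
  obtain ⟨a, ha, rfl⟩ := hx
  obtain ⟨b, hb, rfl⟩ := hy
  exact ⟨a + b, ha.add hb, by ring⟩

private theorem G7_mul {P : Ideal ZZ} [P.IsPrime] {t x y : Om} (hx : VP P x) (hy : TP P t y) :
    TP P t (x * y) := by
  obtain ⟨b, hb, rfl⟩ := hy
  exact ⟨x * b, hx.mul hb, by ring⟩

private theorem G7_sum {P : Ideal ZZ} [P.IsPrime] {t : Om} {ι : Type} (s : Finset ι) (F : ι → Om)
    (h : ∀ i ∈ s, TP P t (F i)) : TP P t (∑ i ∈ s, F i) := by
  classical
  induction s using Finset.induction_on with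
  | empty => exact ⟨0, DI.VP.zero, by simp⟩
  | insert i s hi ih =>
      rw [Finset.sum_insert hi]
      exact G7_add (h i (Finset.mem_insert_self i s))
        (ih fun j hj => h j (Finset.mem_insert_of_mem hj))

private theorem G7_bt {k : ℕ} (f x y : ℕ) : (f : OO k) ∣ bt k f x y - 1 := by
  rw [nat_dvd_iff, QuadraticAlgebra.re_sub, QuadraticAlgebra.im_sub, re_one, im_one]
  unfold bt
  exact ⟨⟨x, by ring⟩, ⟨y, by ring⟩⟩

private theorem G7_Hf {k : ℕ} (f : ℕ) (v : OO k) (h : (f : OO k) ∣ v - 1) : Hf f v := by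
  refine ⟨cop_congr (a := 1) ?_ (cop_one f), 0, ?_⟩
  · have h1 := dvd_neg.2 h
    rwa [neg_sub] at h1
  · rw [pow_zero, pow_one]
    exact h

theorem tG7 : S_G7 := by
  classical
  intro hO6 hO7 hD9 hCop hR2 hRS hGt hRayF hNQ hDU hChi hSNo k _ f m χ P hH hmt hχ hP
  have hPp : P.IsPrime := hP.1.1
  have hf0 : 0 < f := by
    have := hH.three
    omega
  obtain ⟨⟨R, hR, hRb⟩, -, -⟩ := hR2 k f hH.odd hH.three
  obtain ⟨N1, -, hN1⟩ := hSNo k f m R χ P hH hmt hR hRb hχ hP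
  have hoddm : Odd (NI m) := by
    have h1 : (NI m).Coprime 2 := ((hO6 k).2.2.1 2 m (by norm_num)).1 hH.two
    rwa [Nat.coprime_comm, Nat.coprime_two_left] at h1
  refine ⟨max N1 3, le_max_right _ _, ?_⟩
  intro N hN T hT D hD s hs hpsi hcon
  have hN3 : 3 ≤ N := (le_max_right _ _).trans hN
  have hN1' : 1 ≤ N := by omega
  have hM0 : 0 < f * 2 ^ N := Nat.mul_pos hf0 (by positivity)
  apply (hN1 N ((le_max_left _ _).trans hN) (NI m) (by exact_mod_cast hoddm)).2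
  obtain ⟨-, -, cop3, -⟩ := hCop k
  obtain ⟨-, -, hchi3, hchiI, -, -⟩ := hChi k f χ hH.odd hH.three hχ
  have hχV : ∀ b, VP P (χ b) := fun b => DI.VP.integral (hchiI b)
  have h2f : ∀ b : Ideal (OO k), PrI b (2 * f) → PrI b 2 ∧ PrI b f := fun b =>
    ((hO6 k).2.1 2 f b).1
  -- the function `F`
  set F : Ideal (OO k) → Om := fun b => χ b * gt m b (1 / (f * 2 ^ N : ℕ)) with hF
  have hFs : ∀ (b : Ideal (OO k)) (v : OO k), b ≠ ⊥ → v ≠ 0 → Hf f v →
      F (sp v * b) = χ b * gt m b (toC v / (f * 2 ^ N : ℕ)) := by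
    intro b v hb hv hvf
    have h1 := (hGt k m b hH.ne hb hH.two).1 v (1 / (f * 2 ^ N : ℕ)) hv
    rw [hF]
    change χ (sp v * b) * gt m (sp v * b) (1 / (f * 2 ^ N : ℕ)) = _
    rw [h1, hχ.mul, hchi3 v hv hvf, one_mul, mul_one_div]
  -- the first step
  have hpm : ∀ (b : Ideal (OO k)) (x y : ℕ), Pm N (NI m * NI b * Nm (bt k f x y)) (NI m) ↔
      Pm N (NI b * Nm (bt k f x y)) 1 := by
    intro b x y
    have hc : IsCoprime ((2 : ℤ) ^ N) (NI m : ℤ) := by
      have h1 : Nat.Coprime (2 ^ N) (NI m) :=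
        Nat.Coprime.pow_left N (Nat.coprime_two_left.2 hoddm)
      have h2 := Nat.isCoprime_iff_coprime.2 h1
      push_cast at h2
      exact h2
    have e1 : (NI m : ℤ) * NI b * Nm (bt k f x y) - NI m = NI m * (NI b * Nm (bt k f x y) - 1) := by
      ring
    have e2 : (NI m : ℤ) * NI b * Nm (bt k f x y) + NI m = NI m * (NI b * Nm (bt k f x y) + 1) := by
      ring
    unfold Pm
    rw [e1, e2]
    exact or_congr ⟨fun h => hc.dvd_of_dvd_mul_left h, fun h => Dvd.dvd.mul_left h _⟩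
      ⟨fun h => hc.dvd_of_dvd_mul_left h, fun h => Dvd.dvd.mul_left h _⟩
  have hcop : ∀ (b : Ideal (OO k)) (x y : ℕ), Pm N (NI b * Nm (bt k f x y)) 1 →
      Cop (bt k f x y) 2 := by
    intro b x y h
    rw [cop3]
    intro h2
    have h3 : (2 : ℤ) ∣ 2 ^ N := dvd_pow_self 2 (by omega)
    have h4 : (2 : ℤ) ∣ NI b * Nm (bt k f x y) := Dvd.dvd.mul_left h2 _
    rcases h with h | h
    · have h5 := (dvd_sub_right h4).1 (h3.trans h)
      omega
    · have h5 := (dvd_add_right h4).1 (h3.trans h)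
      omega
  have hstep1 : TP P 2 (SSN f m N R χ (NI m) - ∑ b ∈ R, ∑ x ∈ Finset.range (2 ^ N),
      ∑ y ∈ Finset.range (2 ^ N),
        if Pm N (NI b * Nm (bt k f x y)) 1 then F (sp (bt k f x y) * b) else 0) := by
    unfold SSN
    rw [← Finset.sum_sub_distrib]
    refine G7_sum _ _ fun b hb => ?_
    rw [Finset.mul_sum, ← Finset.sum_sub_distrib]
    refine G7_sum _ _ fun x _ => ?_
    rw [Finset.mul_sum, ← Finset.sum_sub_distrib]
    refine G7_sum _ _ fun y _ => ?_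
    by_cases hp : Pm N (NI b * Nm (bt k f x y)) 1
    · rw [if_pos hp, if_pos ((hpm b x y).2 hp)]
      have hb0 := (hR.mem b hb).1
      have hbf := (hR.mem b hb).2
      have hb2 := (h2f b (hRb b hb)).1
      have hc := hcop b x y hp
      have hβ0 : bt k f x y ≠ 0 := by
        intro h0
        rw [h0, cop3, Nm_zero] at hc
        exact hc (dvd_zero _)
      have hβf := G7_Hf f _ (G7_bt (k := k) f x y)
      rw [hFs b _ hb0 hβ0 hβf, ← mul_sub]
      refine G7_mul (hχV b) ?_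
      exact ((hD9 k f hH.odd hH.three P hP.1 hP.2.1).2.2 m b hH.ne hb0 hH.two hH.cop hbf _
        (tor_div hM0 _) (hNQ k f N m b hf0 hH.odd hN1' hH.ne hb0 hH.two hb2 P hP.1 _ hc)).2 hP
    · rw [if_neg hp, if_neg (fun h => hp ((hpm b x y).1 h))]
      exact ⟨0, DI.VP.zero, by ring⟩
  -- the class function
  have hcl : ∀ b b' : Ideal (OO k), CN f N b → CN f N b' → Ray (f * 2 ^ N) b b' → F b = F b' := by
    intro b b' hb hb' hr
    have h1 : χ b = χ b' := hχ.ray b b' hb.1 hb'.1 (h2f b hb.2.1).2 (h2f b' hb'.2.1).2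
      ((hO7 k (f * 2 ^ N) hM0).2.2.2.2.2.2.1 f b b' (dvd_mul_right f _) hr)
    have h2 := hRayF k (f * 2 ^ N) Om (gt m) hM0
      (fun b α z hb hα => (hGt k m b hH.ne hb hH.two).1 α z hα)
      (fun b z l hb hl => (hGt k m b hH.ne hb hH.two).2.1 z l hl) b b' hb.1 hb'.1 hr 1
    rw [toC_one] at h2
    rw [hF]
    change χ b * gt m b _ = χ b' * gt m b' _
    rw [h1, h2]
  rw [hRS k f N R T D hH.odd hH.three hN1' hR hRb hT hD F hcl] at hstep1
  -- the second system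
  have hstep2 : ∑ c ∈ D, ∑ h ∈ T, F (sp h * c) =
      ∑ c ∈ D, χ c * ∑ h ∈ T, gt m c (toC h / (f * 2 ^ N : ℕ)) := by
    refine Finset.sum_congr rfl fun c hc => ?_
    rw [Finset.mul_sum]
    refine Finset.sum_congr rfl fun h hh => ?_
    have h1 := hT.mem h hh
    refine hFs c h (hD.mem c hc).1 ?_ h1.1.1
    intro h0
    have h2 : Cop h 2 := cop_dvd h1.2 (dvd_mul_right 2 f)
    rw [h0, cop3, Nm_zero] at h2
    exact h2 (dvd_zero _)
  have hstep3 : TP P 2 (∑ c ∈ D, (-χ c) * (Dw s (uN f N m T c) -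
      ∑ h ∈ T, gt m c (toC h / (f * 2 ^ N : ℕ)))) := by
    refine G7_sum _ _ fun c hc => G7_mul (hχV c).neg ?_
    exact (hDU k f m N T P hH (by omega) hT hP s hs hpsi c (hD.mem c hc).1
      (hD.mem c hc).2.1).2.2
  have hfin : SSN f m N R χ (NI m) = (SSN f m N R χ (NI m) - ∑ c ∈ D, ∑ h ∈ T, F (sp h * c)) +
      ((∑ c ∈ D, (-χ c) * (Dw s (uN f N m T c) -
      ∑ h ∈ T, gt m c (toC h / (f * 2 ^ N : ℕ)))) +
      ∑ c ∈ D, χ c * Dw s (uN f N m T c)) := by
    rw [hstep2, ← Finset.sum_add_distrib]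
    have e1 : ∑ c ∈ D, ((-χ c) * (Dw s (uN f N m T c) -
      ∑ h ∈ T, gt m c (toC h / (f * 2 ^ N : ℕ))) + χ c * Dw s (uN f N m T c)) =
      ∑ c ∈ D, χ c * ∑ h ∈ T, gt m c (toC h / (f * 2 ^ N : ℕ)) :=
      Finset.sum_congr rfl fun c _ => by ring
    rw [e1]
    ring
  rw [hfin]
  exact G7_add hstep1 (G7_add hstep3 hcon)

end Pool.Agent.DK.G
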