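import Pool.Agent.Lib.DK.G.SpecL
import Pool.Agent.Lib.DK.GL.All

/-!
# Theorem DK, part G, module GFin: the output of part G from the local lemma
-/

set_option autoImplicit false

open scoped Pointwise

noncomputable section

namespace Pool.Agent.DK.G

open Pool.Agent.MuZ Pool.Agent.FW Pool.Agent.DK
open Pool.Agent.DI (io ofC io_inj exists_io io_ofC ofC_io VP MP UP TP ex sqr sqr_sq kap)

/-- The output of part G. -/
theorem tGFin : S_GFin := by
  intro hG3 hSN hChi hG7 hSit k _ f m χ P hfo hf3 hm hmt hm2 hmf hχ hP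
  obtain ⟨N0, hN0, hG⟩ := hG7 k f m χ P ⟨hfo, hf3, hm, hm2, hmf⟩ hmt hχ hP
  refine ⟨N0, hN0, ?_⟩
  intro N hN T hT D hD
  have hN3 : 3 ≤ N := le_trans hN0 hN
  obtain ⟨_, _, _, s, hsG, hPsi, hsM, hsz⟩ := hSN k f N hfo hf3 (by omega)
  by_contra hcon
  push Not at hcon
  obtain ⟨_, _, _, _, _, n, hn, hχn⟩ := hChi k f χ hfo hf3 hχ
  have hu : ∀ v ∈ D, uN f N m T v ∈ Mn k f N ∧ UP P (uN f N m T v) := by
    intro v hv
    obtain ⟨h1, _, h3, _⟩ := hG3 k f m N T hfo hf3 hm hm2 hmf (by omega) hT v (hD.mem v hv).1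
      (hD.mem v hv).2.1
    exact ⟨h1, h3 P hP.1⟩
  have hk : ∀ d : Gal(Om/ℚ), GL.DD (fun N => Mn k f N) P d →
      MP P (∑ v ∈ D, χ v * ((kap (uN f N m T v) d).val : Om)) := by
    rintro d ⟨h1, h2, h3⟩
    exact hcon d h1 h2 h3
  obtain ⟨y, hy, hxy⟩ := GL.g9 (Mf k f) (fun N => Mn k f N) P (hSit k f P hfo hf3 hP) N hN3 s hsM hsz
    (Ideal (OO k)) D (uN f N m T) hu χ n hn hχn hk
  apply hG N hN T hT D hD s hsG hPsi
  refine ⟨y, hy, ?_⟩
  have e : ∑ c ∈ D, χ c * Dw s (uN f N m T c) =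
      (∑ v ∈ D, χ v * (s (uN f N m T v) / uN f N m T v - 1)) / 2 := by
    rw [Finset.sum_div]
    refine Finset.sum_congr rfl fun c _ => ?_
    unfold Dw
    ring
  rw [e, hxy]
  ring

end Pool.Agent.DK.G
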