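import Pool.Agent.Lib.DK.G.Spec

/-!
# Theorem DK, part G, module Gt: the function `gt`
-/

set_option autoImplicit false

open scoped Pointwise

noncomputable section

namespace Pool.Agent.DK.G

open Pool.Agent.MuZ Pool.Agent.FW Pool.Agent.DK
open Pool.Agent.DI (io ofC io_inj exists_io io_ofC ofC_io VP MP UP TP ex sqr sqr_sq kap)

variable {k : ℕ}

private theorem Gt_ne [SqK k] {α : OO k} {b : Ideal (OO k)} (hα : α ≠ 0) (hb : b ≠ ⊥) :
    sp α * b ≠ ⊥ := by
  have h1 : sp α ≠ ⊥ := by
    intro h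
    exact hα (Ideal.span_singleton_eq_bot.1 h)
  intro h
  rcases Ideal.mul_eq_bot.1 h with h2 | h2
  · exact h1 h2
  · exact hb h2

private theorem Gt_lam [SqK k] {α : OO k} {m b : Ideal (OO k)} {z : ℂ} :
    z ∈ Lam (m * (sp α * b)) ↔ toC α * z ∈ Lam (m * b) := by
  rw [mul_left_comm, lam_sp]

private theorem Gt_half [SqK k] {α : OO k} {m b : Ideal (OO k)} (hα : α ≠ 0) {S : Finset ℂ}
    (hS : IsHalf m (sp α * b) S) : IsHalf m b (S.image (fun u => toC α * u)) := by
  have ha : toC α ≠ 0 := toC_ne hα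
  refine ⟨?_, ?_, ?_⟩
  · intro u hu
    obtain ⟨v, hv, rfl⟩ := Finset.mem_image.1 hu
    obtain ⟨h1, h2⟩ := hS.mem v hv
    exact ⟨Gt_lam.1 h1, fun h => h2 (lam_sp.2 h)⟩
  · intro z hz hz'
    have e : toC α * (z / toC α) = z := by field_simp
    obtain ⟨u, hu, h⟩ := hS.ex (z / toC α) (Gt_lam.2 (by rw [e]; exact hz))
      (fun h => hz' (by rw [← e]; exact lam_sp.1 h))
    refine ⟨toC α * u, Finset.mem_image_of_mem _ hu, ?_⟩
    rcases h with h | h
    · left
      have := lam_sp.1 h
      rwa [mul_sub, e] at this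
    · right
      have := lam_sp.1 h
      rwa [mul_add, e] at this
  · intro u hu u' hu' h
    obtain ⟨v, hv, rfl⟩ := Finset.mem_image.1 hu
    obtain ⟨v', hv', rfl⟩ := Finset.mem_image.1 hu'
    have : v = v' := by
      apply hS.uni v hv v' hv'
      rcases h with h | h
      · left
        rw [lam_sp, mul_sub]
        exact h
      · right
        rw [lam_sp, mul_add]
        exact h
    rw [this]

theorem tGt : S_Gt := by
  intro hB1 hB7 hB14 hHlf k _ m b hm hb hm2
  have hX : ∀ z l : ℂ, l ∈ Lam b → xO b (z + l) = xO b z := by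
    intro z l hl
    unfold xO
    rw [((hB1 k b hb).1 z l hl).2.2]
  have hXn : ∀ z : ℂ, xO b (-z) = xO b z := by
    intro z
    unfold xO
    rw [((hB1 k b hb).2.1 z).2.2]
  refine ⟨?_, ?_, ?_⟩
  · intro α z hα
    have hXs : ∀ w : ℂ, xO (sp α * b) w = xO b (toC α * w) := by
      intro w
      unfold xO
      rw [(((hB7 k b hb).1 α hα).1 w).1]
    have hS := (hB14 k m (sp α * b) hm (Gt_ne hα hb) hm2).1
    have hS0 := (hB14 k m b hm hb hm2).1
    have hS' := Gt_half hα hS
    have h1 := hHlf k m b _ _ Om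
      (fun u => xO b (toC α * z) * (xO b (toC α * z) - xO b u)⁻¹) hS' hS0
      (by
        intro u l hl
        change _ * (_ - xO b (u + l))⁻¹ = _ * (_ - xO b u)⁻¹
        rw [hX u l hl])
      (by
        intro u
        change _ * (_ - xO b (-u))⁻¹ = _ * (_ - xO b u)⁻¹
        rw [hXn u])
    have hinj : Set.InjOn (fun u : ℂ => toC α * u) (hs m (sp α * b) : Set ℂ) := by
      intro u _ v _ h
      exact mul_left_cancel₀ (toC_ne hα) h
    rw [Finset.sum_image hinj] at h1
    unfold gt
    rw [← h1]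
    refine Finset.sum_congr rfl ?_
    intro u _
    rw [hXs, hXs]
  · intro z l hl
    unfold gt
    rw [hX z l hl]
  · intro z
    unfold gt
    rw [hXn z]

end Pool.Agent.DK.G
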