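import Pool.Agent.Lib.DK.G.Spec

/-!
# Theorem DK, part G, module HPg (helper80): the groups `HP`, `HPN`
-/

set_option autoImplicit false

open scoped Pointwise

noncomputable section

namespace Pool.Agent.DK.G

open Pool.Agent.MuZ Pool.Agent.FW Pool.Agent.DK

theorem tHPg : S_HPg := by
  intro hO2 hO6 hO7 hO9 hCop hHNf hRUp k _ f hf hf3
  obtain ⟨-, -, -, o2nm, o2mul, o2bot, -, -⟩ := hO2 k
  obtain ⟨o6mul, o6N, o6co, o6sp, -⟩ := hO6 k
  have hf0 : 0 < f := by omega
  obtain ⟨rfl7, sym7, tra7, mul7, -, inv7, -, sp7, -, -⟩ := hO7 k f hf0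
  obtain ⟨-, copN, -, -, -, -, -, codd, cop9, cop10⟩ := hCop k
  have e1 : sp (1 : OO k) = ⊤ := Ideal.span_singleton_one
  have spm : ∀ v u : OO k, sp v * sp u = sp (v * u) := fun v u =>
    Ideal.span_singleton_mul_span_singleton v u
  have sp0 : ∀ v : OO k, v ≠ 0 → sp v ≠ ⊥ := fun v hv h => hv (Ideal.span_singleton_eq_bot.1 h)
  obtain ⟨⟨hf1, -, -, -⟩, hfmul, -, hfcon, -, -, -, hfc, -, -⟩ := hHNf k f 0
  refine ⟨⟨⟨1, one_ne_zero, hf1, ?_⟩, ?_, ?_, ?_⟩, ?_⟩
  · change Ray f ⊤ (sp 1)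
    rw [e1]
    exact rfl7 _
  · rintro a ⟨v, hv0, hv, hr⟩
    obtain ⟨i1, i2⟩ := inv7 _ _ hr
    exact ⟨i1.2 (sp0 v hv0), i2.2 ((o6sp f v hf0).2 (hfc v hv))⟩
  · rintro a a' ⟨v, hv0, hv, hr⟩ haa
    exact ⟨v, hv0, hv, tra7 _ _ _ (sym7 _ _ haa) hr⟩
  · rintro a a' ⟨v, hv0, hv, hr⟩ ⟨v', hv0', hv', hr'⟩
    refine ⟨v * v', mul_ne_zero hv0 hv0', hfmul _ _ hv hv', ?_⟩
    have h := mul7 _ _ _ _ hr hr'
    change Ray f (a * a') (sp v * sp v') at h
    rw [spm] at h
    exact h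
  · intro N
    have hM0 : 0 < f * 2 ^ N := by positivity
    obtain ⟨⟨-, -, hN1, -⟩, -, hNmul, -, -, -, -, -, hNc, -⟩ := hHNf k f N
    obtain ⟨rflM, symM, traM, mulM, -, invM, lowM, -, -, -⟩ := hO7 k (f * 2 ^ N) hM0
    refine ⟨⟨1, one_ne_zero, hN1, cop_one _, ?_⟩, ?_, ?_, ?_, ?_⟩
    · change Ray (f * 2 ^ N) ⊤ (sp 1)
      rw [e1]
      exact rflM _
    · rintro a ⟨v, hv0, hv, -, hr⟩
      obtain ⟨i1, i2⟩ := invM _ _ hr
      exact ⟨i1.2 (sp0 v hv0), i2.2 ((o6sp _ v hM0).2 (hNc v hv))⟩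
    · rintro a a' ⟨v, hv0, hv, hc, hr⟩ haa
      exact ⟨v, hv0, hv, hc, traM _ _ _ (symM _ _ haa) hr⟩
    · rintro a a' ⟨v, hv0, hv, hc, hr⟩ ⟨v', hv0', hv', hc', hr'⟩
      refine ⟨v * v', mul_ne_zero hv0 hv0', hNmul _ _ hv hv', cop_mul hc hc', ?_⟩
      have h := mulM _ _ _ _ hr hr'
      change Ray (f * 2 ^ N) (a * a') (sp v * sp v') at h
      rw [spm] at h
      exact h
    · intro a ha0 haM
      -- norms
      have hnm : ∀ v : OO k, Cop v (f * 2 ^ N) → Ray (f * 2 ^ N) a (sp v) →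
          (2 : ℤ) ^ N ∣ (NI a : ℤ) - Nm v := by
        intro v hv hr
        have h := hO9 k (f * 2 ^ N) hM0 a (sp v) haM ((o6sp _ v hM0).2 hv) hr
        rw [o2nm] at h
        refine dvd_trans ⟨(f : ℤ), ?_⟩ h
        push_cast
        ring
      constructor
      · rintro ⟨v, hv0, hv, hc, hr⟩
        refine ⟨⟨v, hv0, hv.1, lowM f _ _ (Dvd.intro _ rfl) hr⟩, ?_⟩
        have h := hnm v (hNc v hv) hr
        rcases hv.2 with h' | h'
        · left
          have := dvd_add h h'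
          rwa [sub_add_sub_cancel] at this
        · right
          have := dvd_add h h'
          rwa [show (NI a : ℤ) - Nm v + (Nm v + 1) = NI a + 1 by ring] at this
      · rintro ⟨⟨v, hv0, hv, hr⟩, hn⟩
        obtain ⟨v', hv0', hvv', hc'⟩ := codd v f hf (hfc v hv)
        have hv' : Hf f v' := hfcon v v' hvv' hv
        have hr' : Ray f a (sp v') := by
          refine tra7 _ _ _ hr ?_
          refine (sp7 v v' hv0 hv0' (hfc v hv) (hfc v' hv')).2 (Or.inl ?_)
          rw [← neg_sub]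
          exact (dvd_neg).2 hvv'
        rcases Nat.eq_zero_or_pos N with hN | hN
        · subst hN
          refine ⟨v', hv0', ⟨hv', Or.inl ?_⟩, hc', ?_⟩
          · rw [pow_zero]
            exact one_dvd _
          · rw [pow_zero, mul_one]
            exact hr'
        · obtain ⟨β, hβ0, hβ1, hβc, hβr⟩ := hRUp k f (2 ^ N) (sp v') a hf0 (by positivity)
            (sp0 v' hv0') ha0 ((o6sp _ v' hM0).2 (cop10 f N v' hc')) haM hr'
          rw [spm] at hβr
          have hcM : Cop (β * v') (f * 2 ^ N) := cop_mul hβc (cop10 f N v' hc')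
          have hHf : Hf f (β * v') := by
            refine hfcon v' _ ?_ hv'
            have e : β * v' - v' = (β - 1) * v' := by ring
            rw [e]
            exact hβ1.mul_right _
          refine ⟨β * v', mul_ne_zero hβ0 hv0', ⟨hHf, ?_⟩, cop9 f N _ hf hN hcM, hβr⟩
          have h := hnm _ hcM hβr
          rcases hn with h' | h'
          · left
            have := dvd_sub h' h
            rwa [show (NI a : ℤ) - 1 - (NI a - Nm (β * v')) = Nm (β * v') - 1 by ring] at this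
          · right
            have := dvd_sub h' h
            rwa [show (NI a : ℤ) + 1 - (NI a - Nm (β * v')) = Nm (β * v') + 1 by ring] at this

end Pool.Agent.DK.G
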