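import Pool.Agent.Lib.DK.G.Spec

/-!
# Theorem DK, part G: sums over half systems

Author helper72.
-/

set_option autoImplicit false

open scoped Pointwise

noncomputable section

namespace Pool.Agent.DK.G

open Pool.Agent.MuZ Pool.Agent.FW Pool.Agent.DK

variable {k : ℕ}

/-- `u` and `u'` are `±` each other modulo `Lam b`. -/
private def Hlf_R (b : Ideal (OO k)) (u u' : ℂ) : Prop := u - u' ∈ Lam b ∨ u + u' ∈ Lam b

private theorem Hlf_symm {b : Ideal (OO k)} {u u' : ℂ} (h : Hlf_R b u u') : Hlf_R b u' u := by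
  rcases h with h | h
  · left
    have := lam_neg h
    rwa [neg_sub] at this
  · right
    rwa [add_comm]

private theorem Hlf_trans {b : Ideal (OO k)} {u u' u'' : ℂ} (h : Hlf_R b u u')
    (h' : Hlf_R b u' u'') : Hlf_R b u u'' := by
  rcases h with h | h <;> rcases h' with h' | h'
  · left
    have := lam_add h h'
    rwa [sub_add_sub_cancel] at this
  · right
    have := lam_add h h'
    have e : u - u' + (u' + u'') = u + u'' := by ring
    rwa [e] at this
  · right
    have := lam_sub h h'
    have e : u + u' - (u' - u'') = u + u'' := by ring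
    rwa [e] at this
  · left
    have := lam_sub h h'
    have e : u + u' - (u' + u'') = u - u'' := by ring
    rwa [e] at this

theorem tHlf : S_Hlf := by
  intro k _ m b S S' A _ F hS hS' hF hN
  have h1 : ∀ u ∈ S, ∃ u' ∈ S', Hlf_R b u u' := fun u hu =>
    hS'.ex u (hS.mem u hu).1 (hS.mem u hu).2
  have h2 : ∀ u ∈ S', ∃ u' ∈ S, Hlf_R b u u' := fun u hu =>
    hS.ex u (hS'.mem u hu).1 (hS'.mem u hu).2
  have hR : ∀ u u' : ℂ, Hlf_R b u u' → F u = F u' := by
    intro u u' h
    rcases h with h | h
    · have := hF u' _ h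
      rwa [add_sub_cancel] at this
    · have := hF (-u') _ h
      have e : -u' + (u + u') = u := by ring
      rw [e, hN] at this
      exact this
  choose! e he1 he2 using h1
  choose! g hg1 hg2 using h2
  refine Finset.sum_bij' (fun u _ => e u) (fun u _ => g u) (fun u hu => he1 u hu)
    (fun u hu => hg1 u hu) ?_ ?_ (fun u hu => hR _ _ (he2 u hu))
  · intro u hu
    exact (hS.uni u hu _ (hg1 _ (he1 u hu)) (Hlf_trans (he2 u hu) (hg2 _ (he1 u hu)))).symm
  · intro u hu
    exact (hS'.uni u hu _ (he1 _ (hg1 u hu)) (Hlf_trans (hg2 u hu) (he2 _ (hg1 u hu)))).symm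

end Pool.Agent.DK.G
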