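import Pool.Agent.Lib.DK.G.SpecB

/-!
# Theorem DK, part G, module KA: `S_K1`, `S_K4` from `S_C6`
-/

set_option autoImplicit false

namespace Pool.Agent.DK.G

theorem tKA : S_KA := by
  intro h
  refine ⟨?_, ?_⟩
  · intro k _ f m b b' ho h3 hm h2 hf hb hbf hb' hbf' hR r
    exact ((h k f m b ⟨ho, h3, hm, h2, hf⟩ ⟨hb, hbf⟩).1 b' ⟨hb', hbf'⟩ hR).2 r
  · intro k _ f m b ho h3 hm h2 hf hb hbf r
    exact (h k f m b ⟨ho, h3, hm, h2, hf⟩ ⟨hb, hbf⟩).2.1 r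

end Pool.Agent.DK.G
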