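import Pool.Agent.Lib.DK.G.SpecB

/-!
# Theorem DK, part G, module KB: values of `etaM` at `c / n`
-/

set_option autoImplicit false

open scoped Pointwise

noncomputable section

namespace Pool.Agent.DK.G

open Pool.Agent.MuZ Pool.Agent.FW Pool.Agent.DK
open Pool.Agent.DI (io ofC io_inj exists_io io_ofC ofC_io VP MP UP TP ex sqr sqr_sq kap)

variable {k : ℕ}

/-- The point `(x + y w)/n`. -/
private def KB_pt (k n : ℕ) (p : ℕ × ℕ) : ℂ := toC (⟨p.1, p.2⟩ : OO k) / n

private theorem KB_topLam [SqK k] (b : Ideal (OO k)) (v : OO k) : toC v ∈ Lam b := by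
  have h1 : toC v ∈ Lam (⊤ : Ideal (OO k)) := lam_top.2 ⟨_, rfl⟩
  exact lam_anti le_top h1

private theorem KB_uni [SqK k] {b : Ideal (OO k)} {n : ℕ} (hn : 0 < n) {v : OO k} (hv : v ∈ b)
    (hv1 : (n : OO k) ∣ v - 1) {p p' : ℕ × ℕ} (hp : p ∈ Finset.range n ×ˢ Finset.range n)
    (hp' : p' ∈ Finset.range n ×ˢ Finset.range n) (h : KB_pt k n p - KB_pt k n p' ∈ Lam b) : p = p' := by
  have hn' : (n : ℂ) ≠ 0 := by exact_mod_cast hn.ne'
  obtain ⟨g, hg⟩ := h v hv
  have h1 : toC (v * (⟨(p.1 : ℤ) - p'.1, (p.2 : ℤ) - p'.2⟩ : OO k)) = toC ((n : OO k) * g) := by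
    have e : (⟨(p.1 : ℤ) - p'.1, (p.2 : ℤ) - p'.2⟩ : OO k) =
        (⟨p.1, p.2⟩ : OO k) - (⟨p'.1, p'.2⟩ : OO k) := rfl
    rw [e, toC_mul, toC_sub, toC_mul, toC_nat, ← hg]
    unfold KB_pt
    field_simp
  have h2 := toC_inj h1
  have h3 : (n : OO k) ∣ (⟨(p.1 : ℤ) - p'.1, (p.2 : ℤ) - p'.2⟩ : OO k) := by
    have e : (⟨(p.1 : ℤ) - p'.1, (p.2 : ℤ) - p'.2⟩ : OO k) =
        v * (⟨(p.1 : ℤ) - p'.1, (p.2 : ℤ) - p'.2⟩ : OO k) -
          (v - 1) * (⟨(p.1 : ℤ) - p'.1, (p.2 : ℤ) - p'.2⟩ : OO k) := by ring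
    rw [e]
    exact dvd_sub (by rw [h2]; exact dvd_mul_right _ _) (hv1.mul_right _)
  obtain ⟨h4, h5⟩ := (nat_dvd_iff n _).1 h3
  simp only [Finset.mem_product, Finset.mem_range] at hp hp'
  have h6 : ((p.1 : ℤ) - p'.1) = 0 :=
    Int.eq_zero_of_abs_lt_dvd h4 (by rw [abs_lt]; constructor <;> omega)
  have h7 : ((p.2 : ℤ) - p'.2) = 0 :=
    Int.eq_zero_of_abs_lt_dvd h5 (by rw [abs_lt]; constructor <;> omega)
  exact Prod.ext (by omega) (by omega)

theorem tKB : S_KB := by
  classical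
  intro hO6 hC4 k _ f m b hf hf3 hm hm2 hmf hb c n hn hnm hbfn
  obtain ⟨-, hmul, -, -, hex⟩ := hO6 k
  obtain ⟨hbf, hbn⟩ := (hmul f n b).1 hbfn
  obtain ⟨v, hv, -, hv1⟩ := hex n b hn hb hbn
  have hn' : (n : ℂ) ≠ 0 := by exact_mod_cast hn.ne'
  have hf0 : (f : ℂ) ≠ 0 := by
    have : f ≠ 0 := by omega
    exact_mod_cast this
  obtain ⟨-, hio, hU⟩ := hC4 k f m b ⟨hf, hf3, hm, hm2, hmf⟩ ⟨hb, hbf⟩ c n hn hnm
  refine ⟨hio, ?_⟩
  have hsys : IsSys (sp (n : OO k)) b ((Finset.range n ×ˢ Finset.range n).image (KB_pt k n)) := by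
    constructor
    · intro u hu
      obtain ⟨p, -, rfl⟩ := Finset.mem_image.1 hu
      rw [lam_sp, toC_nat]
      have e : (n : ℂ) * KB_pt k n p = toC (⟨p.1, p.2⟩ : OO k) := by
        unfold KB_pt
        field_simp
      rw [e]
      exact KB_topLam b _
    · intro z hz
      rw [lam_sp, toC_nat] at hz
      obtain ⟨e, he⟩ := hz v hv
      obtain ⟨t, ht⟩ := hv1
      have hnz : (n : ℤ) ≠ 0 := by exact_mod_cast hn.ne'
      have hr1 := Int.emod_nonneg e.re hnz
      have hr2 := Int.emod_lt_of_pos e.re (by exact_mod_cast hn : (0 : ℤ) < n)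
      have hi1 := Int.emod_nonneg e.im hnz
      have hi2 := Int.emod_lt_of_pos e.im (by exact_mod_cast hn : (0 : ℤ) < n)
      refine ⟨KB_pt k n ((e.re % n).toNat, (e.im % n).toNat), Finset.mem_image.2 ⟨_, ?_, rfl⟩, ?_⟩
      · simp only [Finset.mem_product, Finset.mem_range]
        constructor <;> omega
      · have h1 : (((e.re % n).toNat : ℕ) : ℤ) = e.re % n := Int.toNat_of_nonneg hr1
        have h2 : (((e.im % n).toNat : ℕ) : ℤ) = e.im % n := Int.toNat_of_nonneg hi1
        have h3 : e = (⟨e.re % n, e.im % n⟩ : OO k) + (n : OO k) * (⟨e.re / n, e.im / n⟩ : OO k) := by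
          apply ext'
          · rw [QuadraticAlgebra.re_add, re_mul, re_nat, im_nat]
            have := Int.emod_add_mul_ediv e.re n
            simp only
            linarith
          · rw [QuadraticAlgebra.im_add, im_mul, re_nat, im_nat]
            have := Int.emod_add_mul_ediv e.im n
            simp only
            linarith
        have h4 : z - KB_pt k n ((e.re % n).toNat, (e.im % n).toNat) =
            toC (⟨e.re / n, e.im / n⟩ : OO k) - toC t * (n * z) := by
          unfold KB_pt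
          simp only [h1, h2]
          have h5 : toC v = 1 + n * toC t := by
            have : v = 1 + n * t := by rw [← ht]; ring
            rw [this, toC_add, toC_mul, toC_one, toC_nat]
          have h6 : toC e = toC (⟨e.re % n, e.im % n⟩ : OO k) + n * toC (⟨e.re / n, e.im / n⟩ : OO k) := by
            conv_lhs => rw [h3]
            rw [toC_add, toC_mul, toC_nat]
          have h7 : toC (⟨e.re % n, e.im % n⟩ : OO k) =
              (1 + n * toC t) * (n * z) - n * toC (⟨e.re / n, e.im / n⟩ : OO k) := by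
            rw [← h5, he, h6]
            ring
          rw [h7]
          field_simp
          ring
        rw [h4]
        exact lam_sub (KB_topLam b _) (lam_mul t hz)
    · intro u hu u' hu' h
      obtain ⟨p, hp, rfl⟩ := Finset.mem_image.1 hu
      obtain ⟨p', hp', rfl⟩ := Finset.mem_image.1 hu'
      rw [KB_uni hn hv hv1 hp hp' h]
  have hsum := (hU _ hsys).2
  have hinj : Set.InjOn (KB_pt k n) ((Finset.range n ×ˢ Finset.range n : Finset (ℕ × ℕ)) : Set (ℕ × ℕ)) := by
    intro p hp p' hp' h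
    refine KB_uni (b := b) hn hv hv1 hp hp' ?_
    rw [h, sub_self]
    exact lam_zero b
  rw [hsum, Finset.sum_image hinj, Finset.sum_product, one_div (n : Om)]
  · congr 1
    apply Finset.sum_congr rfl
    intro x _
    apply Finset.sum_congr rfl
    intro y _
    have e1 : (1 : ℂ) + f * n * KB_pt k n (x, y) = toC (⟨1 + f * x, f * y⟩ : OO k) := by
      have e : (⟨1 + f * x, f * y⟩ : OO k) = 1 + (f : OO k) * ⟨x, y⟩ := by
        apply ext'
        · rw [QuadraticAlgebra.re_add, re_mul, re_nat, im_nat, re_one]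
          simp
        · rw [QuadraticAlgebra.im_add, im_mul, re_nat, im_nat, im_one]
          simp
      rw [e, toC_add, toC_mul, toC_one, toC_nat]
      unfold KB_pt
      field_simp
    have e2 : (1 : ℂ) / (f * n) + KB_pt k n (x, y) = toC (⟨1 + f * x, f * y⟩ : OO k) / (f * n : ℕ) := by
      rw [← e1]
      push_cast
      field_simp
    have e3 : qN m b (toC (⟨1 + f * x, f * y⟩ : OO k)) =
        NI m * NI b * Nm (⟨1 + f * x, f * y⟩ : OO k) := by
      unfold qN
      rw [← Nm_norm]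
      have : ((NI m : ℝ) * NI b * ((Nm (⟨1 + f * x, f * y⟩ : OO k) : ℤ) : ℝ)) =
          (((NI m * NI b * Nm (⟨1 + f * x, f * y⟩ : OO k) : ℤ)) : ℝ) := by
        push_cast
        ring
      rw [this, Int.floor_intCast]
    rw [e1, e2, e3]

end Pool.Agent.DK.G
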