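import Pool.Agent.Lib.DK.G.SpecB

/-!
# Theorem DK, part G, module KC: integrality of `etaM`
-/

set_option autoImplicit false

open scoped Pointwise

noncomputable section

namespace Pool.Agent.DK.G

open Pool.Agent.MuZ Pool.Agent.FW Pool.Agent.DK
open Pool.Agent.DI (io ofC io_inj exists_io io_ofC ofC_io VP MP UP TP ex sqr sqr_sq kap)

theorem tKC : S_KC := by
  intro hO6 hO8 hC6 hC9 k _ f m b hf hf3 hm hm2 hmf hb hbf P hP hP2 r hr
  obtain ⟨-, hmul, hnc, -, -⟩ := hO6 k
  have hf0 : 0 < f := by omega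
  have hn0 : 0 < r.den := r.den_pos
  obtain ⟨b', hb', hb'c, -, hR⟩ := hO8 k f (2 * r.den) hf0 (by omega) (fun _ => True) trivial
    (fun _ _ _ _ => trivial) (fun _ _ _ _ => trivial) b hb hbf
  obtain ⟨hb'f, h1⟩ := (hmul f (2 * r.den) b').1 hb'c
  obtain ⟨hb'2, hb'n⟩ := (hmul 2 r.den b').1 h1
  have hFM : FM f m := ⟨hf, hf3, hm, hm2, hmf⟩
  have hFB : FB f b := ⟨hb, hbf⟩
  have hFB' : FB f b' := ⟨hb', hb'f⟩
  have hlev : lev f m {b'} = Dk k * f ^ 2 * (NI m * NI b') ^ 3 := by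
    unfold lev
    rw [Finset.prod_singleton]
  have hk : 0 < k := SqK.pos
  have hD : Odd (Dk k) := by
    unfold Dk
    rw [Nat.odd_iff]
    omega
  have hNm : Odd (NI m) := by
    have h := (hnc 2 m (by norm_num)).1 hm2
    rwa [Nat.coprime_two_right] at h
  have hNb : Odd (NI b') := by
    have h := (hnc 2 b' (by norm_num)).1 hb'2
    rwa [Nat.coprime_two_right] at h
  have hodd : Odd (lev f m {b'}) := by
    rw [hlev]
    exact (hD.mul hf.pow).mul (hNm.mul hNb).pow
  have h3 : 3 ≤ lev f m {b'} := by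
    have hd : f ∣ lev f m {b'} := by
      rw [hlev]
      exact Dvd.dvd.mul_right (Dvd.dvd.mul_left (dvd_pow_self f (by norm_num)) _) _
    exact le_trans hf3 (Nat.le_of_dvd hodd.pos hd)
  have hlv : IsLv f m {b'} (lev f m {b'}) := ⟨hodd, h3, dvd_rfl⟩
  have hcop : r.den.Coprime (lev f m {b'}) := by
    rw [hlev]
    unfold MM at hr
    have h5 : r.den.Coprime (Dk k * f ^ 2) := Nat.Coprime.coprime_mul_right_right hr
    have h6 : r.den.Coprime (NI m) := Nat.Coprime.coprime_mul_left_right hr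
    have h7 : r.den.Coprime (NI b') := ((hnc r.den b' hn0).1 hb'n).symm
    exact Nat.Coprime.mul_right h5 ((h6.mul_right h7).pow_right 3)
  have h8 := hC9 k f (lev f m {b'}) m b' hFM hFB' hb'2 hlv r hcop P hP hP2
  rw [((hC6 k f m b hFM hFB).1 b' hFB' hR).2 r]
  exact h8

end Pool.Agent.DK.G
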