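import Pool.Agent.Lib.DK.G.SpecB

/-!
# Theorem DK, part G, module KD: the Hecke relation modulo `2` for all systems `R`
-/

set_option autoImplicit false

open scoped Pointwise

noncomputable section

namespace Pool.Agent.DK.G

open Pool.Agent.MuZ Pool.Agent.FW Pool.Agent.DK
open Pool.Agent.DI (io ofC io_inj exists_io io_ofC ofC_io VP MP UP TP ex sqr sqr_sq kap)

theorem tKD : S_KD := by
  classical
  intro hO6 hO7 hO8 hC6 hV hR2 k _ f m hfo hf3 hm hm2 hmf R χ hR hχ P hP r hr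
  have hf0 : 0 < f := by omega
  have hFM : FM f m := ⟨hfo, hf3, hm, hm2, hmf⟩
  obtain ⟨-, o2, o3, -, -⟩ := hO6 k
  obtain ⟨-, symm, trans, -, -, -, -, -, -, -⟩ := hO7 k f hf0
  have hn : 0 < r.den := r.den_pos
  -- the new representatives
  have hex : ∀ b : Ideal (OO k), ∃ b' : Ideal (OO k), b ≠ ⊥ → PrI b f →
      b' ≠ ⊥ ∧ PrI b' (f * (2 * r.den)) ∧ Ray f b b' := by
    intro b
    by_cases hb : b ≠ ⊥ ∧ PrI b f
    · obtain ⟨b', h1, h2, -, h3⟩ := hO8 k f (2 * r.den) hf0 (by omega) (fun _ => True) trivial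
        (fun _ _ _ _ => trivial) (fun _ _ _ _ => trivial) b hb.1 hb.2
      exact ⟨b', fun _ _ => ⟨h1, h2, h3⟩⟩
    · exact ⟨b, fun h1 h2 => absurd ⟨h1, h2⟩ hb⟩
  choose g hg using hex
  have hgR : ∀ b ∈ R, g b ≠ ⊥ ∧ PrI (g b) f ∧ PrI (g b) 2 ∧ PrI (g b) r.den ∧ Ray f b (g b) := by
    intro b hb
    obtain ⟨h1, h2, h3⟩ := hg b (hR.mem b hb).1 (hR.mem b hb).2
    obtain ⟨h4, h5⟩ := (o2 f (2 * r.den) (g b)).1 h2
    obtain ⟨h6, h7⟩ := (o2 2 r.den (g b)).1 h5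
    exact ⟨h1, h4, h6, h7, h3⟩
  have hR' : IsRC f (R.image g) := by
    refine ⟨?_, ?_, ?_⟩
    · intro b' hb'
      obtain ⟨b, hb, rfl⟩ := Finset.mem_image.1 hb'
      exact ⟨(hgR b hb).1, (hgR b hb).2.1⟩
    · intro b hb hbf
      obtain ⟨b0, h0, h1⟩ := hR.ex b hb hbf
      exact ⟨g b0, Finset.mem_image_of_mem g h0, trans _ _ _ h1 (hgR b0 h0).2.2.2.2⟩
    · intro b1 hb1 b2 hb2 h
      obtain ⟨c1, hc1, rfl⟩ := Finset.mem_image.1 hb1
      obtain ⟨c2, hc2, rfl⟩ := Finset.mem_image.1 hb2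
      have h1 : Ray f c1 c2 := trans _ _ _ (trans _ _ _ (hgR c1 hc1).2.2.2.2 h)
        (symm _ _ (hgR c2 hc2).2.2.2.2)
      rw [hR.uni c1 hc1 c2 hc2 h1]
  have hFR : FR f (R.image g) := by
    intro b' hb'
    obtain ⟨b, hb, rfl⟩ := Finset.mem_image.1 hb'
    exact ⟨(hgR b hb).1, (hgR b hb).2.1, (hgR b hb).2.2.1⟩
  -- the level
  have hMM : MM k f m = Dk k * f ^ 2 * NI m := rfl
  rw [hMM] at hr
  have hc1 : r.den.Coprime (Dk k * f ^ 2) := Nat.Coprime.coprime_mul_right_right hr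
  have hc2 : r.den.Coprime (NI m) := Nat.Coprime.coprime_mul_left_right hr
  have hlev : lev f m (R.image g) = Dk k * f ^ 2 * (NI m * ∏ b ∈ R.image g, NI b) ^ 3 := rfl
  have hcop : r.den.Coprime (lev f m (R.image g)) := by
    rw [hlev]
    refine hc1.mul_right (Nat.Coprime.pow_right 3 (hc2.mul_right ?_))
    refine Nat.Coprime.prod_right fun b' hb' => ?_
    obtain ⟨b, hb, rfl⟩ := Finset.mem_image.1 hb'
    exact ((o3 r.den (g b) hn).1 (hgR b hb).2.2.2.1).symm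
  have hodd : Odd (lev f m (R.image g)) := by
    rw [hlev]
    have h1 : Odd (Dk k) := by
      have h2 := SqK.pos (k := k)
      unfold Dk
      exact ⟨4 * k - 1, by omega⟩
    have h2 : Odd (NI m) := Nat.coprime_two_right.1 ((o3 2 m (by norm_num)).1 hm2)
    have h3 : Odd (∏ b ∈ R.image g, NI b) := by
      rw [← Nat.coprime_two_right]
      refine Nat.Coprime.prod_left fun b' hb' => ?_
      obtain ⟨b, hb, rfl⟩ := Finset.mem_image.1 hb'
      exact (o3 2 (g b) (by norm_num)).1 (hgR b hb).2.2.1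
    exact (h1.mul hfo.pow).mul (h2.mul h3).pow
  have hthree : 3 ≤ lev f m (R.image g) := by
    refine hf3.trans (Nat.le_of_dvd hodd.pos ?_)
    rw [hlev]
    exact ((dvd_pow_self f (by norm_num)).mul_left _).mul_right _
  have hLv : IsLv f m (R.image g) (lev f m (R.image g)) := ⟨hodd, hthree, dvd_rfl⟩
  -- the sums do not depend on the representatives
  have heta : ∀ r' : ℚ, etaX f m R χ r' = etaX f m (R.image g) χ r' := by
    intro r'
    refine (hR2 k f hfo hf3).2.1 R (R.image g) hR hR' (fun b => χ b * etaM f m b r') ?_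
    intro b b' hb hbf hb' hbf' hray
    rw [hχ.ray b b' hb hb' hbf hbf' hray,
      ((hC6 k f m b hFM ⟨hb, hbf⟩).1 b' ⟨hb', hbf'⟩ hray).2 r']
  obtain ⟨-, -, h3⟩ := hV k f (lev f m (R.image g)) m (R.image g) hFM hFR hR' hLv χ hχ
  have h4 := (h3 P hP).2 r hcop
  rw [heta, heta, heta, heta]
  exact h4

end Pool.Agent.DK.G
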