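import Pool.Agent.Lib.DK.G.Spec

/-!
# Theorem DK, part G, module NQ: the points `h/(f 2^N) + u` are not primary
-/

set_option autoImplicit false

open scoped Pointwise

noncomputable section

namespace Pool.Agent.DK.G

open Pool.Agent.MuZ Pool.Agent.FW Pool.Agent.DK
open Pool.Agent.DI (io ofC io_inj exists_io io_ofC ofC_io VP MP UP TP ex sqr sqr_sq kap)

variable {k : ℕ}

private theorem NQ_not_le {p b : Ideal (OO k)} (hp : p.IsPrime) (h2p : (2 : OO k) ∈ p)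
    (hb : PrI b 2) : ¬ b ≤ p := by
  intro h
  apply hp.ne_top
  rw [eq_top_iff]
  have h1 : b ⊔ Ideal.span {((2 : ℕ) : OO k)} ≤ p := by
    refine sup_le h ((Ideal.span_singleton_le_iff_mem p).2 ?_)
    simpa using h2p
  rwa [show b ⊔ Ideal.span {((2 : ℕ) : OO k)} = ⊤ from hb] at h1

/-- The case of a prime `p` above `2` which is not in `Q`; `p'` is the other prime above `2`. -/
private theorem NQ_main [SqK k] {p p' : Ideal (OO k)} (hp : p.IsPrime) (hpp : p * p' = sp 2)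
    (hsup : p ⊔ p' = ⊤) {f N : ℕ} {m b : Ideal (OO k)} (hf : 0 < f) (hfo : Odd f) (hN : 1 ≤ N)
    (hm : PrI m 2) (hb : PrI b 2) {Q : Ideal ZZ} (hQ : Npr Q) {α₀ : OO k} (hα₀ : α₀ ∈ p)
    (hαQ : ¬ MP Q (toO α₀)) {h : OO k} (hh : h ∉ p) {u : ℂ} (hu : u ∈ Lam (m * b)) :
    ¬ Qp Q b (toC h / (f * 2 ^ N : ℕ) + u) := by
  intro hq
  have := hQ.1
  have h2p : (2 : OO k) ∈ p := by
    have h1 : (2 : OO k) ∈ p * p' := by
      rw [hpp]
      exact Ideal.mem_span_singleton_self 2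
    exact Ideal.mul_le_left h1
  have hfp : (f : OO k) ∉ p := by
    intro h1
    obtain ⟨j, hj⟩ := hfo
    apply hp.ne_top
    rw [Ideal.eq_top_iff_one]
    have h3 : (1 : OO k) = (f : OO k) - j * 2 := by
      rw [hj]
      push_cast
      ring
    rw [h3]
    exact p.sub_mem h1 (p.mul_mem_left _ h2p)
  have hJ : ¬ p' ^ N * m * sp (f : OO k) ≤ p := by
    rw [hp.mul_le, hp.mul_le]
    rintro ((h1 | h1) | h1)
    · have h3 : p' ≤ p := Ideal.IsPrime.le_of_pow_le h1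
      apply hp.ne_top
      rw [← hsup]
      exact (sup_eq_left.2 h3).symm
    · exact NQ_not_le hp h2p hm h1
    · exact hfp (h1 (Ideal.mem_span_singleton_self _))
  obtain ⟨β, hβJ, hβp⟩ := SetLike.not_le_iff_exists.1 hJ
  have hβm : β ∈ m := by
    have h1 : p' ^ N * m * sp (f : OO k) ≤ m := Ideal.mul_le_left.trans Ideal.mul_le_right
    exact h1 hβJ
  have hαβ : α₀ ^ N * β ∈ sp ((2 : OO k) ^ N * (f : OO k)) * m := by
    have h1 : p ^ N * (p' ^ N * m * sp (f : OO k)) = sp ((2 : OO k) ^ N * (f : OO k)) * m := by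
      calc p ^ N * (p' ^ N * m * sp (f : OO k)) = (p * p') ^ N * sp (f : OO k) * m := by ring
        _ = sp ((2 : OO k) ^ N * (f : OO k)) * m := by
          rw [hpp, Ideal.span_singleton_pow, Ideal.span_singleton_mul_span_singleton]
    rw [← h1]
    exact Ideal.mul_mem_mul (Ideal.pow_mem_pow hα₀ N) hβJ
  obtain ⟨γ, hγ, hγe⟩ := Ideal.mem_span_singleton_mul.1 hαβ
  have hαN : ¬ MP Q (toO (α₀ ^ N)) := by
    rw [toO_pow]
    exact fun h1 => hαQ (DI.MP.of_pow h1)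
  have hM0 : ((f * 2 ^ N : ℕ) : ℂ) ≠ 0 := by
    have h1 : f * 2 ^ N ≠ 0 := by positivity
    exact_mod_cast h1
  have hMe : (2 : OO k) ^ N * (f : OO k) = ((f * 2 ^ N : ℕ) : OO k) := by
    push_cast
    ring
  have h1 : toC (α₀ ^ N * β) * (toC h / (f * 2 ^ N : ℕ) + u) ∈ Lam b := by
    have h3 : toC (α₀ ^ N * β) * (toC h / (f * 2 ^ N : ℕ) + u) =
        toC (γ * h) + toC (α₀ ^ N * β) * u := by
      rw [mul_add, ← hγe, hMe, toC_mul, toC_nat, toC_mul]
      congr 1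
      field_simp
    rw [h3]
    refine lam_add (lam_anti le_top (lam_top.2 ⟨_, rfl⟩)) (lam_prod.1 hu _ ?_)
    exact m.mul_mem_left _ hβm
  have h4 : toC β * (toC h / (f * 2 ^ N : ℕ) + u) ∈ Lam b := hq (α₀ ^ N) β hαN h1
  have h5 : toC β * (toC h / (f * 2 ^ N : ℕ)) ∈ Lam b := by
    rw [mul_add] at h4
    have h6 := lam_sub h4 (lam_prod.1 hu β hβm)
    rwa [add_sub_cancel_right] at h6
  obtain ⟨x, hxb, hxp⟩ := SetLike.not_le_iff_exists.1 (NQ_not_le hp h2p hb)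
  obtain ⟨c, hc⟩ := h5 x hxb
  have h6 : x * (β * h) = ((f * 2 ^ N : ℕ) : OO k) * c := by
    apply toC_inj
    rw [toC_mul, toC_mul, toC_mul, toC_nat, ← hc]
    field_simp
  have h7 : x * (β * h) ∈ p := by
    rw [h6]
    refine p.mul_mem_right _ ?_
    rw [← hMe]
    refine p.mul_mem_right _ ?_
    exact p.pow_mem_of_mem h2p N (by omega)
  rcases hp.mem_or_mem h7 with h8 | h8
  · exact hxp h8
  · rcases hp.mem_or_mem h8 with h9 | h9
    · exact hβp h9
    · exact hh h9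

theorem tNQ : S_NQ := by
  intro hO4 hCop hAbP k _ f N m b hf hfo hN hm0 hb0 hm hb Q hQ h hh u hu
  obtain ⟨hmul, -, hP, hPb, -, -, hsup, -, -, -, -⟩ := hO4 k
  obtain ⟨-, -, hnot, h1, h2⟩ := hAbP k Q
  obtain ⟨hhp, hhb⟩ := ((hCop k).2.2.2.1 h).1 hh
  by_cases hA : AbP k Q
  · obtain ⟨α, hα, hαQ⟩ := h2 hQ fun h3 => hnot ⟨hA, h3⟩
    exact NQ_main (p' := pp k) hPb ((mul_comm _ _).trans hmul) ((sup_comm _ _).trans hsup) hf hfo hN
      hm hb hQ hα hαQ hhb hu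
  · obtain ⟨α, hα, hαQ⟩ := h1 hQ hA
    exact NQ_main hP hmul hsup hf hfo hN hm hb hQ hα hαQ hhp hu

end Pool.Agent.DK.G
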