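import Pool.Agent.Lib.DK.G.Spec

/-!
# Theorem DK, module R2: representatives of ray classes prime to `2 f`; independence
-/

set_option autoImplicit false

open scoped Pointwise

noncomputable section

namespace Pool.Agent.DK.G

open Pool.Agent.MuZ Pool.Agent.FW Pool.Agent.DK

private lemma R2_conv {k : ℕ} {f : ℕ} {R : Finset (Ideal (OO k))} (h : IsRC f R) :
    IsRI f (fun b => b ≠ ⊥ ∧ PrI b f) R :=
  ⟨h.mem, fun b hb => h.ex b hb.1 hb.2, h.uni⟩

theorem tR2 : S_R2 := by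
  intro h6 h7 h8 hRI k _ f hf hf3
  classical
  have hf0 : 0 < f := by omega
  obtain ⟨hP1, hP2, -⟩ := h6 k
  obtain ⟨hrefl, hsymm, htrans, hmul, hcan, -, -, -, hinv, R0, hR0⟩ := h7 k f hf0
  have hsec : ∀ R R' : Finset (Ideal (OO k)), IsRC f R → IsRC f R' → ∀ F : Ideal (OO k) → Om,
      (∀ b b' : Ideal (OO k), b ≠ ⊥ → PrI b f → b' ≠ ⊥ → PrI b' f → Ray f b b' → F b = F b') →
      ∑ b ∈ R, F b = ∑ b ∈ R', F b := by
    intro R R' hR hR' F hF
    exact hRI k f (fun b => b ≠ ⊥ ∧ PrI b f) R R' Om F hf0 (R2_conv hR) (R2_conv hR')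
      (fun b b' h1 h2 h3 => hF b b' h1.1 h1.2 h2.1 h2.2 h3)
  refine ⟨?_, hsec, ?_⟩
  · have hch : ∀ b : Ideal (OO k), ∃ b' : Ideal (OO k), b ∈ R0 →
        b' ≠ ⊥ ∧ PrI b' (f * 2) ∧ Ray f b b' := by
      intro b
      by_cases hb : b ∈ R0
      · obtain ⟨h1, h2⟩ := hR0.mem b hb
        obtain ⟨b', h3, h4, -, h5⟩ := h8 k f 2 hf0 (by norm_num) (fun _ => True) trivial
          (fun _ _ _ _ => trivial) (fun _ _ _ _ => trivial) b h1 h2
        exact ⟨b', fun _ => ⟨h3, h4, h5⟩⟩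
      · exact ⟨⊤, fun h => absurd h hb⟩
    choose c hc using hch
    refine ⟨R0.image c, ⟨?_, ?_, ?_⟩, ?_⟩
    · intro b hb
      obtain ⟨b0, hb0, rfl⟩ := Finset.mem_image.1 hb
      obtain ⟨h1, h2, -⟩ := hc b0 hb0
      exact ⟨h1, ((hP2 _ _ _).1 h2).1⟩
    · intro b hb hb'
      obtain ⟨b0, hb0, h1⟩ := hR0.ex b hb hb'
      exact ⟨c b0, Finset.mem_image_of_mem c hb0, htrans _ _ _ h1 (hc b0 hb0).2.2⟩
    · intro b hb b' hb' h
      obtain ⟨b0, hb0, rfl⟩ := Finset.mem_image.1 hb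
      obtain ⟨b1, hb1, rfl⟩ := Finset.mem_image.1 hb'
      have h1 : Ray f b0 b1 :=
        htrans _ _ _ (htrans _ _ _ (hc b0 hb0).2.2 h) (hsymm _ _ (hc b1 hb1).2.2)
      rw [hR0.uni b0 hb0 b1 hb1 h1]
    · intro b hb
      obtain ⟨b0, hb0, rfl⟩ := Finset.mem_image.1 hb
      rw [mul_comm]
      exact (hc b0 hb0).2.1
  · intro R hR a ha ha' F hF
    have hcan' : ∀ b b' : Ideal (OO k), Ray f (a * b) (a * b') → Ray f b b' := by
      intro b b' h
      apply hcan b b' a ha ha'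
      rwa [mul_comm b a, mul_comm b' a]
    have hinj : ∀ b ∈ R, ∀ b' ∈ R, a * b = a * b' → b = b' := by
      intro b hb b' hb' h
      apply hR.uni b hb b' hb'
      apply hcan'
      rw [h]
      exact hrefl _
    have h1 : ∑ b ∈ R, F (a * b) = ∑ b ∈ R.image (fun b => a * b), F b := by
      rw [Finset.sum_image]
      intro b hb b' hb' h
      exact hinj b hb b' hb' h
    rw [h1]
    refine hsec _ _ ⟨?_, ?_, ?_⟩ hR F hF
    · intro b hb
      obtain ⟨b0, hb0, rfl⟩ := Finset.mem_image.1 hb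
      obtain ⟨h2, h3⟩ := hR.mem b0 hb0
      exact ⟨fun h => (Ideal.mul_eq_bot.1 h).elim ha h2, (hP1 _ _ _).2 ⟨ha', h3⟩⟩
    · intro b hb hb'
      obtain ⟨a', h2, h3, h4⟩ := hinv a ha ha'
      obtain ⟨b1, hb1, h5⟩ := hR.ex (a' * b) (fun h => (Ideal.mul_eq_bot.1 h).elim h2 hb)
        ((hP1 _ _ _).2 ⟨h3, hb'⟩)
      refine ⟨a * b1, Finset.mem_image_of_mem _ hb1, ?_⟩
      have h6' : Ray f (a * (a' * b)) (a * b1) := hmul _ _ _ _ (hrefl a) h5
      have h7' : Ray f (a * a' * b) (⊤ * b) := hmul _ _ _ _ h4 (hrefl b)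
      rw [mul_assoc, Ideal.top_mul] at h7'
      exact htrans _ _ _ (hsymm _ _ h7') h6'
    · intro b hb b' hb' h
      obtain ⟨b0, hb0, rfl⟩ := Finset.mem_image.1 hb
      obtain ⟨b1, hb1, rfl⟩ := Finset.mem_image.1 hb'
      rw [hR.uni b0 hb0 b1 hb1 (hcan' _ _ h)]

end Pool.Agent.DK.G
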