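import Pool.Agent.Lib.DK.G.Spec

/-!
# Theorem DK, part G, module RI: sums over two systems of representatives of classes
-/

set_option autoImplicit false

open scoped Pointwise

noncomputable section

namespace Pool.Agent.DK.G

open Pool.Agent.MuZ Pool.Agent.FW Pool.Agent.DK
open Pool.Agent.DI (io ofC io_inj exists_io io_ofC ofC_io VP MP UP TP ex sqr sqr_sq kap)

theorem tRI : S_RI := by
  classical
  intro hO7 k _ M C B B' A _ F hM hB hB' hF
  obtain ⟨-, hsy, htr, -⟩ := hO7 k M hM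
  refine Finset.sum_bij (fun b hb => (hB'.ex b (hB.mem b hb)).choose) ?_ ?_ ?_ ?_
  · intro b hb
    exact (hB'.ex b (hB.mem b hb)).choose_spec.1
  · intro b₁ h₁ b₂ h₂ he
    have r₁ := (hB'.ex b₁ (hB.mem b₁ h₁)).choose_spec.2
    have r₂ := (hB'.ex b₂ (hB.mem b₂ h₂)).choose_spec.2
    rw [he] at r₁
    exact hB.uni b₁ h₁ b₂ h₂ (htr _ _ _ r₁ (hsy _ _ r₂))
  · intro b' hb'
    obtain ⟨b, hb, hr⟩ := hB.ex b' (hB'.mem b' hb')
    refine ⟨b, hb, ?_⟩
    have h := (hB'.ex b (hB.mem b hb)).choose_spec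
    exact hB'.uni _ h.1 b' hb' (hsy _ _ (htr _ _ _ hr h.2))
  · intro b hb
    have h := (hB'.ex b (hB.mem b hb)).choose_spec
    exact hF b _ (hB.mem b hb) (hB'.mem _ h.1) h.2

end Pool.Agent.DK.G
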