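import Pool.Agent.Lib.DK.G.Spec

/-!
# Theorem DK, part G, module RS: comparison of the two systems
-/

set_option autoImplicit false

open scoped Pointwise

noncomputable section

namespace Pool.Agent.DK.G

open Pool.Agent.MuZ Pool.Agent.FW Pool.Agent.DK
open Pool.Agent.DI (io ofC io_inj exists_io io_ofC ofC_io VP MP UP TP ex sqr sqr_sq kap)

theorem tRS : S_RS := by
  classical
  intro hRI hRB hRD k _ f N R T D hf hf3 hN hR hR2 hT hD F hF
  set g1 : Ideal (OO k) × ℕ × ℕ → Ideal (OO k) := fun p => sp (bt k f p.2.1 p.2.2) * p.1 with hg1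
  set g2 : Ideal (OO k) × OO k → Ideal (OO k) := fun p => sp p.2 * p.1 with hg2
  set I : Finset (Ideal (OO k) × ℕ × ℕ) :=
    (R ×ˢ (Finset.range (2 ^ N) ×ˢ Finset.range (2 ^ N))).filter
      (fun p => Pm N (NI p.1 * Nm (bt k f p.2.1 p.2.2)) 1) with hI
  have hmem : ∀ p, p ∈ I ↔ p.1 ∈ R ∧ p.2.1 < 2 ^ N ∧ p.2.2 < 2 ^ N ∧
      Pm N (NI p.1 * Nm (bt k f p.2.1 p.2.2)) 1 := by
    intro p
    rw [hI, Finset.mem_filter, Finset.mem_product, Finset.mem_product, Finset.mem_range,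
      Finset.mem_range]
    tauto
  obtain ⟨hinj1, hB1⟩ := hRB k f N R hf hf3 hN hR hR2 I hmem
  obtain ⟨hinj2, hB2⟩ := hRD k f N T D hf hf3 hN hT hD
  have e1 : (∑ b ∈ R, ∑ x ∈ Finset.range (2 ^ N), ∑ y ∈ Finset.range (2 ^ N),
      if Pm N (NI b * Nm (bt k f x y)) 1 then F (sp (bt k f x y) * b) else 0) =
      ∑ b ∈ I.image g1, F b := by
    rw [Finset.sum_image (fun x hx y hy h => hinj1 hx hy h), hI, Finset.sum_filter,
      Finset.sum_product]
    refine Finset.sum_congr rfl fun b _ => ?_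
    rw [Finset.sum_product]
  have e2 : ∑ c ∈ D, ∑ h ∈ T, F (sp h * c) = ∑ b ∈ (D ×ˢ T).image g2, F b := by
    rw [Finset.sum_image (fun x hx y hy h => hinj2 hx hy h), Finset.sum_product]
  rw [e1, e2]
  refine hRI k (f * 2 ^ N) (CN f N) _ _ Om F ?_ (hB1 _ ?_) (hB2 _ ?_) hF
  · exact Nat.mul_pos (by omega) (by positivity)
  · rw [Finset.coe_image]
  · rw [Finset.coe_image]

end Pool.Agent.DK.G
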