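import Pool.Agent.Lib.DK.G.Spec

/-!
# Theorem DK, part G, module Rdz: values at `z_h` and on `E[m]` modulo `P`
-/

set_option autoImplicit false

open scoped Pointwise

noncomputable section

namespace Pool.Agent.DK.G

open Pool.Agent.MuZ Pool.Agent.FW Pool.Agent.DK
open Pool.Agent.DI (io ofC io_inj exists_io io_ofC ofC_io VP MP UP TP ex sqr sqr_sq kap)

private theorem Rdz_exists {k : ℕ} [SqK k] (hO4 : S_O4) {m : Ideal (OO k)} (hm : PrI m 2) :
    ∃ α ∈ m, α ∉ pp k := by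
  by_contra hcon
  push Not at hcon
  obtain ⟨-, -, hpr, -, -, -, -, -, -, -, -⟩ := hO4 k
  have h2 : (2 : OO k) ∈ pp k := Ideal.subset_span (by simp)
  have h1 : m ⊔ Ideal.span {((2 : ℕ) : OO k)} ≤ pp k := by
    refine sup_le hcon ?_
    rw [Ideal.span_le]
    intro x hx
    rw [Set.mem_singleton_iff] at hx
    subst hx
    exact_mod_cast h2
  have h3 : m ⊔ Ideal.span {((2 : ℕ) : OO k)} = ⊤ := hm
  rw [h3] at h1
  exact hpr.ne_top (top_le_iff.1 h1)

theorem tRdz : S_Rdz := by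
  intro hO4 hB14 hD1 hD2 hAb hNQ k _ f N m b hf hN hm hb hm2 hb2 P hP h hh z hz
  have hPp : P.IsPrime := hP.1.1
  obtain ⟨hA1, -, hA3, -, -⟩ := hAb k P
  have hnot : ¬ AbPb k P := fun h' => hA3 ⟨hP, h'⟩
  obtain ⟨d1, d2, d3, -, d5, -, d7⟩ := hD1 k b hb P hP.1 hnot
  obtain ⟨e1, -, -, -, -, e6, -⟩ := hD2 k b hb P hP
  have hNQ' : ∀ u ∈ Lam (m * b), ¬ Qp P b (z + u) := by
    intro u hu
    have := hNQ k f N m b hf.pos hf hN hm hb hm2 hb2 P hP.1 h hh u hu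
    rwa [← hz] at this
  have hz0 : ¬ Qp P b z := by
    have := hNQ' 0 (lam_zero _)
    rwa [add_zero] at this
  have hfN : 0 < f * 2 ^ N := Nat.mul_pos hf.pos (pow_pos two_pos N)
  have htz : Tor k z := by
    rw [hz]
    exact tor_div hfN h
  have hzm : z ∉ Lam (m * b) := by
    intro h1
    refine hNQ' (-z) (lam_neg h1) ?_
    intro α β _ _
    rw [add_neg_cancel, mul_zero]
    exact lam_zero _
  have hzb : z ∉ Lam b := fun h1 => hzm (lam_mono h1)
  obtain ⟨hIz, hVz⟩ := e6 z htz hz0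
  have hT : z + ptT b ∉ Lam b := by
    intro h1
    apply hIz
    have h2 : z = (z + ptT b) + toC (-1 : OO k) * ptT b := by
      rw [toC_neg, toC_one]
      ring
    rw [h2]
    exact d1 _ _ (d2 _ h1) (d3 _ _ e1)
  refine ⟨htz, hzm, hzb, hT, hVz, ?_⟩
  intro u hu
  obtain ⟨hu1, hu2⟩ := (hB14 k m b hm hb hm2).1.mem u hu
  have hmb : m * b ≠ ⊥ := by
    intro h1
    rcases Ideal.mul_eq_bot.1 h1 with h2 | h2
    · exact hm h2
    · exact hb h2
  have htu : Tor k u := tor_lam hmb hu1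
  have hQu : ¬ Qp P b u := by
    intro h1
    obtain ⟨α, hα, hα'⟩ := Rdz_exists hO4 hm2
    have h2 : ¬ MP P (toO α) := fun h3 => hα' ((hA1 hP α).1 h3)
    have h3 := h1 α 1 h2 (by rw [mul_one]; exact lam_prod.1 hu1 α hα)
    rw [toC_one, one_mul] at h3
    exact hu2 h3
  obtain ⟨hIu, hVu⟩ := e6 u htu hQu
  refine ⟨htu, hVu, hVz.sub hVu, ?_⟩
  intro h1
  rcases d7 z u htz htu hIz hIu h1 with h2 | h2
  · exact hNQ' u hu1 (d5 _ h2)
  · refine hNQ' (-u) (lam_neg hu1) (d5 _ ?_)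
    rwa [← sub_eq_add_neg]

end Pool.Agent.DK.G
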