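import Pool.Agent.Lib.DK.G.Spec

/-!
# Theorem DK, module SN: the element `s`
-/

set_option autoImplicit false

open scoped Pointwise

noncomputable section

namespace Pool.Agent.DK.G

open Pool.Agent.MuZ Pool.Agent.FW Pool.Agent.DK

private lemma SN_pow (ζ : Om) (N c : ℕ) (hN : 2 ≤ N) (hζ : IsPrimitiveRoot ζ (2 ^ N)) :
    ζ ^ (1 + 2 ^ (N - 1) + 2 ^ N * c) = -ζ := by
  have h1 : (ζ ^ 2 ^ (N - 1)) * (ζ ^ 2 ^ (N - 1)) = 1 := by
    rw [← pow_add]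
    have : 2 ^ (N - 1) + 2 ^ (N - 1) = 2 ^ N := by
      obtain ⟨M, rfl⟩ : ∃ M, N = M + 1 := ⟨N - 1, by omega⟩
      rw [Nat.add_sub_cancel, pow_succ]
      ring
    rw [this]
    exact hζ.pow_eq_one
  have h2 : ζ ^ 2 ^ (N - 1) ≠ 1 := by
    apply hζ.pow_ne_one_of_pos_of_lt (by positivity)
    exact Nat.pow_lt_pow_right (by norm_num) (by omega)
  have h3 : ζ ^ 2 ^ (N - 1) = -1 := (mul_self_eq_one_iff.1 h1).resolve_left h2
  rw [pow_add, pow_add, pow_one, h3, pow_mul, hζ.pow_eq_one, one_pow]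
  ring

theorem tSN : S_SN := by
  intro h2 h6 h7 hE1 hE6 hE7 hGM k _ f N hf hf3 hN
  have hf0 : 0 < f := by omega
  obtain ⟨-, -, -, hNI, -⟩ := h2 k
  obtain ⟨-, -, -, hPr, -⟩ := h6 k
  obtain ⟨M, rfl⟩ : ∃ M, N = M + 2 := ⟨N - 2, by omega⟩
  obtain ⟨g, hg⟩ := hf
  have hg' : (f : ℤ) = 2 * g + 1 := by exact_mod_cast hg
  have hre : (aN k f (M + 2)).re = 1 + 2 ^ (M + 1) * f := rfl
  have him : (aN k f (M + 2)).im = -(2 ^ (M + 1) * f) := rfl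
  have hNm : Nm (aN k f (M + 2)) = 1 + 2 ^ (M + 1) * f + 2 * k * (2 ^ (M + 1) * f) ^ 2 := by
    unfold Nm
    rw [hre, him]
    ring
  have hNm2 : Nm (aN k f (M + 2)) =
      ((1 + 2 ^ (M + 2 - 1) + 2 ^ (M + 2) * (g + k * f ^ 2 * 2 ^ (M + 1)) : ℕ) : ℤ) := by
    rw [hNm]
    have : M + 2 - 1 = M + 1 := rfl
    rw [this]
    push_cast
    have e : (2 : ℤ) ^ (M + 2) = 2 * 2 ^ (M + 1) := by ring
    rw [e]
    linear_combination (2 : ℤ) ^ (M + 1) * hg'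
  have hne : aN k f (M + 2) ≠ 0 := by
    intro h
    have h1 := congrArg QuadraticAlgebra.re h
    rw [hre, QuadraticAlgebra.re_zero] at h1
    have : (0 : ℤ) ≤ 2 ^ (M + 1) * f := by positivity
    omega
  have hc1 : IsCoprime (Nm (aN k f (M + 2))) ((2 : ℤ) * f) := by
    refine ⟨1, -(2 ^ M * (1 + 2 * k * (2 ^ (M + 1) * f))), ?_⟩
    rw [hNm]
    ring
  have hcop : Cop (aN k f (M + 2)) (2 * f) := by
    unfold Cop
    push_cast
    exact hc1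
  have hc2 : IsCoprime (Nm (aN k f (M + 2))) (f : ℤ) := (IsCoprime.mul_right_iff.1 hc1).2
  have hcM : Cop (aN k f (M + 2)) (f * 2 ^ (M + 2)) := by
    unfold Cop
    push_cast
    exact IsCoprime.mul_right hc2 (IsCoprime.pow_right (IsCoprime.mul_right_iff.1 hc1).1)
  have hdv : (f : OO k) ∣ aN k f (M + 2) - 1 := by
    rw [nat_dvd_iff]
    constructor
    · rw [QuadraticAlgebra.re_sub, re_one, hre]
      exact ⟨2 ^ (M + 1), by ring⟩
    · rw [QuadraticAlgebra.im_sub, im_one, him]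
      exact ⟨-2 ^ (M + 1), by ring⟩
  have hM0 : 0 < f * 2 ^ (M + 2) := by positivity
  have hsp : sp (aN k f (M + 2)) ≠ ⊥ := by
    intro h
    exact hne (Ideal.span_singleton_eq_bot.1 h)
  obtain ⟨s, hs, hPsi⟩ := hE7 k (f * 2 ^ (M + 2)) (sp (aN k f (M + 2))) hM0 hsp
    ((hPr _ _ hM0).2 hcM)
  refine ⟨hne, hcop, hdv, s, hs, hPsi, ?_, ?_⟩
  · obtain ⟨-, -, -, -, -, hfix, -⟩ := hGM k f ⟨g, hg⟩ hf3
    have h1 : Psi s f (sp (aN k f (M + 2))) :=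
      (hE1 k (f * 2 ^ (M + 2)) hM0).2.2.2.2 s f _ hPsi (Dvd.intro _ rfl)
    refine (hfix s hs _ h1).2 ⟨aN k f (M + 2), hne, ⟨hc2, 0, ?_⟩, ?_⟩
    · rw [pow_zero, pow_one]
      exact hdv
    · exact (h7 k f hf0).1 _
  · intro ζ hζ
    have h1 : ζ ^ (f * 2 ^ (M + 2)) = 1 := by
      rw [mul_comm, pow_mul, hζ.pow_eq_one, one_pow]
    rw [hE6 k s (f * 2 ^ (M + 2)) _ hs hM0 hPsi ζ h1]
    have h3 : NI (sp (aN k f (M + 2))) =
        1 + 2 ^ (M + 2 - 1) + 2 ^ (M + 2) * (g + k * f ^ 2 * 2 ^ (M + 1)) := by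
      have h4 := hNI (aN k f (M + 2))
      rw [hNm2] at h4
      exact_mod_cast h4
    rw [h3]
    exact SN_pow ζ (M + 2) _ (by omega) hζ

end Pool.Agent.DK.G
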