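import Pool.Agent.Lib.DK.G.Spec

/-!
# Theorem DK, part G, module SNo: `S_N(a)` is not `0` modulo `2` (after `DI/G/SNo.lean`)
-/

set_option autoImplicit false

open scoped Pointwise

noncomputable section

namespace Pool.Agent.DK.G

open Pool.Agent.MuZ Pool.Agent.FW Pool.Agent.DK
open Pool.Agent.DI (io ofC io_inj exists_io io_ofC ofC_io VP MP UP TP ex sqr sqr_sq kap)
open Pool.Agent.DI.G (Unr)

variable {k : ℕ}

private theorem SNo_tp_sub {P : Ideal ZZ} (hP : P.IsPrime) {t x y : Om} (hx : TP P t x)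
    (hy : TP P t y) : TP P t (x - y) := by
  obtain ⟨a, ha, rfl⟩ := hx
  obtain ⟨b, hb, rfl⟩ := hy
  exact ⟨a - b, ha.sub hb, by ring⟩

private theorem SNo_tp_mul {P : Ideal ZZ} (hP : P.IsPrime) {t x c : Om} (hc : VP P c)
    (hx : TP P t x) : TP P t (c * x) := by
  obtain ⟨a, ha, rfl⟩ := hx
  exact ⟨c * a, hc.mul ha, by ring⟩

private theorem SNo_per {f : ℕ} {m : Ideal (OO k)} {R : Finset (Ideal (OO k))}
    {χ : Ideal (OO k) → Om} (h : ∀ r : ℚ, etaX f m R χ (r + 1) = etaX f m R χ r) (j : ℤ) :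
    ∀ r : ℚ, etaX f m R χ (r + j) = etaX f m R χ r := by
  have hn : ∀ (n : ℕ) (r : ℚ), etaX f m R χ (r + n) = etaX f m R χ r := by
    intro n
    induction n with
    | zero => intro r; rw [Nat.cast_zero, add_zero]
    | succ n ih => intro r; rw [Nat.cast_succ, ← add_assoc, h, ih]
  intro r
  obtain ⟨n, rfl | rfl⟩ := j.eq_nat_or_neg
  · rw [Int.cast_natCast, hn]
  · have h1 := hn n (r + ((-(n : ℤ) : ℤ) : ℚ))
    rw [← h1]
    congr 1
    push_cast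
    ring

private theorem SNo_ha {f : ℕ} {m : Ideal (OO k)} {R : Finset (Ideal (OO k))}
    {χ : Ideal (OO k) → Om} (h : ∀ r : ℚ, etaX f m R χ (r + 1) = etaX f m R χ r) (j : ℤ) (r : ℚ) :
    haX f m R χ (r + j) = haX f m R χ r := by
  have hs : ∀ (j : ℤ) (r : ℚ), etas f m R χ (r + j) = etas f m R χ r := by
    intro j r
    have h1 : -(r + (j : ℚ)) = -r + ((-j : ℤ) : ℚ) := by push_cast; ring
    unfold etas
    rw [SNo_per h j r, h1, SNo_per h (-j) (-r)]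
  have h2 : 2 * (r + (j : ℚ)) = 2 * r + ((2 * j : ℤ) : ℚ) := by push_cast; ring
  unfold haX
  rw [hs j r, h2, hs]

private theorem SNo_den {M : ℕ} (hM : Odd M) (z : ℤ) (n : ℕ) :
    ((z : ℚ) / 2 ^ n).den.Coprime M := by
  have h1 : ((Rat.divInt z (2 ^ n)).den : ℤ) ∣ 2 ^ n := Rat.den_dvd z (2 ^ n)
  have h3 : ((2 ^ n : ℤ) : ℚ) = 2 ^ n := by push_cast; rfl
  rw [Rat.divInt_eq_div, h3] at h1
  have h2 : ((z : ℚ) / 2 ^ n).den ∣ 2 ^ n := by exact_mod_cast h1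
  exact Nat.Coprime.coprime_dvd_left h2 (Nat.Coprime.pow_left n (Nat.coprime_two_left.2 hM))

/-- The representative modulo `1`. -/
private theorem SNo_rep (c0 : ℤ) (m0 n : ℕ) (h : m0 ≤ n) :
    ∃ (c : ℕ) (k : ℤ), c < 2 ^ n ∧ (c : ℚ) / 2 ^ n + k = c0 / 2 ^ m0 := by
  have hpos : (0 : ℤ) < 2 ^ n := by positivity
  set z : ℤ := c0 * 2 ^ (n - m0) with hz
  have h1 : 0 ≤ z % 2 ^ n := Int.emod_nonneg _ hpos.ne'
  have h2 : z % 2 ^ n < 2 ^ n := Int.emod_lt_of_pos _ hpos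
  refine ⟨(z % 2 ^ n).toNat, z / 2 ^ n, ?_, ?_⟩
  · zify
    rw [Int.toNat_of_nonneg h1]
    exact h2
  · have h3 : (((z % 2 ^ n).toNat : ℕ) : ℚ) = ((z % 2 ^ n : ℤ) : ℚ) := by
      have h4 : (((z % 2 ^ n).toNat : ℕ) : ℤ) = z % 2 ^ n := Int.toNat_of_nonneg h1
      exact_mod_cast congrArg (fun t : ℤ => (t : ℚ)) h4
    have h5 : ((z % 2 ^ n : ℤ) : ℚ) + 2 ^ n * ((z / 2 ^ n : ℤ) : ℚ) = c0 * 2 ^ (n - m0) := by
      have h6 := Int.emod_add_mul_ediv z (2 ^ n)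
      have h7 := congrArg (fun t : ℤ => (t : ℚ)) h6
      push_cast at h7
      rw [hz] at h7 ⊢
      push_cast at h7 ⊢
      exact h7
    have h8 : (2 : ℚ) ^ n = 2 ^ m0 * 2 ^ (n - m0) := by
      rw [← pow_add, Nat.add_sub_cancel' h]
    have h9 : (2 : ℚ) ^ n ≠ 0 := by positivity
    have h10 : (2 : ℚ) ^ m0 ≠ 0 := by positivity
    rw [h3, eq_div_iff h10]
    have h11 : (((z % 2 ^ n : ℤ) : ℚ) / 2 ^ n + ((z / 2 ^ n : ℤ) : ℚ)) * 2 ^ m0 * 2 ^ (n - m0) =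
        c0 * 2 ^ (n - m0) := by
      rw [mul_assoc, ← h8, ← h5]
      field_simp
    exact mul_right_cancel₀ (by positivity) h11

/-- The root of unity `zet n`. -/
private theorem SNo_zet (n : ℕ) (hn : 0 < n) : IsPrimitiveRoot (zet n) n := by
  have h1 : ex (1 / n) = Complex.exp (2 * Real.pi * Complex.I / n) := by
    unfold ex
    rw [mul_one_div]
  have h2 : IsPrimitiveRoot (ex (1 / n)) n := by
    rw [h1]
    exact Complex.isPrimitiveRoot_exp n hn.ne'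
  have h3 : IsAlgebraic ℚ (ex (1 / n)) := by
    have h4 : IsIntegral ℤ (ex (1 / n)) := h2.isIntegral hn
    exact (h4.tower_top (A := ℚ)).isAlgebraic
  have h4 : io (zet n) = ex (1 / n) := io_ofC _ h3
  rw [← h4] at h2
  exact (IsPrimitiveRoot.map_iff_of_injective io_inj).1 h2

theorem tSNo : S_SNo := by
  intro hO4 hO6 hK4 hK6 hChi hEtG hChiF hFou hUni hG1 k _ f m R χ P hy hm hR hR2 hχ hP
  have hNP : Npr P := hP.1
  have hP1 : P.IsPrime := hP.1.1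
  have h2P : MP P 2 := hP.2.1
  obtain ⟨hfo, hf3, hm0, hm2, hmf⟩ := hy
  have hfpos : 0 < f := by omega
  obtain ⟨c0, m0, hc0⟩ := hG1 k f m R χ P ⟨hfo, hf3, hm0, hm2, hmf⟩ hm hR hχ hP
  refine ⟨m0 + 2, by omega, fun N hN a ha => ?_⟩
  obtain ⟨hV, hT⟩ := hFou k f m R χ P ⟨hfo, hf3, hm0, hm2, hmf⟩ hR hR2 hχ hP N a (by omega) ha
  refine ⟨hV, fun hcon => hc0 ?_⟩
  obtain ⟨M, hMu, -, -, hMχ, hMx⟩ := hChiF k f χ P hfo hf3 hχ hP
  obtain ⟨-, -, -, hint, hun, -⟩ := hChi k f χ hfo hf3 hχ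
  have hper : ∀ r : ℚ, etaX f m R χ (r + 1) = etaX f m R χ r := by
    intro r
    unfold etaX
    refine Finset.sum_congr rfl fun b hb => ?_
    rw [hK4 k f m b hfo hf3 hm0 hm2 hmf (hR.mem b hb).1 (hR.mem b hb).2 r]
  -- the level is odd
  have hMM : Odd (MM k f m) := by
    unfold MM
    have h1 : Odd (Dk k) := by
      have h2 := SqK.pos (k := k)
      unfold Dk
      exact ⟨4 * k - 1, by omega⟩
    have h3 : Odd (NI m) := by
      have h4 := ((hO6 k).2.2.1 2 m (by norm_num)).1 hm2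
      exact Nat.coprime_two_right.1 h4
    exact (h1.mul hfo.pow).mul h3
  -- the values
  have hval : ∀ (z : ℤ) (n : ℕ), etaX f m R χ ((z : ℚ) / 2 ^ n) ∈ M ∧
      VP P (etaX f m R χ ((z : ℚ) / 2 ^ n)) := by
    intro z n
    constructor
    · exact hMx _ fun τ h1 h2 h3 => hEtG k f m R χ ⟨hfo, hf3, hm0, hm2, hmf⟩ hR hχ z n τ h1 h2 h3
    · unfold etaX
      refine VP.sum _ _ fun b hb => ?_
      exact (VP.integral (hint b)).mul (hK6 k f m b hfo hf3 hm0 hm2 hmf (hR.mem b hb).1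
        (hR.mem b hb).2 P hNP h2P _ (SNo_den hMM z n))
  have hvals : ∀ (z : ℤ) (n : ℕ), etas f m R χ ((z : ℚ) / 2 ^ n) ∈ M ∧
      VP P (etas f m R χ ((z : ℚ) / 2 ^ n)) := by
    intro z n
    have h1 : -((z : ℚ) / 2 ^ n) = ((-z : ℤ) : ℚ) / 2 ^ n := by push_cast; ring
    unfold etas
    rw [h1]
    exact ⟨add_mem (hval z n).1 (hval (-z) n).1, (hval z n).2.add (hval (-z) n).2⟩
  have hvalh : ∀ (z : ℤ) (n : ℕ), haX f m R χ ((z : ℚ) / 2 ^ n) ∈ M ∧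
      VP P (haX f m R χ ((z : ℚ) / 2 ^ n)) := by
    intro z n
    have h1 : 2 * ((z : ℚ) / 2 ^ n) = ((2 * z : ℤ) : ℚ) / 2 ^ n := by push_cast; ring
    unfold haX
    rw [h1]
    exact ⟨add_mem (hvals z n).1 (mul_mem (hMχ (ppb k)) (hvals (2 * z) n).1),
      (hvals z n).2.add ((VP.integral (hint (ppb k))).mul (hvals (2 * z) n).2)⟩
  -- the root of unity
  have hz := SNo_zet (2 ^ N) (by positivity)
  have hgcd : IsCoprime (-a) ((2 ^ N : ℕ) : ℤ) := by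
    push_cast
    refine IsCoprime.pow_right ?_
    rw [IsCoprime.neg_left_iff]
    obtain ⟨j, rfl⟩ := ha
    exact ⟨1, -j, by ring⟩
  have hprim : IsPrimitiveRoot (zet (2 ^ N) ^ (-a)) (2 ^ N) :=
    hz.zpow_of_gcd_eq_one (-a) (Int.isCoprime_iff_gcd_eq_one.1 hgcd)
  have hsum : TP P 2 (∑ c ∈ Finset.range (2 ^ (N - 1)),
      (zet (2 ^ N) ^ (-a)) ^ c * haX f m R χ ((c : ℚ) / 2 ^ (N - 1))) := by
    have h1 := SNo_tp_sub hP1 hcon hT
    rw [sub_sub_cancel] at h1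
    have hcop : PrI (pp k) f := by
      rw [(hO6 k).2.2.1 f (pp k) hfpos, (hO4 k).2.2.2.2.1]
      exact Nat.coprime_two_left.2 hfo
    have hne : pp k ≠ ⊥ := (hO4 k).2.2.2.2.2.2.2.1
    have h3 : UP P (χ (pp k)) := hun P (pp k) hNP hne hcop
    have h4 := SNo_tp_mul hP1 h3.inv.1 h1
    rw [inv_mul_cancel_left₀ h3.ne_zero] at h4
    have h5 : ∑ c ∈ Finset.range (2 ^ (N - 1)),
        (zet (2 ^ N) ^ (-a)) ^ c * haX f m R χ ((c : ℚ) / 2 ^ (N - 1)) =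
        ∑ c ∈ Finset.range (2 ^ (N - 1)),
        zet (2 ^ N) ^ (-((c : ℤ) * a)) * haX f m R χ ((c : ℚ) / 2 ^ (N - 1)) := by
      refine Finset.sum_congr rfl fun c _ => ?_
      congr 1
      rw [← zpow_natCast, ← zpow_mul]
      congr 1
      ring
    rw [h5]
    exact h4
  obtain ⟨c, j, hc, hcj⟩ := SNo_rep c0 m0 (N - 1) (by omega)
  have hAM : ∀ c : ℕ, haX f m R χ ((c : ℚ) / 2 ^ (N - 1)) ∈ M := by
    intro c
    have h1 := (hvalh (c : ℤ) (N - 1)).1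
    rwa [Int.cast_natCast] at h1
  have hAV : ∀ c : ℕ, VP P (haX f m R χ ((c : ℚ) / 2 ^ (N - 1))) := by
    intro c
    have h1 := (hvalh (c : ℤ) (N - 1)).2
    rwa [Int.cast_natCast] at h1
  have hfin := hUni P hP1 h2P M N (zet (2 ^ N) ^ (-a)) (by omega) hprim hMu
    (fun c => haX f m R χ ((c : ℚ) / 2 ^ (N - 1))) hAM hAV hsum c hc
  obtain ⟨y, hy, hxy⟩ := hfin
  rw [← hcj, SNo_ha hper]
  have h5 : haX f m R χ ((c : ℚ) / 2 ^ (N - 1)) = 2 * y := hxy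
  rw [h5]
  exact MP.mul_right h2P hy

end Pool.Agent.DK.G
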