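import Pool.Agent.Lib.DK.G.SpecL

/-!
# Theorem DK, part G, module Sit: the situation of the local lemma
-/

set_option autoImplicit false

namespace Pool.Agent.DK.G

open Pool.Agent.MuZ Pool.Agent.FW Pool.Agent.DK
open Pool.Agent.DI (io ofC io_inj exists_io io_ofC ofC_io VP MP UP TP ex sqr sqr_sq kap)

theorem tSit : S_Sit := by
  intro hE hG hU k _ f P ho h3 hP
  obtain ⟨e1, e2, _, _, e5, _⟩ := hE k f ho h3
  obtain ⟨_, _, g1, _, _, _, _, g8⟩ := hG k f ho h3
  have h2 : MP P 2 := hP.2.1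
  have hin : ∀ τ ∈ P.inertia Gal(Om/ℚ), ∀ x ∈ Mf k f, τ x = x := e5 P hP.1 h2
  exact
    { prime := hP.1.1
      two := h2
      nrm := e1
      lnn := e2
      inr := hin
      unr := hU (Mf k f) g1 e1 P hP.1.1 hP.1.2 h2 hin
      lnx := g8 }

end Pool.Agent.DK.G
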