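import Pool.Agent.Lib.DK.G.Spec

/-!
# Theorem DK, part G, module TEv: the number of representatives is even
-/

set_option autoImplicit false

open scoped Pointwise

noncomputable section

namespace Pool.Agent.DK.G

open Pool.Agent.MuZ Pool.Agent.FW Pool.Agent.DK

variable {k : ℕ}

/-- The integer `j`: `1` modulo `f`, `-1` modulo `2 ^ N`. -/
private theorem TEv_j {f N : ℕ} (hf : Odd f) :
    ∃ j : ℤ, (f : ℤ) ∣ j - 1 ∧ (2 : ℤ) ^ N ∣ j + 1 := by
  have h1 : IsCoprime (f : ℤ) ((2 : ℤ) ^ N) := by
    apply IsCoprime.pow_right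
    have h2 : Nat.Coprime f 2 := Nat.coprime_two_right.2 hf
    exact_mod_cast Nat.isCoprime_iff_coprime.2 h2
  obtain ⟨u, v, huv⟩ := h1
  refine ⟨1 - 2 * u * f, ⟨-(2 * u), by ring⟩, ⟨2 * v, ?_⟩⟩
  linear_combination (-2) * huv

/-- An integer divisible in `O`. -/
private theorem TEv_int {M : ℕ} {n : ℤ} (h : (M : OO k) ∣ (n : OO k)) : (M : ℤ) ∣ n := by
  have := ((nat_dvd_iff M (n : OO k)).1 h).1
  rwa [re_int] at this

theorem tTEv : S_TEv := by
  classical
  intro hCop hHNf k _ f N T hf hf3 hN hT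
  obtain ⟨j, hjf, hjN⟩ := TEv_j (N := N) hf
  obtain ⟨-, -, hmul, -, -, -, -, -, hcopM, -⟩ := hHNf k f N
  obtain ⟨hCm, -, -, -, -, -, hcan, -, hc2, -⟩ := hCop k
  -- the element `j`
  have hjf' : (f : OO k) ∣ (j : OO k) - 1 := by
    obtain ⟨c, hc⟩ := hjf
    refine ⟨(c : OO k), ?_⟩
    have h1 : ((j - 1 : ℤ) : OO k) = ((f * c : ℤ) : OO k) := by rw [hc]
    push_cast at h1
    exact h1
  have hjN' : (2 : ℤ) ^ N ∣ j ^ 2 - 1 := by
    have e : j ^ 2 - 1 = (j + 1) * (j - 1) := by ring
    rw [e]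
    exact hjN.mul_right _
  have hjM : ((f * 2 ^ N : ℕ) : OO k) ∣ (j : OO k) * j - 1 := by
    obtain ⟨c, hc⟩ := hjf
    obtain ⟨d, hd⟩ := hjN
    refine ⟨((c * d : ℤ) : OO k), ?_⟩
    have h1 : ((j * j - 1 : ℤ) : OO k) = (((f * c) * (2 ^ N * d) : ℤ) : OO k) := by
      rw [← hc, ← hd]
      congr 1
      ring
    push_cast at h1 ⊢
    rw [h1]
    ring
  have hjH : HN f N (j : OO k) := by
    refine ⟨⟨?_, 0, ?_⟩, Or.inl ?_⟩
    · refine cop_congr (a := 1) ?_ (cop_one f)
      have e : (1 : OO k) - j = -((j : OO k) - 1) := by ring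
      rw [e]
      exact (dvd_neg).2 hjf'
    · rwa [pow_zero, pow_one]
    · rwa [Nm_int]
  have hjC : Cop (j : OO k) (2 * f) := hc2 f N _ hf (by omega) (hcopM _ hjH)
  -- the involution
  have hex : ∀ h : OO k, ∃ h' : OO k, h ∈ T → h' ∈ T ∧
      (((f * 2 ^ N : ℕ) : OO k) ∣ j * h - h' ∨ ((f * 2 ^ N : ℕ) : OO k) ∣ j * h + h') := by
    intro h
    by_cases hh : h ∈ T
    · obtain ⟨h1, h2⟩ := hT.mem h hh
      obtain ⟨h', hh', hd⟩ := hT.ex (j * h) (hmul _ _ hjH h1) ((hCm _ _ _).2 ⟨hjC, h2⟩)
      exact ⟨h', fun _ => ⟨hh', hd⟩⟩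
    · exact ⟨0, fun h0 => absurd h0 hh⟩
  choose e he using hex
  have h1 : ∏ _h ∈ T, (-1 : ℤ) = 1 := by
    refine Finset.prod_involution (fun a _ => e a) ?_ ?_ ?_ ?_
    · intro a _
      norm_num
    · intro a ha _ heq
      have hc : Cop a (f * 2 ^ N) := hcopM _ (hT.mem a ha).1
      have h2 := (he a ha).2
      rw [heq] at h2
      rcases h2 with h2 | h2
      · have e1 : (j : OO k) * a - a = a * ((j - 1 : ℤ) : OO k) := by
          push_cast
          ring
        rw [e1] at h2
        have h3 := TEv_int (hcan _ _ _ hc h2)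
        have h4 : (2 : ℤ) ^ N ∣ j - 1 := by
          refine dvd_trans ?_ h3
          push_cast
          exact dvd_mul_left _ _
        have h5 : (2 : ℤ) ^ N ∣ 2 := by
          have h6 := dvd_sub hjN h4
          have e2 : j + 1 - (j - 1) = 2 := by ring
          rwa [e2] at h6
        have h7 : (2 : ℤ) ^ 2 ≤ 2 ^ N := pow_le_pow_right₀ (by norm_num) hN
        have h8 := Int.le_of_dvd (by norm_num) h5
        omega
      · have e1 : (j : OO k) * a + a = a * ((j + 1 : ℤ) : OO k) := by
          push_cast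
          ring
        rw [e1] at h2
        have h3 := TEv_int (hcan _ _ _ hc h2)
        have h4 : (f : ℤ) ∣ j + 1 := by
          refine dvd_trans ?_ h3
          push_cast
          exact dvd_mul_right _ _
        have h5 : (f : ℤ) ∣ 2 := by
          have h6 := dvd_sub h4 hjf
          have e2 : j + 1 - (j - 1) = 2 := by ring
          rwa [e2] at h6
        have h8 := Int.le_of_dvd (by norm_num) h5
        omega
    · intro a ha
      exact (he a ha).1
    · intro a ha
      obtain ⟨hb, h2⟩ := he a ha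
      obtain ⟨hc, h3⟩ := he (e a) hb
      refine (hT.uni a ha _ hc ?_).symm
      -- `a = j (j a) = ± j (e a) = ± e (e a)`
      have h4 : ((f * 2 ^ N : ℕ) : OO k) ∣ (j : OO k) * j * a - a := by
        have e1 : (j : OO k) * j * a - a = ((j : OO k) * j - 1) * a := by ring
        rw [e1]
        exact hjM.mul_right _
      rcases h2 with h2 | h2 <;> rcases h3 with h3 | h3
      · left
        have h5 := dvd_sub (dvd_add (h2.mul_left (j : OO k)) h3) h4
        have e1 : (j : OO k) * (j * a - e a) + (j * e a - e (e a)) - (j * j * a - a) =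
            a - e (e a) := by ring
        rwa [e1] at h5
      · right
        have h5 := dvd_sub (dvd_add (h2.mul_left (j : OO k)) h3) h4
        have e1 : (j : OO k) * (j * a - e a) + (j * e a + e (e a)) - (j * j * a - a) =
            a + e (e a) := by ring
        rwa [e1] at h5
      · right
        have h5 := dvd_sub (dvd_sub (h2.mul_left (j : OO k)) h3) h4
        have e1 : (j : OO k) * (j * a + e a) - (j * e a - e (e a)) - (j * j * a - a) =
            a + e (e a) := by ring
        rwa [e1] at h5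
      · left
        have h5 := dvd_sub (dvd_sub (h2.mul_left (j : OO k)) h3) h4
        have e1 : (j : OO k) * (j * a + e a) - (j * e a + e (e a)) - (j * j * a - a) =
            a - e (e a) := by ring
        rwa [e1] at h5
  rw [Finset.prod_const] at h1
  exact (neg_one_pow_eq_one_iff_even (by norm_num)).1 h1

end Pool.Agent.DK.G
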