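import Pool.Agent.Lib.DK.G.Spec

/-!
# Theorem DK, part G: translation of `Θ` by `T`, modulo `4`
-/

set_option autoImplicit false

open scoped Pointwise

noncomputable section

namespace Pool.Agent.DK.G

open Pool.Agent.MuZ Pool.Agent.FW Pool.Agent.DK
open Pool.Agent.DI (io ofC io_inj exists_io io_ofC ofC_io VP MP UP TP ex sqr sqr_sq kap)

private theorem ThT_prod {P : Ideal ZZ} [hP : P.IsPrime] (S : Finset ℂ)
    (q g r : ℂ → Om) (hq : ∀ u ∈ S, q u = 1 + 2 * g u + 4 * r u)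
    (hg : ∀ u ∈ S, VP P (g u)) (hr : ∀ u ∈ S, VP P (r u)) :
    ∃ R : Om, VP P R ∧ ∏ u ∈ S, q u = 1 + 2 * (∑ u ∈ S, g u) + 4 * R := by
  classical
  have h2 : VP P (2 : Om) := by simpa using DI.VP.nat (P := P) 2
  have h4 : VP P (4 : Om) := by simpa using DI.VP.nat (P := P) 4
  induction S using Finset.induction_on with
  | empty => exact ⟨0, DI.VP.zero, by simp⟩
  | insert a s ha ih =>
    obtain ⟨R, hR, h1⟩ := ih (fun u hu => hq u (Finset.mem_insert_of_mem hu))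
      (fun u hu => hg u (Finset.mem_insert_of_mem hu))
      (fun u hu => hr u (Finset.mem_insert_of_mem hu))
    have hga := hg a (Finset.mem_insert_self a s)
    have hra := hr a (Finset.mem_insert_self a s)
    have hqa := hq a (Finset.mem_insert_self a s)
    have hA : VP P (∑ u ∈ s, g u) := DI.VP.sum s g fun u hu => hg u (Finset.mem_insert_of_mem hu)
    refine ⟨R + r a + g a * (∑ u ∈ s, g u) + 2 * (r a * (∑ u ∈ s, g u) + g a * R) +
      4 * (r a * R), ?_, ?_⟩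
    · exact (((hR.add hra).add (hga.mul hA)).add (h2.mul ((hra.mul hA).add (hga.mul hR)))).add
        (h4.mul (hra.mul hR))
    · rw [Finset.prod_insert ha, Finset.sum_insert ha, h1, hqa]
      ring

private theorem ThT_pp_ne {k : ℕ} [SqK k] : pp k ≠ ⊥ := by
  intro h
  have h1 : (2 : OO k) ∈ pp k := Ideal.subset_span (by simp)
  rw [h, Ideal.mem_bot] at h1
  have h2 : toC (2 : OO k) = 0 := by rw [h1, toC_zero]
  rw [toC_two] at h2
  exact two_ne_zero h2

private theorem ThT_nine (y : Om) : (1 + 2 * y) ^ 9 = 1 + 2 * y +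
    4 * (4 * y + 36 * y ^ 2 + 168 * y ^ 3 + 504 * y ^ 4 + 1008 * y ^ 5 + 1344 * y ^ 6 +
      1152 * y ^ 7 + 576 * y ^ 8 + 128 * y ^ 9) := by
  ring

/-- `𝒟` is in `V_P`. (`DK.S_R2` is not among the hypotheses: in the namespace `DK.G` the name `S_R2` is the
statement with this name of `DK/G/Spec.lean`.) `X(z) X(z + S) = 𝒟` for `z = 1/2^N`, `N` large. -/
private theorem ThT_vd (hL6 : S_L6) (hB4 : S_B4) (hR1 : S_R1) (hR4 : S_R4) (hRdz : C_Rdz)
    {k : ℕ} [SqK k] (m b : Ideal (OO k)) (hm : m ≠ ⊥) (hb : b ≠ ⊥) (hm2 : PrI m 2) (hb2 : PrI b 2)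
    (P : Ideal ZZ) (hP : AbP k P) : VP P (dO b) := by
  have hPp : P.IsPrime := hP.1.1
  have h2S : 2 * ptS b ∈ Lam b := (hL6 k b hb).2.2.1.2.1
  obtain ⟨v, n, hn, hv⟩ := tor_lam hb h2S
  obtain ⟨j, f', hf', hnf⟩ := Nat.exists_eq_two_pow_mul_odd hn.ne'
  have hf0 : (f' : ℂ) ≠ 0 := by exact_mod_cast hf'.pos.ne'
  have hv' : ptS b = toC v / (2 ^ (j + 1) * f' : ℂ) := by
    have h1 : ptS b = (2 * ptS b) / 2 := by ring
    rw [h1, hv, hnf]
    push_cast
    field_simp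
    ring
  have c1 : Cop (1 : OO k) 2 := cop_one 2
  have c2 : Cop ((f' : OO k) + 2 * v) 2 := by
    refine cop_congr (a := (f' : OO k)) ⟨-v, ?_⟩ ?_
    · push_cast
      ring
    · unfold Cop
      rw [Nm_nat]
      have h3 : IsCoprime (f' : ℤ) (2 : ℤ) := by
        have h4 : Nat.Coprime f' 2 := (Nat.coprime_two_right).2 hf'
        exact_mod_cast Nat.isCoprime_iff_coprime.2 h4
      exact_mod_cast h3.pow_left
  obtain ⟨t1, -, l1, -, v1, -⟩ := hRdz k 1 (j + 2) m b odd_one (by omega) hm hb hm2 hb2 P hP 1 c1 _ rfl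
  obtain ⟨t2, -, l2, -, v2, -⟩ := hRdz k f' (j + 2) m b hf' (by omega) hm hb hm2 hb2 P hP _ c2 _ rfl
  have e1 : toC (1 : OO k) / ((1 * 2 ^ (j + 2) : ℕ) : ℂ) + ptS b =
      toC ((f' : OO k) + 2 * v) / ((f' * 2 ^ (j + 2) : ℕ) : ℂ) := by
    rw [hv', toC_add, toC_mul, toC_one, toC_nat, toC_two]
    push_cast
    field_simp
    ring
  rw [← e1] at t2 l2 v2
  have key : xO b (toC (1 : OO k) / ((1 * 2 ^ (j + 2) : ℕ) : ℂ) + ptS b) *
      xO b (toC (1 : OO k) / ((1 * 2 ^ (j + 2) : ℕ) : ℂ)) = dO b := by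
    apply io_inj
    rw [map_mul, hR4.1 k b hb _ t1, hR4.1 k b hb _ t2, (hR1 k b hb).1]
    exact ((hB4 k b hb).2 _ l1 l2).2
  rw [← key]
  exact v2.mul v1

theorem tThT : S_ThT := by
  intro hL6 hB4 hR1 _ hR4 hD8 hRdz k _ f N m b hf hN hm hb hm2 hb2 P hP h hh z hz
  have hPp : P.IsPrime := hP.1.1
  obtain ⟨hTor, hnl, hz0, hz1, hVX, hu⟩ := hRdz k f N m b hf hN hm hb hm2 hb2 P hP h hh z hz
  have h2 : MP P 2 := hP.2.1
  have hnat : ∀ n : ℕ, VP P (n : Om) := fun n => DI.VP.nat (P := P) n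
  have hT : ptT b ∈ Lam (pp k * b) := ((hL6 k b hb).1).1
  have hppb : pp k * b ≠ ⊥ := by
    intro h0
    rcases Ideal.mul_eq_bot.1 h0 with h1 | h1
    · exact ThT_pp_ne h1
    · exact hb h1
  have hTor' : Tor k (z + ptT b) := tor_add hTor (tor_lam hppb hT)
  -- the translation formula
  set X := xO b z with hX
  set X' := xO b (z + ptT b) with hX'
  have hVd : VP P (dO b) := ThT_vd hL6 hB4 hR1 hR4 hRdz m b hm hb hm2 hb2 P hP
  have key : X' * (4 * X + 1) = -(X + 4 * dO b) := by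
    apply io_inj
    have h1 := ((hB4 k b hb).1 z hz0 hz1).2
    rw [map_mul, map_add, map_mul, map_neg, map_add, map_mul, map_one, map_ofNat, hX, hX',
      hR4.1 k b hb z hTor, hR4.1 k b hb _ hTor', (hR1 k b hb).1]
    exact h1
  have hD : UP P (4 * X + 1) := by
    refine DI.UP.congr DI.UP.one ?_
    have e1 : 4 * X + 1 - 1 = 2 * (2 * X) := by ring
    rw [e1]
    exact DI.MP.mul_right h2 (h2.vp.mul hVX)
  set D := 4 * X + 1 with hDdef
  have hD0 : D ≠ 0 := hD.ne_zero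
  obtain ⟨e, he, heX⟩ : ∃ e : Om, VP P e ∧ e * D = -(2 * X ^ 2 + X + 2 * dO b) := by
    refine ⟨-(2 * X ^ 2 + X + 2 * dO b) * D⁻¹, ?_, ?_⟩
    · exact ((((h2.vp.mul (hVX.pow 2)).add hVX).add (h2.vp.mul hVd)).neg).mul hD.inv.1
    · rw [mul_assoc, inv_mul_cancel₀ hD0, mul_one]
  have hX'e : X' = X + 2 * e := by
    apply mul_right_cancel₀ hD0
    rw [add_mul, mul_assoc 2 e D, heX, key, hDdef]
    ring
  obtain ⟨g, hg, hge⟩ : ∃ g : Om, VP P g ∧ e + X = 2 * g := by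
    refine ⟨(X ^ 2 - dO b) * D⁻¹, ?_, ?_⟩
    · exact ((hVX.pow 2).sub hVd).mul hD.inv.1
    · apply mul_right_cancel₀ hD0
      rw [add_mul, heX, mul_assoc 2 _ D, mul_assoc _ D⁻¹ D, inv_mul_cancel₀ hD0, mul_one, hDdef]
      ring
  -- the differences
  have hdu : ∀ u ∈ hs m b, UP P (X - xO b u) := fun u hu' => (hu u hu').2.2
  have hdu' : ∀ u ∈ hs m b, UP P (X' - xO b u) := by
    intro u hu'
    refine DI.UP.congr (hdu u hu') ?_
    have e1 : X' - xO b u - (X - xO b u) = 2 * e := by rw [hX'e]; ring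
    rw [e1]
    exact DI.MP.mul_right h2 he
  have hTh0 : Theta m b z ≠ 0 := (hD8 k m b hm hb hm2).2.2.2 z hTor hnl
  have hW : ∀ u ∈ hs m b, W2 b u ≠ 0 := by
    intro u hu' h0
    apply hTh0
    unfold Theta
    refine Finset.prod_eq_zero hu' ?_
    rw [h0, zero_mul]
    exact zero_pow (by norm_num)
  have hgu : ∀ u ∈ hs m b, VP P (X * (X - xO b u)⁻¹) := fun u hu' => hVX.mul (hdu u hu').inv.1
  have hratio : Theta m b (z + ptT b) / Theta m b z =
      ∏ u ∈ hs m b, ((X - xO b u) / (X' - xO b u)) ^ 9 := by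
    unfold Theta
    rw [← Finset.prod_div_distrib]
    refine Finset.prod_congr rfl fun u hu' => ?_
    have h1 := (hdu u hu').ne_zero
    have h3 := (hdu' u hu').ne_zero
    have h4 := hW u hu'
    change (W2 b u * ((X' - xO b u) ^ 3)⁻¹) ^ 3 / (W2 b u * ((X - xO b u) ^ 3)⁻¹) ^ 3 = _
    generalize X - xO b u = c at *
    generalize X' - xO b u = c' at *
    generalize W2 b u = w at *
    field_simp
  have hVP : VP P (gt m b z) := by
    unfold gt
    exact DI.VP.sum _ _ hgu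
  refine ⟨hVP, hTh0, ?_⟩
  obtain ⟨R, hR, hRp⟩ := ThT_prod (P := P) (hs m b)
    (fun u => ((X - xO b u) / (X' - xO b u)) ^ 9)
    (fun u => X * (X - xO b u)⁻¹)
    (fun u => -((g * (X - xO b u) + e * X) * ((X - xO b u)⁻¹ * (X' - xO b u)⁻¹)) +
      (4 * (-e * (X' - xO b u)⁻¹) + 36 * (-e * (X' - xO b u)⁻¹) ^ 2 +
        168 * (-e * (X' - xO b u)⁻¹) ^ 3 + 504 * (-e * (X' - xO b u)⁻¹) ^ 4 +
        1008 * (-e * (X' - xO b u)⁻¹) ^ 5 + 1344 * (-e * (X' - xO b u)⁻¹) ^ 6 +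
        1152 * (-e * (X' - xO b u)⁻¹) ^ 7 + 576 * (-e * (X' - xO b u)⁻¹) ^ 8 +
        128 * (-e * (X' - xO b u)⁻¹) ^ 9)) (by
      intro u hu'
      have h1 := (hdu u hu').ne_zero
      have h3 := (hdu' u hu').ne_zero
      have h4 : X' - xO b u = (X - xO b u) + 2 * e := by rw [hX'e]; ring
      have h5 : X * (X - xO b u)⁻¹ - -e * (X' - xO b u)⁻¹ =
          2 * ((g * (X - xO b u) + e * X) * ((X - xO b u)⁻¹ * (X' - xO b u)⁻¹)) := by
        generalize X' - xO b u = d' at h3 h4 ⊢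
        generalize X - xO b u = d at h1 h4 ⊢
        field_simp
        linear_combination X * h4 + d * hge
      have h6 : (X - xO b u) / (X' - xO b u) = 1 + 2 * (-e * (X' - xO b u)⁻¹) := by
        generalize X' - xO b u = d' at h3 h4 ⊢
        generalize X - xO b u = d at h1 h4 ⊢
        field_simp
        linear_combination -h4
      change ((X - xO b u) / (X' - xO b u)) ^ 9 = _
      rw [h6, ThT_nine]
      linear_combination (-2 : Om) * h5) hgu (by
      intro u hu'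
      have hy : VP P (-e * (X' - xO b u)⁻¹) := he.neg.mul (hdu' u hu').inv.1
      have hn : ∀ (n j : ℕ), VP P ((n : Om) * (-e * (X' - xO b u)⁻¹) ^ j) := fun n j =>
        (hnat n).mul (hy.pow j)
      have h0 : VP P (-((g * (X - xO b u) + e * X) * ((X - xO b u)⁻¹ * (X' - xO b u)⁻¹))) :=
        (((hg.mul (hdu u hu').1).add (he.mul hVX)).mul
          ((hdu u hu').inv.1.mul (hdu' u hu').inv.1)).neg
      have h1 := hn 4 1
      have h2' := hn 36 2
      have h3 := hn 168 3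
      have h4 := hn 504 4
      have h5 := hn 1008 5
      have h6 := hn 1344 6
      have h7 := hn 1152 7
      have h8 := hn 576 8
      have h9 := hn 128 9
      rw [pow_one] at h1
      push_cast at h1 h2' h3 h4 h5 h6 h7 h8 h9
      exact h0.add ((((((((h1.add h2').add h3).add h4).add h5).add h6).add h7).add h8).add h9))
  refine ⟨R, hR, ?_⟩
  rw [hratio, hRp]
  unfold gt
  ring

end Pool.Agent.DK.G
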