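import Pool.Agent.Lib.DK.G.Spec

/-!
# Theorem DK, part G, module Tra: translation by `T`
-/

set_option autoImplicit false

open scoped Pointwise

noncomputable section

namespace Pool.Agent.DK.G

open Pool.Agent.MuZ Pool.Agent.FW Pool.Agent.DK

variable {k : ℕ}

private theorem Tra_lam [SqK k] (b : Ideal (OO k)) (v : OO k) : toC v ∈ Lam b :=
  lam_anti le_top (lam_top.2 ⟨v, rfl⟩)

private theorem Tra_one_sub : (1 - wI k : OO k).re = 1 ∧ (1 - wI k : OO k).im = -1 := by
  have e1 : (wI k).re = 0 := rfl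
  have e2 : (wI k).im = 1 := rfl
  rw [QuadraticAlgebra.re_sub, QuadraticAlgebra.im_sub, re_one, im_one, e1, e2]
  exact ⟨by norm_num, by norm_num⟩

private theorem Tra_aN (k f N : ℕ) : toC (aN k f N) = 1 + 2 ^ (N - 1) * f * (1 - wC k) := by
  unfold aN
  rw [toC_apply]
  push_cast
  ring

theorem tTra : S_Tra := by
  intro hO4 hL6 hCop k _ f N b hf hN hb hPb h hh
  obtain ⟨-, -, hpr, -, -, -, -, -, -, hpp, -⟩ := hO4 k
  obtain ⟨n, rfl⟩ : ∃ n, N = n + 1 := ⟨N - 1, by omega⟩
  set y : ℂ := toC ((1 - wI k) * h) / 2 with hy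
  have hf0 : (f : ℂ) ≠ 0 := by exact_mod_cast hf.ne'
  -- the difference
  have e1 : toC (aN k f (n + 1) * h) / (f * 2 ^ (n + 1) : ℕ) -
      (toC h / (f * 2 ^ (n + 1) : ℕ) + ptT b) = y - ptT b := by
    rw [toC_mul, Tra_aN, hy, toC_mul, toC_sub, toC_one, toC_wI, Nat.add_sub_cancel]
    push_cast
    field_simp
    ring
  rw [e1]
  -- `y` is in `Lam (pp * b)`
  have h1 : y ∈ Lam (pp k * b) := by
    rw [lam_prod]
    intro x hx
    have hx2 : (2 : ℤ) ∣ x.re := (hpp x).1 hx
    have hd : ((2 : ℕ) : OO k) ∣ x * (1 - wI k) := by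
      rw [nat_dvd_iff, re_mul, im_mul, Tra_one_sub.1, Tra_one_sub.2]
      push_cast
      constructor
      · have e : x.re * 1 - 2 * (k : ℤ) * x.im * -1 = x.re + 2 * (k * x.im) := by ring
        rw [e]
        exact dvd_add hx2 (dvd_mul_right _ _)
      · have e : x.re * -1 + x.im * 1 + x.im * -1 = -x.re := by ring
        rw [e]
        exact (dvd_neg).2 hx2
    obtain ⟨q, hq⟩ := hd
    have e2 : toC x * y = toC (q * h) := by
      have e3 : x * ((1 - wI k) * h) = ((2 : ℕ) : OO k) * (q * h) := by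
        rw [← mul_assoc, hq, mul_assoc]
      have e4 := congrArg toC e3
      rw [toC_mul x, toC_mul ((2 : ℕ) : OO k), toC_nat] at e4
      rw [hy, mul_div_assoc', e4]
      push_cast
      field_simp
    rw [e2]
    exact Tra_lam b _
  -- `y` is not in `Lam b`
  have h2 : y ∉ Lam b := by
    intro hyb
    have h2p : ((2 : ℕ) : OO k) ∈ pp k := by
      rw [hpp, re_nat]
      norm_num
    obtain ⟨x, hxb, hxp⟩ : ∃ x ∈ b, x ∉ pp k := by
      by_contra hcon
      push Not at hcon
      have hle : b ⊔ Ideal.span {((2 : ℕ) : OO k)} ≤ pp k := by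
        refine sup_le hcon ?_
        rw [Ideal.span_singleton_le_iff_mem]
        exact h2p
      unfold PrI at hPb
      rw [hPb, top_le_iff] at hle
      exact hpr.ne_top hle
    obtain ⟨u, hu⟩ := hyb x hxb
    have e3 : x * ((1 - wI k) * h) = ((2 : ℕ) : OO k) * u := by
      apply toC_inj
      rw [toC_mul, toC_mul _ u, toC_nat, ← hu, hy]
      push_cast
      field_simp
    have h3 : x * ((1 - wI k) * h) ∈ pp k := by
      rw [e3]
      exact Ideal.mul_mem_right _ _ h2p
    rcases hpr.mem_or_mem h3 with h4 | h4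
    · exact hxp h4
    · rcases hpr.mem_or_mem h4 with h5 | h5
      · rw [hpp, Tra_one_sub.1] at h5
        norm_num at h5
      · exact (((hCop k).2.2.2.1 h).1 hh).1 h5
  exact ((hL6 k b hb).1.2.2 y h1).resolve_left h2

end Pool.Agent.DK.G
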