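import Pool.Agent.Lib.DK.G.Spec

/-!
# Theorem DK, part G, module UBa: elliptic units, first properties
-/

set_option autoImplicit false

open scoped Pointwise

noncomputable section

namespace Pool.Agent.DK.G

open Pool.Agent.MuZ Pool.Agent.FW Pool.Agent.DK
open Pool.Agent.DI (io ofC io_inj exists_io io_ofC ofC_io VP MP UP TP ex sqr sqr_sq kap)

variable {k : ℕ}

/-- The values of an even function on `ℂ / Lam b` at the points `t / M` are periodic modulo `M`. -/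
private theorem UBa_per [SqK k] {m b : Ideal (OO k)} {M : ℕ} (hM : 0 < M)
    (hl : ∀ z : ℂ, ∀ l ∈ Lam b, Theta m b (z + l) = Theta m b z) {v u : OO k}
    (h : (M : OO k) ∣ v - u) : Theta m b (toC v / M) = Theta m b (toC u / M) := by
  obtain ⟨c, hc⟩ := h
  have hM' : (M : ℂ) ≠ 0 := by exact_mod_cast hM.ne'
  have hv : v = u + M * c := by rw [← hc]; ring
  have e : toC v / (M : ℂ) = toC u / M + toC c := by
    rw [hv, toC_add, toC_mul, toC_nat]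
    field_simp
  have hcl : toC c ∈ Lam b := by
    have h1 : toC c ∈ Lam (b * (⊤ : Ideal (OO k))) := lam_mono (lam_top.2 ⟨c, rfl⟩)
    rwa [Ideal.mul_top] at h1
  rw [e]
  exact hl _ _ hcl

private theorem UBa_even [SqK k] {m b : Ideal (OO k)} {M : ℕ}
    (hl : ∀ z : ℂ, Theta m b (-z) = Theta m b z) (v : OO k) :
    Theta m b (toC (-v) / M) = Theta m b (toC v / M) := by
  rw [toC_neg, neg_div]
  exact hl _

private theorem UBa_neg (hH : C_HNf) [SqK k] {f N : ℕ} (v : OO k) (h : HN f N v ∧ Cop v (2 * f)) :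
    HN f N (-v) ∧ Cop (-v) (2 * f) := by
  obtain ⟨⟨_, _, _, h1⟩, _, h2, _⟩ := hH k f N
  refine ⟨?_, cop_neg h.2⟩
  have h3 := h2 _ _ h1 h.1
  rwa [neg_one_mul] at h3

/-- The points `h / M` are not in `Lam (m b)`. -/
private theorem UBa_not (h6 : S_O6) (hC : C_Cop) [SqK k] {c : Ideal (OO k)} (hc : c ≠ ⊥) (hc2 : PrI c 2)
    {f N : ℕ} (hf : 0 < f) (hN : 1 ≤ N) {h : OO k} (hh : Cop h 2) :
    toC h / (f * 2 ^ N : ℕ) ∉ Lam c := by
  intro hz
  obtain ⟨x, hx, _, hx1⟩ := (h6 k).2.2.2.2 2 c two_pos hc hc2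
  have hxc : Cop x 2 := by
    apply cop_congr (a := 1) _ (cop_one 2)
    have h1 : (1 : OO k) - x = -(x - 1) := by ring
    rw [h1]
    exact (dvd_neg).2 hx1
  obtain ⟨u, hu⟩ := hz x hx
  have hM : ((f * 2 ^ N : ℕ) : ℂ) ≠ 0 := by
    have : f * 2 ^ N ≠ 0 := by positivity
    exact_mod_cast this
  have e : x * h = ((f * 2 ^ N : ℕ) : OO k) * u := by
    apply toC_inj
    rw [toC_mul, toC_mul, toC_nat, ← hu]
    field_simp
  have hxh : Cop (x * h) 2 := cop_mul hxc hh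
  have h2 : ¬ (2 : ℤ) ∣ Nm (x * h) := (hC k).2.2.1 _ |>.1 hxh
  apply h2
  have h3 : ((2 : ℕ) : OO k) ∣ x * h := by
    rw [e]
    apply Dvd.dvd.mul_right
    have h4 : (2 : ℕ) ∣ f * 2 ^ N := Dvd.dvd.mul_left (dvd_pow_self 2 (by omega)) f
    exact_mod_cast Nat.cast_dvd_cast h4
  have h5 := Nm_dvd h3
  rw [Nm_nat] at h5
  exact dvd_trans ⟨2, by norm_num⟩ h5

/-- Elliptic units: units, class function. -/
theorem tUBa : S_UBa := by
  intro h6 h7 hD5 hD8 hC hH hRp hRF hNQ k _ f m N T hy hN hT b hb hb2f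
  have hf0 : 0 < f := by have := hy.three; omega
  have hM : 0 < f * 2 ^ N := by positivity
  obtain ⟨o1, o2, _, _, _⟩ := h6 k
  have hb2 : PrI b 2 := ((o2 2 f b).1 hb2f).1
  have hT' : IsRep f N T := hT
  have hmem := hT.mem
  have hmb : m * b ≠ ⊥ := mul_ne_zero hy.ne hb
  have hmb2 : PrI (m * b) 2 := (o1 2 m b).2 ⟨hy.two, hb2⟩
  obtain ⟨c1, c2, c3, c4, c5, c6, c7, c8, c9, c10⟩ := hC k
  have hcop2 : ∀ h ∈ T, Cop h 2 := fun h hh => ((c2 h 2 f).1 (hmem h hh).2).1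
  have hMne : ((f * 2 ^ N : ℕ) : ℂ) ≠ 0 := by exact_mod_cast hM.ne'
  -- class function
  have hclass : ∀ b1 b2 : Ideal (OO k), b1 ≠ ⊥ → Ray (f * 2 ^ N) b1 b2 →
      uN f N m T b2 = uN f N m T b1 := by
    intro b1 b2 hb1 hR
    have hb2' : b2 ≠ ⊥ := ((h7 k (f * 2 ^ N) hM).2.2.2.2.2.1 b1 b2 hR).1.1 hb1
    unfold uN
    refine Finset.prod_congr rfl fun h _ => ?_
    exact (hRF k (f * 2 ^ N) Om (fun b z => Theta m b z) hM
      (fun b α z hb hα => (hD8 k m b hy.ne hb hy.two).2.2.1 α z hα)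
      (fun b z l hb hl => ((hD8 k m b hy.ne hb hy.two).2.1 z).2 l hl) b1 b2 hb1 hb2' hR h).symm
  have hmul : ∀ v : OO k, v ≠ 0 → Cop v (2 * f) →
      uN f N m T (sp v * b) = ∏ h ∈ T, Theta m b (toC (v * h) / (f * 2 ^ N : ℕ)) := by
    intro v hv _
    unfold uN
    refine Finset.prod_congr rfl fun h _ => ?_
    rw [(hD8 k m b hy.ne hb hy.two).2.2.1 v _ hv, toC_mul, mul_div_assoc]
  have hper : ∀ v u : OO k, (HN f N v ∧ Cop v (2 * f)) → (HN f N u ∧ Cop u (2 * f)) →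
      ((f * 2 ^ N : ℕ) : OO k) ∣ v - u →
      Theta m b (toC v / (f * 2 ^ N : ℕ)) = Theta m b (toC u / (f * 2 ^ N : ℕ)) :=
    fun v u _ _ h => UBa_per hM (fun z => ((hD8 k m b hy.ne hb hy.two).2.1 z).2) h
  have heven : ∀ v : OO k, Theta m b (toC (-v) / (f * 2 ^ N : ℕ)) =
      Theta m b (toC v / (f * 2 ^ N : ℕ)) :=
    fun v => UBa_even (fun z => ((hD8 k m b hy.ne hb hy.two).2.1 z).1) v
  refine ⟨?_, ?_, fun b' hR => hclass b b' hb hR, hmul, ?_, ?_⟩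
  · unfold uN
    apply Finset.prod_ne_zero_iff.2
    intro h hh
    exact (hD8 k m b hy.ne hb hy.two).2.2.2 _ (tor_div hM h)
      (UBa_not h6 hC hmb hmb2 hf0 hN (hcop2 h hh))
  · intro Q hQ
    have := hQ.1
    unfold uN
    refine DI.UP.prod _ _ fun h hh => ?_
    exact hD5 k m b hy.ne hb hy.two Q hQ _ (tor_div hM h)
      (fun u hu => hNQ k f N m b hf0 hy.odd hN hy.ne hb hy.two hb2 Q hQ h (hcop2 h hh) u hu)
  · rintro a ⟨v, hv0, hv, hvc, hR⟩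
    have hvb : sp v * b ≠ ⊥ := mul_ne_zero (fun h => hv0 (Ideal.span_singleton_eq_bot.1 h)) hb
    obtain ⟨r1, r2, _, r4, _⟩ := h7 k (f * 2 ^ N) hM
    obtain ⟨_, _, n3, _, _, _, n7, _, n9, _⟩ := hH k f N
    rw [hclass (sp v * b) (a * b) hvb (r4 _ _ _ _ (r2 _ _ hR) (r1 b)), hmul v hv0 hvc]
    obtain ⟨v', _, hv'c, hvv'⟩ := c6 v (f * 2 ^ N) hM (n9 v hv)
    have hv'2 : Cop v' (2 * f) := c9 f N v' hy.odd hN hv'c
    have hv'N : HN f N v' := n7 v v' hv hvv'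
    exact (hRp k).2 (f * 2 ^ N) (fun v => HN f N v ∧ Cop v (2 * f)) T Om
      (fun t => Theta m b (toC t / (f * 2 ^ N : ℕ))) v v' (isRep_iff.1 hT') hvv'
      (fun w hw => ⟨n3 _ _ hv hw.1, cop_mul hvc hw.2⟩)
      (fun w hw => ⟨n3 _ _ hv'N hw.1, cop_mul hv'2 hw.2⟩) hper heven
      (fun w hw => UBa_neg hH w hw)
  · intro T' hT''
    exact (hRp k).1 (f * 2 ^ N) (fun v => HN f N v ∧ Cop v (2 * f)) T' T Om
      (fun t => Theta m b (toC t / (f * 2 ^ N : ℕ))) (isRep_iff.1 hT'') (isRep_iff.1 hT') hper heven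
      (fun w hw => UBa_neg hH w hw)

end Pool.Agent.DK.G
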