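import Pool.Agent.Lib.DK.G.Spec

/-!
# Theorem DK, part G, module UBb: elliptic units, Galois action
-/

set_option autoImplicit false

open scoped Pointwise

noncomputable section

namespace Pool.Agent.DK.G

open Pool.Agent.MuZ Pool.Agent.FW Pool.Agent.DK

variable {k : ℕ}

private theorem toC_lam [SqK k] (b : Ideal (OO k)) (v : OO k) : toC v ∈ Lam b :=
  lam_anti le_top (lam_top.2 ⟨v, rfl⟩)

theorem tUBb : S_UBb := by
  intro hO2 hO6 hO7 hE1 hE10 hA k _ f m N T hH hN hT b hb hPb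
  have hm : 0 < f * 2 ^ N := Nat.mul_pos hH.odd.pos (by positivity)
  have hn : 0 < NI m := by
    refine Nat.pos_of_ne_zero fun h => hH.ne ?_
    exact ((hO2 k).2.2.2.2.2.1 m).1 h
  have key : ∀ τ ∈ GK k, ∀ a : Ideal (OO k), Psi τ (f * 2 ^ N) a →
      τ (uN f N m T b) = uN f N m T (a * b) := by
    intro τ hτ a ha
    have hM : 0 < f * 2 ^ N * NI m := Nat.mul_pos hm hn
    obtain ⟨a', ha'⟩ := (hE1 k (f * 2 ^ N * NI m) hM).1 τ hτ
    have ha2 : Psi τ (f * 2 ^ N) a' := (hE1 k _ hM).2.2.2.2 τ (f * 2 ^ N) a' ha' (dvd_mul_right _ _)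
    have hray : Ray (f * 2 ^ N) a a' := (hE1 k _ hm).2.1 τ a a' ha ha2
    have h1 : τ (uN f N m T b) = uN f N m T (a' * b) := by
      unfold uN
      rw [map_prod]
      refine Finset.prod_congr rfl fun t _ => ?_
      refine (hE10 k τ (f * 2 ^ N * NI m) a' hM ha').2.2 m b hH.ne hb hH.two (dvd_mul_left _ _) _ ?_
      have hm' : ((f * 2 ^ N : ℕ) : ℂ) ≠ 0 := by exact_mod_cast hm.ne'
      have e : ((f * 2 ^ N * NI m : ℕ) : ℂ) * (toC t / ((f * 2 ^ N : ℕ) : ℂ)) = (NI m : ℂ) * toC t := by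
        rw [Nat.cast_mul]
        field_simp
      rw [e]
      exact lam_nat _ (toC_lam b t)
    have h2 : uN f N m T (a' * b) = uN f N m T (a * b) := by
      have hab : a * b ≠ ⊥ := mul_ne_zero ha.ne hb
      have hPa : PrI a (2 * f) := by
        have h3 := ((hO6 k).2.1 f (2 ^ N) a).1 ha.cop
        obtain ⟨n, rfl⟩ : ∃ n, N = n + 1 := ⟨N - 1, by omega⟩
        have h4 := h3.2
        rw [pow_succ] at h4
        exact ((hO6 k).2.1 2 f a).2 ⟨(((hO6 k).2.1 (2 ^ n) 2 a).1 h4).2, h3.1⟩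
      have hPab : PrI (a * b) (2 * f) := ((hO6 k).1 (2 * f) a b).2 ⟨hPa, hPb⟩
      refine (hA k f m N T hH hN hT (a * b) hab hPab).2.2.1 (a' * b) ?_
      exact (hO7 k _ hm).2.2.2.1 a a' b b hray ((hO7 k _ hm).1 b)
    rw [h1, h2]
  refine ⟨?_, key⟩
  intro τ hτ a ha hHa
  rw [key τ hτ a ha]
  exact (hA k f m N T hH hN hT b hb hPb).2.2.2.2.1 a hHa

end Pool.Agent.DK.G
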