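import Pool.Agent.Lib.DK.G.Spec
import Pool.Agent.Lib.DI.G.UnrG

/-!
# Theorem DK, part G, module UnrG
-/

set_option autoImplicit false

namespace Pool.Agent.DK.G

theorem tUnrG : S_UnrG := fun M h1 h2 P hP h0 => DI.G.tUnrG M h1 h2 P ⟨hP, h0⟩

end Pool.Agent.DK.G
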