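import Pool.Agent.Lib.DK.G.AbP
import Pool.Agent.Lib.DK.G.Chi
import Pool.Agent.Lib.DK.G.ChiF
import Pool.Agent.Lib.DK.G.Cop
import Pool.Agent.Lib.DK.G.DU
import Pool.Agent.Lib.DK.G.EtG
import Pool.Agent.Lib.DK.G.Fou1
import Pool.Agent.Lib.DK.G.Fou2
import Pool.Agent.Lib.DK.G.G1b
import Pool.Agent.Lib.DK.G.G3m
import Pool.Agent.Lib.DK.G.G7
import Pool.Agent.Lib.DK.G.GFin
import Pool.Agent.Lib.DK.G.GMm
import Pool.Agent.Lib.DK.G.GRm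
import Pool.Agent.Lib.DK.G.Gt
import Pool.Agent.Lib.DK.G.HNf
import Pool.Agent.Lib.DK.G.HPg
import Pool.Agent.Lib.DK.G.Hlf
import Pool.Agent.Lib.DK.G.KA
import Pool.Agent.Lib.DK.G.KB
import Pool.Agent.Lib.DK.G.KC
import Pool.Agent.Lib.DK.G.KD
import Pool.Agent.Lib.DK.G.NQ
import Pool.Agent.Lib.DK.G.R2
import Pool.Agent.Lib.DK.G.RB
import Pool.Agent.Lib.DK.G.RD
import Pool.Agent.Lib.DK.G.RI
import Pool.Agent.Lib.DK.G.RS
import Pool.Agent.Lib.DK.G.RUp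
import Pool.Agent.Lib.DK.G.RayF
import Pool.Agent.Lib.DK.G.Rdz
import Pool.Agent.Lib.DK.G.Rp
import Pool.Agent.Lib.DK.G.SN
import Pool.Agent.Lib.DK.G.SNo
import Pool.Agent.Lib.DK.G.Sit
import Pool.Agent.Lib.DK.G.TEv
import Pool.Agent.Lib.DK.G.ThT
import Pool.Agent.Lib.DK.G.Tra
import Pool.Agent.Lib.DK.G.TwR
import Pool.Agent.Lib.DK.G.Two
import Pool.Agent.Lib.DK.G.UBa
import Pool.Agent.Lib.DK.G.UBb
import Pool.Agent.Lib.DK.G.Uni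
import Pool.Agent.Lib.DK.G.UnrG
import Pool.Agent.Lib.DK.G.V0

/-!
# Theorem DK, part G: assembly (helper21)

`aGR`, `aGM`, `aG3`, `aG`: the outputs `S_GR`, `S_GM`, `S_G3`, `S_G` of part G from the statements of the
parts O, L, B, R, D, E (`GIn`) and C, F (`S_C4`, `S_C6`, `S_C9`, `S_V`, `S_F`).
-/

set_option autoImplicit false

namespace Pool.Agent.DK.G

open Pool.Agent.MuZ Pool.Agent.FW Pool.Agent.DK

/-- The inputs of part G from the parts O, L, B, R, D, E. -/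
structure GIn : Prop where
  O2 : S_O2
  O4 : S_O4
  O6 : S_O6
  O7 : S_O7
  O8 : S_O8
  O9 : S_O9
  L6 : S_L6
  B1 : S_B1
  B4 : S_B4
  B7 : S_B7
  B14 : S_B14
  R1 : S_R1
  R4 : S_R4
  D1 : S_D1
  D2 : S_D2
  D5 : S_D5
  D7 : S_D7
  D8 : S_D8
  D9 : S_D9
  E1 : S_E1
  E6 : S_E6
  E7 : S_E7
  E8 : S_E8
  E9 : S_E9
  E10 : S_E10

theorem aR2 (i : GIn) : C_R2 := tR2 i.O6 i.O7 i.O8 (tRI i.O7)

/-- **Output of part G**: representatives exist. -/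
theorem aGR (i : GIn) : S_GR :=
  have cop := tCop i.O4
  tGRm i.O2 i.O6 i.O7 cop (tHNf cop) (tV0 cop) (aR2 i)

/-- **Output of part G**: the groups and the fields. -/
theorem aGM (i : GIn) : S_GM :=
  have cop := tCop i.O4
  tGMm i.E1 i.E6 i.E8 (tHPg i.O2 i.O6 i.O7 i.O9 cop (tHNf cop) (tRUp i.O6 cop))

theorem aNQ (i : GIn) : C_NQ := tNQ i.O4 (tCop i.O4) (tAbP i.O4)

theorem aUBa (i : GIn) : C_UBa :=
  have cop := tCop i.O4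
  tUBa i.O6 i.O7 i.D5 i.D8 cop (tHNf cop) tRp (tRayF cop) (aNQ i)

theorem aUBb (i : GIn) : C_UBb := tUBb i.O2 i.O6 i.O7 i.E1 i.E10 (aUBa i)

/-- **Output of part G**: the elliptic units. -/
theorem aG3 (i : GIn) : S_G3 :=
  have cop := tCop i.O4
  have hn := tHNf cop
  tG3m (aUBa i) (aUBb i) (tTwo i.O6 i.O7 i.D7 i.D8 cop hn (tRUp i.O6 cop) tRp (tTEv cop hn)
    (tTwR cop hn) (aNQ i) (aUBa i) (aUBb i))

theorem aSN (i : GIn) : C_SN := tSN i.O2 i.O6 i.O7 i.E1 i.E6 i.E7 (aGM i)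

theorem aDU (i : GIn) : C_DU :=
  have cop := tCop i.O4
  have rdz : C_Rdz := tRdz i.O4 i.B14 i.D1 i.D2 (tAbP i.O4) (aNQ i)
  tDU i.O6 i.D8 (aSN i) (tTra i.O4 i.L6 cop) (tThT i.L6 i.B4 i.R1 tR2 i.R4 i.D8 rdz) (aUBa i) (aUBb i)

/-- Part G from the values `etaM`; the last input is the nonvanishing. -/
theorem aG0 (i : GIn) (k1 : S_K1) (k2 : S_K2) (k3 : S_K3) (k4 : S_K4) (k6 : S_K6)
    (g1 : C_R2 → C_Chi → C_G1) : S_G :=
  have cop := tCop i.O4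
  have hn := tHNf cop
  have rup := tRUp i.O6 cop
  have ri := tRI i.O7
  have r2 := aR2 i
  have chi := tChi i.O6 i.O7
  have gm := aGM i
  have unr : C_UnrG := tUnrG
  have rs : C_RS := tRS ri (tRB i.O2 i.O6 i.O7 i.O9 cop rup) (tRD i.O2 i.O6 i.O7 i.O9 cop hn rup)
  have fou2 : C_Fou2 := tFou2 i.O4 i.O6 k3 k4 k6 chi (tFou1 i.O6 k2)
  have etg : C_EtG := tEtG i.O2 i.O6 i.E1 i.E6 i.E10 k1 k2 gm r2 chi
  have sno : C_SNo := tSNo i.O4 i.O6 k4 k6 chi etg (tChiF i.E9 gm unr chi) fou2 tUni (g1 r2 chi)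
  have g7 : C_G7 := tG7 i.O6 i.O7 i.D9 cop r2 rs (tGt i.B1 i.B7 i.B14 tHlf) (tRayF cop) (aNQ i)
    (aDU i) chi sno
  tGFin (aG3 i) (aSN i) chi g7 (tSit i.E9 gm unr)

/-- **Output of part G** from the interfaces of parts C and F. -/
theorem aG (i : GIn) (c4 : S_C4) (c6 : S_C6) (c9 : S_C9) (v : S_V) (f : S_F) : S_G :=
  aG0 i (tKA c6).1 (tKB i.O6 c4) (tKD i.O6 i.O7 i.O8 c6 v (aR2 i)) (tKA c6).2
    (tKC i.O6 i.O8 c6 c9) (tG1b i.O4 i.O6 i.O7 c6 v f)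

end Pool.Agent.DK.G
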