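import Pool.Agent.Lib.DK.G.Spec
import Pool.Agent.Lib.DI.F.VPB
import Pool.Agent.Lib.DI.V.All

/-!
# Theorem DK, part G, module G1: the nonvanishing input (author helper31, after `DI/G/G1.lean` of helper97)

The bridge from part V and part F to part G.
-/

set_option autoImplicit false

open scoped Pointwise

noncomputable section

namespace Pool.Agent.DK.G

open Pool.Agent.MuZ Pool.Agent.FW Pool.Agent.DK
open Pool.Agent.DI (io ofC io_inj exists_io io_ofC ofC_io VP MP UP TP ex sqr sqr_sq kap)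

variable {k : ℕ}

/-! ## The character -/

private theorem G1_cop_int [SqK k] (n : ℤ) (N : ℕ) : Cop (n : OO k) N ↔ IsCoprime n (N : ℤ) := by
  unfold Cop
  rw [Nm_int]
  exact IsCoprime.pow_left_iff (by norm_num)

private theorem G1_int_ne [SqK k] {n : ℤ} {N : ℕ} (hN : 2 ≤ N) (h : IsCoprime n (N : ℤ)) :
    (n : OO k) ≠ 0 := by
  rintro h0
  have h1 : n = 0 := by
    have h2 := congrArg QuadraticAlgebra.re h0
    rwa [re_int] at h2
  rw [h1, isCoprime_zero_left] at h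
  rw [Int.isUnit_iff] at h
  omega

private theorem G1_sp_ne [SqK k] {n : ℤ} {N : ℕ} (hN : 2 ≤ N) (h : IsCoprime n (N : ℤ)) :
    sp (n : OO k) ≠ ⊥ := fun h0 => G1_int_ne hN h (Ideal.span_singleton_eq_bot.1 h0)

private theorem G1_sp_pri [SqK k] (h6 : S_O6) {n : ℤ} {N : ℕ} (hN : 2 ≤ N) (h : IsCoprime n (N : ℤ)) :
    PrI (sp (n : OO k)) N := ((h6 k).2.2.2.1 N _ (by omega)).2 ((G1_cop_int n N).2 h)

private theorem G1_congr [SqK k] (h6 : S_O6) (h7 : S_O7) {f : ℕ} {χ : Ideal (OO k) → Om}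
    (hχ : IsChi f χ) (hf : 2 ≤ f) {a b : ℤ} (ha : IsCoprime a (f : ℤ)) (hb : IsCoprime b (f : ℤ))
    (hab : (f : ℤ) ∣ a - b) : χ (sp (a : OO k)) = χ (sp (b : OO k)) := by
  refine hχ.ray _ _ (G1_sp_ne hf ha) (G1_sp_ne hf hb) (G1_sp_pri h6 hf ha) (G1_sp_pri h6 hf hb) ?_
  refine ((h7 k f (by omega)).2.2.2.2.2.2.2.1 _ _ (G1_int_ne hf ha) (G1_int_ne hf hb)
    ((G1_cop_int a f).2 ha) ((G1_cop_int b f).2 hb)).2 (Or.inl ?_)
  obtain ⟨c, hc⟩ := hab
  refine ⟨(c : OO k), ?_⟩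
  rw [← Int.cast_sub, hc]
  push_cast
  ring

private theorem G1_val {M : ℕ} [NeZero M] (d : ℤ) : (M : ℤ) ∣ ((d : ZMod M).val : ℤ) - d := by
  rw [← ZMod.intCast_zmod_eq_zero_iff_dvd]
  push_cast
  rw [ZMod.natCast_zmod_val, sub_self]

private theorem G1_unit {M : ℕ} [NeZero M] {x : ZMod M} (h : IsUnit x) :
    IsCoprime ((x.val : ℕ) : ℤ) (M : ℤ) := by
  rw [← ZMod.natCast_zmod_val x] at h
  exact Nat.isCoprime_iff_coprime.2 ((ZMod.isUnit_iff_coprime x.val M).1 h)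

private theorem G1_cc {M : ℤ} {a b : ℤ} (h : M ∣ a - b) (hb : IsCoprime b M) : IsCoprime a M := by
  obtain ⟨c, hc⟩ := h
  have h1 : a = b + M * c := by linarith
  rw [h1]
  exact (IsCoprime.add_mul_left_left_iff).2 hb

open Classical in
/-- The character modulo `P` on `ZMod M`. -/
private def G1_char [SqK k] {f M : ℕ} {χ : Ideal (OO k) → Om} (h6 : S_O6) (h7 : S_O7) (hC : C_Chi)
    (hχ : IsChi f χ) (hf : Odd f) (h3 : 3 ≤ f) (hM : f ∣ M) {P : Ideal ZZ} (hP : P.IsPrime)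
    (h0 : P ≠ ⊥) [NeZero M] : MulChar (ZMod M) (DI.F.RF hP h0) where
  toFun x := if IsUnit x then DI.F.red hP h0 (χ (sp (((x.val : ℕ) : ℤ) : OO k))) else 0
  map_one' := by
    have hfM : (f : ℤ) ∣ (M : ℤ) := Int.natCast_dvd_natCast.2 hM
    rw [if_pos isUnit_one]
    have e1 : (f : ℤ) ∣ (((1 : ZMod M).val : ℕ) : ℤ) - 1 := by
      have h := G1_val (M := M) 1
      rw [Int.cast_one] at h
      exact hfM.trans h
    rw [G1_congr h6 h7 hχ (by omega) (G1_cc e1 isCoprime_one_left) isCoprime_one_left e1]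
    have e2 : sp (((1 : ℤ) : ℤ) : OO k) = ⊤ := by
      rw [Int.cast_one]
      exact Ideal.span_singleton_one
    rw [e2, (hC k f χ hf h3 hχ).1, DI.F.red_one]
  map_mul' x y := by
    have hfM : (f : ℤ) ∣ (M : ℤ) := Int.natCast_dvd_natCast.2 hM
    have hfM' : ∀ {a : ℤ}, IsCoprime a (M : ℤ) → IsCoprime a (f : ℤ) := fun h =>
      h.of_isCoprime_of_dvd_right hfM
    have hvp : ∀ {a : ℤ}, IsCoprime a (f : ℤ) → VP P (χ (sp (a : OO k))) := fun {a} ha =>
      ((hC k f χ hf h3 hχ).2.2.2.2.1 P _ ⟨hP, h0⟩ (G1_sp_ne (by omega) ha)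
        (G1_sp_pri h6 (by omega) ha)).1
    by_cases hx : IsUnit x
    · by_cases hy : IsUnit y
      · rw [if_pos hx, if_pos hy, if_pos (hx.mul hy)]
        have cx := hfM' (G1_unit hx)
        have cy := hfM' (G1_unit hy)
        have e1 : (f : ℤ) ∣ (((x * y).val : ℕ) : ℤ) - ((x.val : ℕ) : ℤ) * ((y.val : ℕ) : ℤ) := by
          refine hfM.trans ?_
          rw [← ZMod.intCast_zmod_eq_zero_iff_dvd]
          push_cast
          rw [ZMod.natCast_zmod_val, ZMod.natCast_zmod_val, ZMod.natCast_zmod_val, sub_self]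
        rw [G1_congr h6 h7 hχ (by omega) (G1_cc e1 (cx.mul_left cy)) (cx.mul_left cy) e1]
        have e2 : sp ((((x.val : ℕ) : ℤ) * ((y.val : ℕ) : ℤ) : ℤ) : OO k) =
            sp (((x.val : ℕ) : ℤ) : OO k) * sp (((y.val : ℕ) : ℤ) : OO k) := by
          rw [Int.cast_mul]
          exact (Ideal.span_singleton_mul_span_singleton _ _).symm
        rw [e2, hχ.mul, DI.F.red_mul hP h0 (hvp cx) (hvp cy)]
      · rw [if_neg hy, if_neg (fun h => hy (isUnit_of_mul_isUnit_right h)), mul_zero]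
    · rw [if_neg hx, if_neg (fun h => hx (isUnit_of_mul_isUnit_left h)), zero_mul]
  map_nonunit' x hx := if_neg hx

private theorem G1_char_int [SqK k] {f M : ℕ} {χ : Ideal (OO k) → Om} (h6 : S_O6) (h7 : S_O7)
    (hC : C_Chi) (hχ : IsChi f χ) (hf : Odd f) (h3 : 3 ≤ f) (hM : f ∣ M) {P : Ideal ZZ}
    (hP : P.IsPrime) (h0 : P ≠ ⊥) [NeZero M] {d : ℤ} (hd : IsCoprime d (M : ℤ)) :
    G1_char h6 h7 hC hχ hf h3 hM hP h0 (d : ZMod M) = DI.F.red hP h0 (χ (sp (d : OO k))) := by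
  have hu : IsUnit (d : ZMod M) := (ZMod.coe_int_isUnit_iff_isCoprime d M).2 hd.symm
  have hfM : (f : ℤ) ∣ (M : ℤ) := Int.natCast_dvd_natCast.2 hM
  have hdf : IsCoprime d (f : ℤ) := hd.of_isCoprime_of_dvd_right hfM
  have e1 : (f : ℤ) ∣ ((((d : ZMod M)).val : ℕ) : ℤ) - d := hfM.trans (G1_val d)
  change (if IsUnit (d : ZMod M) then
    DI.F.red hP h0 (χ (sp (((((d : ZMod M)).val : ℕ) : ℤ) : OO k))) else 0) = _
  rw [if_pos hu, G1_congr h6 h7 hχ (by omega) (G1_cc e1 hdf) hdf e1]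

private theorem G1_den {M : ℕ} {r : ℚ} (h : _root_.DI.V.QM M r) : r.den.Coprime M := by
  obtain ⟨p, q, hq, rfl⟩ := h
  have h1 : (((p : ℚ) / q).den : ℤ) ∣ q := by
    have h2 := Rat.den_dvd p q
    rwa [Rat.divInt_eq_div] at h2
  exact Nat.isCoprime_iff_coprime.1 (hq.of_isCoprime_of_dvd_left h1)

theorem tG1 : S_G1 := by
  classical
  intro hO2 hO4 hO6 hO7 hK4 hK5 hK6 hF hC k _ f m R χ P hy hmt hR hχ hAb
  obtain ⟨hf, h3, hmb, hm2, hmf⟩ := hy
  by_contra hcon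
  push Not at hcon
  obtain ⟨⟨hP, h0⟩, h2P, hw⟩ := hAb
  have hAb : AbP k P := ⟨⟨hP, h0⟩, h2P, hw⟩
  have hf0 : 0 < f := by omega
  have hDo : Odd (Dk k) := by
    have h1 : 1 ≤ k := SqK.pos
    unfold Dk
    exact ⟨4 * k - 1, by omega⟩
  have hNo : Odd (NI m) := Nat.coprime_two_right.1 (((hO6 k).2.2.1 2 m (by norm_num)).1 hm2)
  set M : ℕ := MM k f m with hMdef
  have hMo : Odd M := (hDo.mul hf.pow).mul hNo
  have hM0 : 0 < M := hMo.pos
  have hfM : f ∣ M := ⟨Dk k * f * NI m, by rw [hMdef, MM]; ring⟩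
  have hM3 : 3 ≤ M := h3.trans (Nat.le_of_dvd hM0 hfM)
  have hM2 : 2 ≤ M := by omega
  have hNZ : NeZero M := ⟨hM0.ne'⟩
  have hvχ : ∀ b : Ideal (OO k), b ≠ ⊥ → PrI b f → VP P (χ b) := fun b hb hb' =>
    ((hC k f χ hf h3 hχ).2.2.2.2.1 P b ⟨hP, h0⟩ hb hb').1
  have hvp : ∀ r : ℚ, _root_.DI.V.QM M r → VP P (etaX f m R χ r) := by
    intro r hr
    refine DI.F.vp_sum hP _ _ fun b hb => ?_
    obtain ⟨hb1, hb2⟩ := hR.mem b hb
    exact DI.F.vp_mul hP (hvχ b hb1 hb2)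
      (hK6 k f m b hf h3 hmb hm2 hmf hb1 hb2 P ⟨hP, h0⟩ h2P r (G1_den hr))
  have hvpS : ∀ r : ℚ, _root_.DI.V.QM M r → VP P (etas f m R χ r) := fun r hr =>
    DI.F.vp_add hP (hvp r hr) (hvp (-r) hr.neg)
  have hPer : ∀ r : ℚ, etaX f m R χ (r + 1) = etaX f m R χ r := by
    intro r
    refine Finset.sum_congr rfl fun b hb => ?_
    obtain ⟨hb1, hb2⟩ := hR.mem b hb
    rw [hK4 k f m b hf h3 hmb hm2 hmf hb1 hb2]
  obtain ⟨-, -, -, -, -, hNb, -, -, hpb0, -⟩ := hO4 k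
  have hpbf : PrI (ppb k) f := by
    refine ((hO6 k).2.2.1 f _ hf0).2 ?_
    rw [hNb]
    exact Nat.coprime_two_left.2 hf
  have hupb : UP P (χ (ppb k)) := (hC k f χ hf h3 hχ).2.2.2.2.1 P _ ⟨hP, h0⟩ hpb0 hpbf
  let hh : ℚ → DI.F.RF hP h0 := fun r =>
    if _root_.DI.V.QM M r then DI.F.red hP h0 (etas f m R χ r) else 0
  have hhq : ∀ r : ℚ, _root_.DI.V.QM M r → hh r = DI.F.red hP h0 (etas f m R χ r) :=
    fun r hr => if_pos hr
  have hcop : ∀ {a b c d : ℤ}, a * d - b * c = 1 → (M : ℤ) ∣ c → IsCoprime d (M : ℤ) := by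
    intro a b c d hdet hc
    obtain ⟨c', rfl⟩ := hc
    exact ⟨a, -(b * c'), by linear_combination hdet⟩
  let X : _root_.DI.V.Sy M (DI.F.RF hP h0) :=
    { h := hh
      χ := G1_char hO6 hO7 hC hχ hf h3 hfM hP h0
      kb := DI.F.red hP h0 (χ (ppb k))
      odd := hMo
      three := hM3
      kb0 := fun h1 => hupb.2 ((DI.F.red_eq_zero_iff hP h0 hupb.1).1 h1)
      v1 := by
        intro a b c d hdet hc r hr
        have hq1 := _root_.DI.V.QM.mobZ hM2 hdet hc hr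
        have hq2 := _root_.DI.V.QM.mobZ hM2 hdet hc (_root_.DI.V.QM.zero (M := M))
        rw [mul_zero, zero_add, mul_zero, zero_add] at hq2
        have hdM := hcop hdet hc
        have hdf : IsCoprime d (f : ℤ) :=
          hdM.of_isCoprime_of_dvd_right (Int.natCast_dvd_natCast.2 hfM)
        have hχd : VP P (χ (sp (d : OO k))) :=
          hvχ _ (G1_sp_ne (by omega) hdf) (G1_sp_pri hO6 (by omega) hdf)
        have hG : G0 (M : ℤ) a b c d := ⟨hdet, hc⟩
        have hG' : G0 (M : ℤ) a (-b) (-c) d := ⟨by linear_combination hdet, hc.neg_right⟩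
        have e1 := hK5 k f m hf h3 hmb hm2 hmf R χ hR hχ P hAb a b c d hG r (G1_den hr)
        have e2 := hK5 k f m hf h3 hmb hm2 hmf R χ hR hχ P hAb a (-b) (-c) d hG' (-r)
          (G1_den hr.neg)
        have e3 : ((a : ℚ) * -r + ((-b : ℤ) : ℚ)) / (((-c : ℤ) : ℚ) * -r + d) =
            -((a * r + b) / (c * r + d)) := by
          push_cast
          rw [neg_mul_neg, ← neg_div]
          ring
        have e4 : ((-b : ℤ) : ℚ) / d = -(b / d) := by
          push_cast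
          rw [neg_div]
        rw [e3, e4] at e2
        have e5 := DI.F.mp_add hP e1 e2
        rw [hhq _ hq1.2.2, hhq _ hr, hhq _ hq2.2.2, hhq _ _root_.DI.V.QM.zero,
          G1_char_int hO6 hO7 hC hχ hf h3 hfM hP h0 hdM,
          ← DI.F.red_mul hP h0 hχd (hvpS _ hr),
          ← DI.F.red_mul hP h0 hχd (hvpS _ _root_.DI.V.QM.zero),
          ← DI.F.red_sub hP h0 (hvpS _ hq1.2.2) (DI.F.vp_mul hP hχd (hvpS _ hr)),
          ← DI.F.red_sub hP h0 (hvpS _ hq2.2.2)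
            (DI.F.vp_mul hP hχd (hvpS _ _root_.DI.V.QM.zero)),
          DI.F.red_eq_iff hP h0
            (DI.F.vp_sub hP (hvpS _ hq1.2.2) (DI.F.vp_mul hP hχd (hvpS _ hr)))
            (DI.F.vp_sub hP (hvpS _ hq2.2.2)
              (DI.F.vp_mul hP hχd (hvpS _ _root_.DI.V.QM.zero)))]
        have e6 : etas f m R χ ((a * r + b) / (c * r + d)) - χ (sp (d : OO k)) * etas f m R χ r -
            (etas f m R χ (b / d) - χ (sp (d : OO k)) * etas f m R χ 0) =
            etaX f m R χ ((a * r + b) / (c * r + d)) - χ (sp (d : OO k)) * etaX f m R χ r -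
              (etaX f m R χ (b / d) - χ (sp (d : OO k)) * etaX f m R χ 0) +
            (etaX f m R χ (-((a * r + b) / (c * r + d))) - χ (sp (d : OO k)) * etaX f m R χ (-r) -
              (etaX f m R χ (-(b / d)) - χ (sp (d : OO k)) * etaX f m R χ 0)) := by
          unfold etas
          rw [neg_zero]
          ring
        rw [e6]
        exact e5
      v3 := by
        intro r hr
        have hr1 : _root_.DI.V.QM M (r + 1) := hr.add hM2 _root_.DI.V.QM.one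
        rw [hhq _ hr, hhq _ hr1]
        have e1 : etas f m R χ (r + 1) = etas f m R χ r := by
          unfold etas
          have e2 := hPer (-(r + 1))
          have e3 : -(r + 1) + 1 = -r := by ring
          rw [e3] at e2
          rw [hPer, e2]
        rw [e1]
      van := by
        intro y hy
        have hy1 : _root_.DI.V.QM M y := _root_.DI.V.QM.of_A2 hMo hy
        have hy2 : _root_.DI.V.QM M (2 * y) := _root_.DI.V.QM.of_A2 hMo hy.two_mul
        obtain ⟨c, n, rfl⟩ := hy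
        have h1 := hcon c n
        rw [hhq _ hy1, hhq _ hy2, ← DI.F.red_mul hP h0 hupb.1 (hvpS _ hy2),
          ← DI.F.red_add hP h0 (hvpS _ hy1) (DI.F.vp_mul hP hupb.1 (hvpS _ hy2))]
        exact (DI.F.red_eq_zero_iff hP h0 (DI.F.mp_vp h1)).2 h1 }
  obtain ⟨a, b, c, d, hG, hd, hno⟩ := hF k f m hf h3 hmb hmt hm2 hmf R χ hR hχ P hAb
  have hmain := _root_.DI.V.main M (DI.F.RF hP h0) X a b c d hG.1 hG.2 hd
  have hq2 := _root_.DI.V.QM.mobZ hM2 hG.1 hG.2 (_root_.DI.V.QM.zero (M := M))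
  rw [mul_zero, zero_add, mul_zero, zero_add] at hq2
  have h3' : hh (b / d) = hh 0 := hmain
  rw [hhq _ hq2.2.2, hhq _ _root_.DI.V.QM.zero,
    DI.F.red_eq_iff hP h0 (hvpS _ hq2.2.2) (hvpS _ _root_.DI.V.QM.zero)] at h3'
  apply hno
  have h4 : etaX f m R χ (b / d) + etaX f m R χ (-(b / d)) - 2 * etaX f m R χ 0 =
      etas f m R χ (b / d) - etas f m R χ 0 := by
    unfold etas
    rw [neg_zero]
    ring
  rw [h4]
  exact h3'

end Pool.Agent.DK.G
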