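import Pool.Agent.Lib.DK.G.Spec

/-!
# Theorem DK, part G, module GRm (helper80): systems of representatives
-/

set_option autoImplicit false

open scoped Pointwise

noncomputable section

namespace Pool.Agent.DK.G

open Pool.Agent.MuZ Pool.Agent.FW Pool.Agent.DK

/-- Choice of representatives in a finite set. -/
private theorem GRm_rep {α : Type} (Q : α → Prop) (r : α → α → Prop)
    (hr : ∀ x, Q x → r x x) (hs : ∀ x y, Q x → Q y → r x y → r y x) (Y : Finset α)
    (hY : ∀ y ∈ Y, Q y) :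
    ∃ T : Finset α, T ⊆ Y ∧ (∀ y ∈ Y, ∃ t ∈ T, r t y ∨ ∃ y' ∈ Y, r t y' ∧ r y' y) ∧
      ∀ t ∈ T, ∀ t' ∈ T, r t t' → t = t' := by
  classical
  induction Y using Finset.induction_on with
  | empty => exact ⟨∅, Finset.Subset.refl _, by simp, by simp⟩
  | insert y Y hy ih =>
    obtain ⟨T, h1, h2, h3⟩ := ih fun z hz => hY z (Finset.mem_insert_of_mem hz)
    have hQy : Q y := hY y (Finset.mem_insert_self _ _)
    by_cases h : ∃ t ∈ T, r t y
    · refine ⟨T, h1.trans (Finset.subset_insert _ _), ?_, h3⟩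
      intro z hz
      rcases Finset.mem_insert.1 hz with rfl | hz
      · obtain ⟨t, ht, htz⟩ := h
        exact ⟨t, ht, Or.inl htz⟩
      · obtain ⟨t, ht, h4⟩ := h2 z hz
        refine ⟨t, ht, ?_⟩
        rcases h4 with h4 | ⟨y', hy', h5⟩
        · exact Or.inl h4
        · exact Or.inr ⟨y', Finset.mem_insert_of_mem hy', h5⟩
    · refine ⟨insert y T, Finset.insert_subset_insert _ h1, ?_, ?_⟩
      · intro z hz
        rcases Finset.mem_insert.1 hz with rfl | hz
        · exact ⟨z, Finset.mem_insert_self _ _, Or.inl (hr z hQy)⟩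
        · obtain ⟨t, ht, h4⟩ := h2 z hz
          refine ⟨t, Finset.mem_insert_of_mem ht, ?_⟩
          rcases h4 with h4 | ⟨y', hy', h5⟩
          · exact Or.inl h4
          · exact Or.inr ⟨y', Finset.mem_insert_of_mem hy', h5⟩
      · intro t ht t' ht' hrr
        rcases Finset.mem_insert.1 ht with e | ht
        · rcases Finset.mem_insert.1 ht' with e' | ht'
          · rw [e, e']
          · exfalso
            rw [e] at hrr
            exact h ⟨t', ht', hs _ _ hQy (hY _ (Finset.mem_insert_of_mem (h1 ht'))) hrr⟩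
        · rcases Finset.mem_insert.1 ht' with e' | ht'
          · exfalso
            rw [e'] at hrr
            exact h ⟨t, ht, hrr⟩
          · exact h3 t ht t' ht' hrr

/-- Representatives for an equivalence relation. -/
private theorem GRm_rep' {α : Type} (Q : α → Prop) (r : α → α → Prop)
    (hr : ∀ x, Q x → r x x) (hs : ∀ x y, Q x → Q y → r x y → r y x)
    (ht : ∀ x y z, Q x → Q y → Q z → r x y → r y z → r x z) (Y : Finset α)
    (hY : ∀ y ∈ Y, Q y) :
    ∃ T : Finset α, T ⊆ Y ∧ (∀ y ∈ Y, ∃ t ∈ T, r t y) ∧ ∀ t ∈ T, ∀ t' ∈ T, r t t' → t = t' := by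
  obtain ⟨T, h1, h2, h3⟩ := GRm_rep Q r hr hs Y hY
  refine ⟨T, h1, ?_, h3⟩
  intro y hy
  obtain ⟨t, htT, h4⟩ := h2 y hy
  refine ⟨t, htT, ?_⟩
  rcases h4 with h4 | ⟨y', hy', h5, h6⟩
  · exact h4
  · exact ht _ _ _ (hY _ (h1 htT)) (hY _ hy') (hY _ hy) h5 h6

theorem tGRm : S_GRm := by
  classical
  intro hO2 hO6 hO7 hCop hHNf hV0 hR2 k _ f N hf hf3
  obtain ⟨-, -, -, o2nm, o2mul, o2bot, -, -⟩ := hO2 k
  obtain ⟨o6mul, o6N, o6co, o6sp, -⟩ := hO6 k
  obtain ⟨rfl7, sym7, tra7, mul7, -, -, -, sp7, -, -⟩ := hO7 k f (by omega)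
  obtain ⟨-, -, -, -, -, cinv, -, -, -, -⟩ := hCop k
  obtain ⟨⟨hf1, -, -, -⟩, hfmul, -, -, hNc, hfinv, -, hfc, -, -⟩ := hHNf k f N
  have hf0 : 0 < f := by omega
  have e1 : sp (1 : OO k) = ⊤ := Ideal.span_singleton_one
  have spm : ∀ v u : OO k, sp v * sp u = sp (v * u) := fun v u =>
    Ideal.span_singleton_mul_span_singleton v u
  have tm : ∀ a : Ideal (OO k), ⊤ * a = a := fun a => Ideal.top_mul a
  refine ⟨?_, ?_⟩
  · -- the representatives `T`
    set M : ℕ := f * 2 ^ N with hM
    have hM0 : 0 < M := by positivity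
    set W : Finset (OO k) := (Finset.range (2 * M) ×ˢ Finset.range (2 * M)).image
      (fun p : ℕ × ℕ => (⟨(p.1 : ℤ), (p.2 : ℤ)⟩ : OO k)) with hW
    have hcov : ∀ v : OO k, HN f N v → Cop v (2 * f) →
        ∃ u ∈ W.filter (fun u => HN f N u ∧ Cop u (2 * f)), (M : OO k) ∣ v - u := by
      intro v hv hc
      set u : OO k := ⟨v.re % (2 * M : ℕ), v.im % (2 * M : ℕ)⟩ with hu
      have hd : ((2 * M : ℕ) : OO k) ∣ v - u := by
        rw [nat_dvd_iff, QuadraticAlgebra.re_sub, QuadraticAlgebra.im_sub]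
        exact ⟨Int.dvd_self_sub_emod, Int.dvd_self_sub_emod⟩
      have hdM : (M : OO k) ∣ v - u := by
        refine dvd_trans ?_ hd
        exact_mod_cast Nat.cast_dvd_cast (α := OO k) (Dvd.intro_left 2 rfl : M ∣ 2 * M)
      have h2M : (0 : ℤ) < (2 * M : ℕ) := by exact_mod_cast (by omega : 0 < 2 * M)
      refine ⟨u, ?_, hdM⟩
      rw [Finset.mem_filter]
      refine ⟨?_, ?_, ?_⟩
      · rw [hW, Finset.mem_image]
        refine ⟨((v.re % (2 * M : ℕ)).toNat, (v.im % (2 * M : ℕ)).toNat), ?_, ?_⟩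
        · rw [Finset.mem_product, Finset.mem_range, Finset.mem_range]
          have a1 := Int.emod_nonneg v.re h2M.ne'
          have a2 := Int.emod_lt_of_pos v.re h2M
          have a3 := Int.emod_nonneg v.im h2M.ne'
          have a4 := Int.emod_lt_of_pos v.im h2M
          constructor
          · show (v.re % (2 * M : ℕ)).toNat < 2 * M
            omega
          · show (v.im % (2 * M : ℕ)).toNat < 2 * M
            omega
        · have a1 := Int.toNat_of_nonneg (Int.emod_nonneg v.re h2M.ne')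
          have a3 := Int.toNat_of_nonneg (Int.emod_nonneg v.im h2M.ne')
          exact ext' a1 a3
      · refine hNc v u ?_ hv
        rw [← neg_sub]
        exact (dvd_neg).2 hdM
      · refine cop_congr ?_ hc
        refine dvd_trans ?_ hd
        have : 2 * f ∣ 2 * M := Nat.mul_dvd_mul_left 2 ⟨2 ^ N, hM⟩
        exact_mod_cast Nat.cast_dvd_cast (α := OO k) this
    obtain ⟨T, h1, h2, h3⟩ := GRm_rep' (fun _ : OO k => True)
      (fun v u : OO k => (M : OO k) ∣ v - u ∨ (M : OO k) ∣ v + u)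
      (fun x _ => Or.inl (by rw [sub_self]; exact dvd_zero _))
      (fun x y _ _ h => by
        rcases h with h | h
        · left
          rw [← neg_sub]
          exact (dvd_neg).2 h
        · right
          rw [add_comm]
          exact h)
      (fun x y z _ _ _ h h' => by
        rcases h with h | h <;> rcases h' with h' | h'
        · left
          have := dvd_add h h'
          rwa [sub_add_sub_cancel] at this
        · right
          have := dvd_add h h'
          have e : x - y + (y + z) = x + z := by ring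
          rwa [e] at this
        · right
          have := dvd_sub h h'
          have e : x + y - (y - z) = x + z := by ring
          rwa [e] at this
        · left
          have := dvd_sub h h'
          have e : x + y - (y + z) = x - z := by ring
          rwa [e] at this)
      (W.filter (fun u => HN f N u ∧ Cop u (2 * f))) (fun _ _ => trivial)
    refine ⟨T, ⟨fun h hh => (Finset.mem_filter.1 (h1 hh)).2, ?_, h3⟩⟩
    intro v hv hc
    obtain ⟨u, hu, hvu⟩ := hcov v hv hc
    obtain ⟨t, ht, htu⟩ := h2 u hu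
    refine ⟨t, ht, ?_⟩
    rcases htu with h | h
    · left
      have := dvd_sub hvu h
      have e : v - u - (t - u) = v - t := by ring
      rwa [e] at this
    · right
      have := dvd_add hvu h
      have e : v - u + (t + u) = v + t := by ring
      rwa [e] at this
  · -- the representatives `D`
    obtain ⟨⟨R, hR, hR2f⟩, -, -⟩ := hR2 k f hf hf3
    have hHPsp : ∀ v : OO k, v ≠ 0 → Hf f v → HP f (sp v) := fun v hv hh => ⟨v, hv, hh, rfl7 _⟩
    have hc : ∀ b ∈ R, ∃ c : Ideal (OO k), c ≠ ⊥ ∧ PrI c (2 * f) ∧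
        (2 : ℤ) ^ N ∣ (NI c : ℤ) - 1 ∧ Ray f b c := by
      intro b hb
      have hb0 : b ≠ ⊥ := (hR.mem b hb).1
      have hb2f := hR2f b hb
      have hb2 : (NI b).Coprime 2 := (o6co 2 b (by norm_num)).1 ((o6N 2 f b).1 hb2f).1
      have hco : IsCoprime (NI b : ℤ) (2 ^ (N + 1) : ℤ) := by
        have : IsCoprime (NI b : ℤ) (2 : ℤ) := by exact_mod_cast Nat.isCoprime_iff_coprime.2 hb2
        exact this.pow_right
      obtain ⟨a, y, hay⟩ := hco
      have hao : Odd a := by
        rcases Int.even_or_odd a with he | ho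
        · exfalso
          have : Even (a * (NI b : ℤ) + y * 2 ^ (N + 1)) :=
            (he.mul_right _).add ⟨y * 2 ^ N, by ring⟩
          rw [hay] at this
          exact absurd this (by decide)
        · exact ho
      obtain ⟨v, hv0, hvf, hvN, hvc⟩ := hV0 k f N a hf hao
      have hvcf : Cop v f := cop_dvd hvc (Dvd.intro_left 2 rfl)
      refine ⟨sp v * b, ?_, ?_, ?_, ?_⟩
      · intro h
        have h1 : NI (sp v * b) = 0 := (o2bot _).2 h
        rw [o2mul] at h1
        rcases Nat.mul_eq_zero.1 h1 with h1 | h1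
        · have h2 := o2nm v
          rw [h1] at h2
          exact hv0 (Nm_eq_zero (by rw [← h2]; norm_num))
        · exact hb0 ((o2bot _).1 h1)
      · rw [o6mul]
        exact ⟨(o6sp _ _ (by omega)).2 hvc, hb2f⟩
      · rw [o2mul, Nat.cast_mul, o2nm]
        have e : Nm v * (NI b : ℤ) - 1 = (Nm v - a) * NI b - 2 ^ N * (2 * y) := by
          have : (2 : ℤ) ^ (N + 1) = 2 ^ N * 2 := pow_succ _ _
          rw [this] at hay
          linear_combination hay
        rw [e]
        exact dvd_sub (hvN.mul_right _) (dvd_mul_right _ _)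
      · have h1 : Ray f (sp (1 : OO k)) (sp v) :=
          sym7 _ _ ((sp7 v 1 hv0 one_ne_zero hvcf (cop_one f)).2 (Or.inl hvf))
        have h2 := mul7 _ _ _ _ h1 (rfl7 b)
        rwa [e1, tm] at h2
    choose! c hc0 hc2f hcN hcR using hc
    obtain ⟨D, h1, h2, h3⟩ := GRm_rep' (fun b : Ideal (OO k) => b ≠ ⊥ ∧ PrI b f)
      (fun b b' : Ideal (OO k) => ∃ a : Ideal (OO k), HP f a ∧ Ray f b' (a * b))
      (fun x _ => ⟨sp 1, hHPsp 1 one_ne_zero hf1, by rw [e1, tm]; exact rfl7 _⟩)
      (fun x y _ _ h => by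
        obtain ⟨a, ⟨v, hv0, hv, hav⟩, hr⟩ := h
        obtain ⟨u, hu0, huc, huv⟩ := cinv v f hf0 (hfc v hv)
        have hu : Hf f u := hfinv v u hv huv
        refine ⟨sp u, hHPsp u hu0 hu, ?_⟩
        -- `sp u * y ~ sp u * (a * x) ~ sp u * (sp v * x) = sp (u v) * x ~ x`
        have s1 : Ray f (sp u * y) (sp u * (a * x)) := mul7 _ _ _ _ (rfl7 _) hr
        have s2 : Ray f (sp u * (a * x)) (sp u * (sp v * x)) :=
          mul7 _ _ _ _ (rfl7 _) (mul7 _ _ _ _ hav (rfl7 _))
        have s3 : Ray f (sp u * (sp v * x)) x := by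
          rw [← mul_assoc, spm]
          have h0 : u * v ≠ 0 := mul_ne_zero hu0 hv0
          have s4 : Ray f (sp (u * v)) (sp 1) :=
            (sp7 _ _ h0 one_ne_zero (cop_mul huc (hfc v hv)) (cop_one f)).2
              (Or.inl (by rw [mul_comm u v]; exact huv))
          have s5 := mul7 _ _ _ _ s4 (rfl7 x)
          rwa [e1, tm] at s5
        exact sym7 _ _ (tra7 _ _ _ s1 (tra7 _ _ _ s2 s3)))
      (fun x y z _ _ _ h h' => by
        obtain ⟨a, ⟨v, hv0, hv, hav⟩, hr⟩ := h
        obtain ⟨a', ⟨v', hv0', hv', hav'⟩, hr'⟩ := h'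
        refine ⟨a' * a, ⟨v' * v, mul_ne_zero hv0' hv0, hfmul _ _ hv' hv, ?_⟩, ?_⟩
        · have s1 := mul7 _ _ _ _ hav' hav
          change Ray f (a' * a) (sp v' * sp v) at s1
          rw [spm] at s1
          exact s1
        · have s1 : Ray f (a' * y) (a' * (a * x)) := mul7 _ _ _ _ (rfl7 _) hr
          have s2 := tra7 _ _ _ hr' s1
          rwa [← mul_assoc] at s2)
      (R.image c) (by
        intro y hy
        obtain ⟨b, hb, rfl⟩ := Finset.mem_image.1 hy
        exact ⟨hc0 b hb, ((o6N 2 f _).1 (hc2f b hb)).2⟩)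
    refine ⟨D, ⟨?_, ?_, h3⟩⟩
    · intro x hx
      obtain ⟨b, hb, rfl⟩ := Finset.mem_image.1 (h1 hx)
      exact ⟨hc0 b hb, hc2f b hb, Or.inl (hcN b hb)⟩
    · intro b hb0 hbf
      obtain ⟨b', hb', hbb'⟩ := hR.ex b hb0 hbf
      obtain ⟨t, ht, a, ha, hr⟩ := h2 (c b') (Finset.mem_image_of_mem c hb')
      exact ⟨t, ht, a, ha, tra7 _ _ _ (tra7 _ _ _ hbb' (hcR b' hb')) hr⟩

end Pool.Agent.DK.G
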