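import Pool.Agent.Lib.DK.G.Spec

/-!
# Theorem DK, part G, module RUp: lifting a ray equivalence to a larger modulus
-/

set_option autoImplicit false

open scoped Pointwise

noncomputable section

namespace Pool.Agent.DK.G

open Pool.Agent.MuZ Pool.Agent.FW Pool.Agent.DK

theorem tRUp : S_RUp := by
  intro hO6 hCop k _ f n b b' hf hn hb hb' hbP hb'P hR
  obtain ⟨hmul, hNN, hNI, hsp, hel⟩ := hO6 k
  obtain ⟨c1, c2, c3, c4, c5, c6, c7, c8, c9, c10⟩ := hCop k
  have hfn : 0 < f * n := Nat.mul_pos hf hn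
  obtain ⟨v, hv, hv0, hv1⟩ := hel (f * n) b' hfn hb' hb'P
  obtain ⟨c, hc⟩ : b' ∣ sp v := Ideal.dvd_iff_le.2 ((Ideal.span_singleton_le_iff_mem b').2 hv)
  obtain ⟨α, α', hα0, hα'0, hαc, hα'c, hαα', he⟩ := hR
  have hspm : ∀ x y : OO k, sp (x * y) = sp x * sp y := fun x y =>
    (Ideal.span_singleton_mul_span_singleton x y).symm
  have he' : sp α * b' = sp α' * b := he
  have h1 : sp (α * v) = sp α' * (b * c) := by
    rw [hspm, hc, ← mul_assoc, he', mul_assoc]
  obtain ⟨x, hx⟩ : α' ∣ α * v := by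
    apply Ideal.mem_span_singleton.1
    have h3 : sp (α * v) ≤ sp α' := by
      rw [h1]
      exact Ideal.mul_le_left
    exact h3 (Ideal.mem_span_singleton_self (α * v))
  have hα'b : sp α' ≠ ⊥ := by
    intro h
    exact hα'0 (Ideal.span_singleton_eq_bot.1 h)
  have h2 : b * c = sp x := by
    apply mul_left_cancel₀ hα'b
    rw [← h1, hx, hspm]
  have hx0 : x ≠ 0 := by
    intro h
    rw [h, mul_zero] at hx
    exact mul_ne_zero hα0 hv0 hx
  have hvc : Cop v (f * n) := by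
    have h4 : ((f * n : ℕ) : OO k) ∣ 1 - v := by
      rw [← neg_sub]
      exact (dvd_neg).2 hv1
    exact cop_congr h4 (cop_one _)
  have hPv : PrI (b' * c) (f * n) := by
    rw [← hc]
    exact (hsp _ v hfn).2 hvc
  have hPc : PrI c (f * n) := ((hmul _ b' c).1 hPv).2
  have hPx : Cop x (f * n) := by
    apply (hsp _ x hfn).1
    rw [← h2]
    exact (hmul _ b c).2 ⟨hbP, hPc⟩
  have hffn : (f : OO k) ∣ ((f * n : ℕ) : OO k) := by
    rw [Nat.cast_mul]
    exact dvd_mul_right _ _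
  have hfx : (f : OO k) ∣ x - 1 := by
    apply c7 α' (x - 1) f hα'c
    have h5 : α' * (x - 1) = α * (v - 1) + (α - α') := by
      rw [mul_sub, ← hx]
      ring
    rw [h5]
    exact dvd_add (dvd_mul_of_dvd_right (hffn.trans hv1) _) hαα'
  obtain ⟨β, hβ0, hβc, hβ⟩ := c6 x (f * n) hfn hPx
  refine ⟨β, hβ0, ?_, hβc, x * β, v, mul_ne_zero hx0 hβ0, hv0, (c1 _ _ _).2 ⟨hPx, hβc⟩, hvc, ?_, ?_⟩
  · have h6 : β - 1 = (x * β - 1) - (x - 1) * β := by ring
    rw [h6]
    exact dvd_sub (hffn.trans hβ) (dvd_mul_of_dvd_left hfx _)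
  · have h7 : x * β - v = (x * β - 1) - (v - 1) := by ring
    rw [h7]
    exact dvd_sub hβ hv1
  · change sp (x * β) * b' = sp v * (sp β * b)
    rw [hspm, ← h2, hc]
    ring

end Pool.Agent.DK.G
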