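import Pool.Agent.Lib.DK.Ded
import Pool.Agent.Lib.DK.IfaceG
import Pool.Agent.Lib.DI.G.Defs

/-!
# Theorem DK, part G (elliptic units and the measure): statements of the modules with proofs

Author helper21 (after `DI/G/Spec.lean` of helper12). Every `C_X` is a statement; `S_X` is the implication
from the statements used to `C_X` (or to an interface statement of `DK/Iface.lean`, `DK/IfaceG.lean`). To be
proved, in the module `DK/G/X.lean`: `theorem tX : S_X`. The docstring of `S_X` contains a complete proof.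

Tools: `DK/Base.lean` (`Nm_mul`, `Nm_congr`, `nat_dvd_iff`, `cop_congr`, `cop_mul`, `cop_inv`, `cop_dvd`, `toC_..`, `toO_..`,
`lam_..`, `tor_..`, `GK_toO`), `DK/Ded.lean` (instances: `OO k` is a domain, a Dedekind domain), `DI/Val.lean`
(`VP.add`, `MP.mul_cases`, `UP.prod`, ...; `have := hP.1` for the instance `P.IsPrime`). `TP P t x`: `x ∈ t V_P`.
Many modules are adaptations of the module with the same name in `DI/G/` or `DI/G/L/` (copy and change).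
`Cop` is multiplicative in both arguments: `IsCoprime.mul_left_iff`, `IsCoprime.mul_right_iff`, `Nm_mul`.

Notation: `M = f * 2 ^ N`, `z_h = toC h / M`, `pp = (2, w)`, `ppb = (2, 1 - w)`.
-/

set_option autoImplicit false

open scoped Pointwise

noncomputable section

namespace Pool.Agent.DK.G

open Pool.Agent.MuZ Pool.Agent.FW Pool.Agent.DK
open Pool.Agent.DI (io ofC io_inj exists_io io_ofC ofC_io VP MP UP TP ex sqr sqr_sq kap)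
open Pool.Agent.DI.G (Unr)

variable {k : ℕ}

/-! ## Definitions -/

/-- `g` modulo `2`: the sum of `X(z)/(X(z) - X(u))` over a half system of `E[m]`. -/
def gt (m b : Ideal (OO k)) (z : ℂ) : Om := ∑ u ∈ hs m b, xO b z * (xO b z - xO b u)⁻¹

/-- `D(u) = (s(u)/u - 1)/2`. -/
def Dw (s : Gal(Om/ℚ)) (u : Om) : Om := (s u / u - 1) / 2

/-- `a_N = 1 + 2^(N-1) f (1 - w)`. -/
def aN (k f N : ℕ) : OO k := ⟨1 + 2 ^ (N - 1) * f, -(2 ^ (N - 1) * f)⟩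

/-- `β = 1 + f (x + y w)`. -/
def bt (k f : ℕ) (x y : ℕ) : OO k := ⟨1 + f * x, f * y⟩

/-- A set of representatives modulo `M` and `± 1` for the elements with `H`. -/
structure IsRp (M : ℕ) (H : OO k → Prop) (T : Finset (OO k)) : Prop where
  mem : ∀ h ∈ T, H h
  ex : ∀ v : OO k, H v → ∃ h ∈ T, (M : OO k) ∣ v - h ∨ (M : OO k) ∣ v + h
  uni : ∀ h ∈ T, ∀ h' ∈ T, ((M : OO k) ∣ h - h' ∨ (M : OO k) ∣ h + h') → h = h'

theorem isRep_iff {f N : ℕ} {T : Finset (OO k)} :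
    IsRep f N T ↔ IsRp (f * 2 ^ N) (fun v => HN f N v ∧ Cop v (2 * f)) T :=
  ⟨fun h => ⟨h.mem, fun v hv => h.ex v hv.1 hv.2, h.uni⟩,
    fun h => ⟨h.mem, fun v h1 h2 => h.ex v ⟨h1, h2⟩, h.uni⟩⟩

/-- A set of representatives modulo `M` of the ray classes with `C`. -/
structure IsRI (M : ℕ) (C : Ideal (OO k) → Prop) (B : Finset (Ideal (OO k))) : Prop where
  mem : ∀ b ∈ B, C b
  ex : ∀ b : Ideal (OO k), C b → ∃ b' ∈ B, Ray M b b'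
  uni : ∀ b ∈ B, ∀ b' ∈ B, Ray M b b' → b = b'

/-- The ideals prime to `2 f` with norm `± 1` modulo `2 ^ N`. -/
def CN (f N : ℕ) (b : Ideal (OO k)) : Prop :=
  b ≠ ⊥ ∧ PrI b (2 * f) ∧ ((2 : ℤ) ^ N ∣ (NI b : ℤ) - 1 ∨ (2 : ℤ) ^ N ∣ (NI b : ℤ) + 1)

/-- `a` and `b` are `±` each other modulo `2 ^ N`. -/
def Pm (N : ℕ) (a b : ℤ) : Prop := (2 : ℤ) ^ N ∣ a - b ∨ (2 : ℤ) ^ N ∣ a + b

open Classical in
/-- `S_N(a)`: the sum of `χ(b) g(b, β/(f 2^N))`, `b ∈ R`, `β` modulo `f 2^N`, `β = 1` modulo `f`,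
`N m N b N β = ± a` modulo `2 ^ N`. -/
def SSN (f : ℕ) (m : Ideal (OO k)) (N : ℕ) (R : Finset (Ideal (OO k))) (χ : Ideal (OO k) → Om)
    (a : ℤ) : Om :=
  ∑ b ∈ R, χ b * ∑ x ∈ Finset.range (2 ^ N), ∑ y ∈ Finset.range (2 ^ N),
    if Pm N (NI m * NI b * Nm (bt k f x y)) a then gO f m b (toC (bt k f x y) / (f * 2 ^ N : ℕ))
    else 0

/-- The hypotheses on `f` and `m`. -/
structure Hy (f : ℕ) (m : Ideal (OO k)) : Prop where
  odd : Odd f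
  three : 3 ≤ f
  ne : m ≠ ⊥
  two : PrI m 2
  cop : PrI m f

/-! ## 1. Elements of `O` -/

/-- Coprimality, inverses, odd lifts. -/
def C_Cop : Prop :=
  ∀ (k : ℕ) [SqK k], (∀ (v u : OO k) (M : ℕ), Cop (v * u) M ↔ Cop v M ∧ Cop u M) ∧
    (∀ (v : OO k) (M M' : ℕ), Cop v (M * M') ↔ Cop v M ∧ Cop v M') ∧
    (∀ v : OO k, Cop v 2 ↔ ¬ (2 : ℤ) ∣ Nm v) ∧
    (∀ v : OO k, Cop v 2 ↔ v ∉ pp k ∧ v ∉ ppb k) ∧ (∀ v : OO k, Cop v 2 ↔ (2 : OO k) ∣ v - 1) ∧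
    (∀ (v : OO k) (M : ℕ), 0 < M → Cop v M → ∃ u : OO k, u ≠ 0 ∧ Cop u M ∧ (M : OO k) ∣ v * u - 1) ∧
    (∀ (v u : OO k) (M : ℕ), Cop v M → (M : OO k) ∣ v * u → (M : OO k) ∣ u) ∧
    (∀ (v : OO k) (f : ℕ), Odd f → Cop v f →
      ∃ v' : OO k, v' ≠ 0 ∧ (f : OO k) ∣ v' - v ∧ Cop v' (2 * f)) ∧
    (∀ (f N : ℕ) (v : OO k), Odd f → 1 ≤ N → Cop v (f * 2 ^ N) → Cop v (2 * f)) ∧
    ∀ (f N : ℕ) (v : OO k), Cop v (2 * f) → Cop v (f * 2 ^ N)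

/-- (120 lines) **Cop**. PROOF. `Cop v M` is `IsCoprime (Nm v) M`. `Nm (x + y w) = x² + x y + 2 k y²` is odd iff `x` and `x + y` are
odd; `S_O4`: `v ∈ pp ↔ 2 ∣ v.re`, `v ∈ ppb ↔ 2 ∣ v.re + v.im`; `2 ∣ v - 1` iff `v.re` is odd and `v.im` even (`nat_dvd_iff`). Inverse:
`cop_inv`; if the inverse `u` is `0` then `M ∣ 1` in `O`, so `M = 1` (`nat_dvd_iff`), and take `u = 1`. Cancellation:
`u = (v u') u - (v u' - 1) u`. Odd lift: `v' = v + f (1 - v) = 1 + (f - 1)(1 - v)`: `f ∣ v' - v`, `2 ∣ v' - 1` (`f - 1` is even), `v' ≠ 0`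
since `2 ∤ 1`. The last two claims: `IsCoprime.pow_right_iff`, `mul_right_iff`. -/
def S_Cop : Prop := S_O4 → C_Cop

/-- The groups `H_f`, `H_N`. -/
def C_HNf : Prop :=
  ∀ (k : ℕ) [SqK k] (f N : ℕ),
    (Hf f (1 : OO k) ∧ Hf f (-1 : OO k) ∧ HN f N (1 : OO k) ∧ HN f N (-1 : OO k)) ∧
    (∀ v u : OO k, Hf f v → Hf f u → Hf f (v * u)) ∧
    (∀ v u : OO k, HN f N v → HN f N u → HN f N (v * u)) ∧
    (∀ v u : OO k, (f : OO k) ∣ u - v → Hf f v → Hf f u) ∧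
    (∀ v u : OO k, ((f * 2 ^ N : ℕ) : OO k) ∣ u - v → HN f N v → HN f N u) ∧
    (∀ v u : OO k, Hf f v → (f : OO k) ∣ v * u - 1 → Hf f u) ∧
    (∀ v u : OO k, HN f N v → ((f * 2 ^ N : ℕ) : OO k) ∣ v * u - 1 → HN f N u) ∧
    (∀ v : OO k, Hf f v → Cop v f) ∧ (∀ v : OO k, HN f N v → Cop v (f * 2 ^ N)) ∧
    ∀ v : OO k, HN f (N + 1) v → HN f N v

/-- (120 lines) **HNf**. (`DI/Util/UHN.lean`.) PROOF. `(v u)^(2^j) = 1` modulo `f` with `j` the sum of the exponents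
(`v^(2^j) = 1` implies `v^(2^(j+i)) = 1`). `(-1)^2 = 1`. If `f ∣ u - v` then `f ∣ u^n - v^n`, `cop_congr`. If `v u = 1` modulo `f` then
`u^(2^j) = v^(2^j) u^(2^j) = 1`, and `Cop u f` (`Nm v Nm u = 1` modulo `f`, `Nm_congr`). Norms: products of `± 1` modulo `2^N`; `Nm u = Nm v` modulo
`f 2^N` if `f 2^N ∣ u - v` (`Nm_congr`). `HN f N v` implies `Cop v (2^N)` as `Nm v = ± 1` modulo `2^N`. -/
def S_HNf : Prop := C_Cop → C_HNf

/-- An element `= 1` modulo `f` with given norm modulo `2 ^ N`. -/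
def C_V0 : Prop :=
  ∀ (k : ℕ) [SqK k] (f N : ℕ) (a : ℤ), Odd f → Odd a →
    ∃ v : OO k, v ≠ 0 ∧ (f : OO k) ∣ v - 1 ∧ (2 : ℤ) ^ N ∣ Nm v - a ∧ Cop v (2 * f)

/-- (80 lines) **V0**. PROOF. `v = ⟨1, f y⟩ = 1 + f y w`: `Nm v = 1 + f y + 2 k f² y² =: g(y)`. `g(y) - g(y') = (y - y')(f + 2 k f² (y + y'))` and the
second factor is odd, so `g` is injective on `ZMod (2^(N+1))`, hence surjective (`Finite.injective_iff_surjective`): `y` with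
`2^(N+1) ∣ Nm v - a`. `Nm v` is odd as `a` is odd; `Nm v = 1` modulo `f`. -/
def S_V0 : Prop := C_Cop → C_V0

/-- Sums and products over two systems of representatives; multiplication by an invertible element. -/
def C_Rp : Prop :=
  ∀ (k : ℕ) [SqK k], (∀ (M : ℕ) (H : OO k → Prop) (T T' : Finset (OO k)) (A : Type) [CommMonoid A]
    (F : OO k → A), IsRp M H T → IsRp M H T' →
    (∀ v u : OO k, H v → H u → (M : OO k) ∣ v - u → F v = F u) → (∀ v : OO k, F (-v) = F v) →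
    (∀ v : OO k, H v → H (-v)) → ∏ h ∈ T, F h = ∏ h ∈ T', F h) ∧
  (∀ (M : ℕ) (H : OO k → Prop) (T : Finset (OO k)) (A : Type) [CommMonoid A]
    (F : OO k → A) (a b : OO k), IsRp M H T → (M : OO k) ∣ a * b - 1 → (∀ v, H v → H (a * v)) →
    (∀ v, H v → H (b * v)) → (∀ v u : OO k, H v → H u → (M : OO k) ∣ v - u → F v = F u) →
    (∀ v : OO k, F (-v) = F v) → (∀ v : OO k, H v → H (-v)) → ∏ h ∈ T, F (a * h) = ∏ h ∈ T, F h)

/-- (120 lines) **Rp**. (`DI/G/Rp.lean`.) PROOF. (1) For `h ∈ T` let `e h ∈ T'` with `M ∣ h - e h` or `M ∣ h + e h` (`ex` for `T'`); `e` is injective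
on `T` (`e h = e h'` gives `M ∣ h ∓ h'`, `uni`) and onto `T'` (for `h' ∈ T'` take `h ∈ T` with `M ∣ h' ∓ h`; then `e h = h'` by `uni`), and
`F (e h) = F h` (in the second case `F h = F (-(e h)) = F (e h)`). (2) `T.image (a * ·)` is again `IsRp M H`: `mem`; `ex`: for `H v` take `h ∈ T` with
`M ∣ b v ∓ h`, then `M ∣ v ∓ a h` as `a b = 1` modulo `M`; `uni`: `M ∣ a h ∓ a h'` gives `M ∣ h ∓ h'`. `h ↦ a h` is injective on `T` (same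
argument). Apply (1). -/
def S_Rp : Prop := C_Rp

/-- The number of representatives is even. -/
def C_TEv : Prop :=
  ∀ (k : ℕ) [SqK k] (f N : ℕ) (T : Finset (OO k)), Odd f → 3 ≤ f → 2 ≤ N → IsRep f N T → Even T.card

/-- (80 lines) **TEv**. PROOF. Let `j` be an integer with `j = 1` modulo `f`, `j = -1` modulo `2^N` (coprime moduli). `j² = 1` modulo `f 2^N`,
`(j : O)` is in `HN f N` (norm `j²`). For `h ∈ T` let `e h ∈ T` with `f 2^N ∣ j h ∓ e h` (`ex`; `Cop (j h) (2 f)`). `e (e h) = h`: `j e h = ± j² h = ± h` and `uni`.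
`e h ≠ h`: otherwise `f 2^N ∣ (j ∓ 1) h`, so `f 2^N ∣ j ∓ 1` (C_Cop, cancellation), but `f ∤ j + 1` (`f ∤ 2`) and `2^N ∤ j - 1` (`2^N ∤ 2`).
`Finset.prod_involution` for the constant function `-1 : ℤ` gives `(-1)^card = 1` (or any other argument). -/
def S_TEv : Prop := C_Cop → C_HNf → C_TEv

/-- Two systems modulo `f 2^(N+1)` of the elements of `H_N`. -/
def C_TwR : Prop :=
  ∀ (k : ℕ) [SqK k] (f N : ℕ) (T T' : Finset (OO k)) (a : OO k), Odd f → 3 ≤ f → 2 ≤ N →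
    IsRep f N T → IsRep f (N + 1) T' → HN f N a → Cop a (2 * f) → ¬ HN f (N + 1) a →
    ∀ E : Finset (OO k), E = {0, 1, wI k, 1 + wI k} →
    IsRp (f * 2 ^ (N + 1)) (fun v => HN f N v ∧ Cop v (2 * f)) (T' ∪ T'.image (fun h => a * h)) ∧
    Disjoint T' (T'.image (fun h => a * h)) ∧ Set.InjOn (fun h => a * h) (T' : Set (OO k)) ∧
    IsRp (f * 2 ^ (N + 1)) (fun v => HN f N v ∧ Cop v (2 * f))
      ((T ×ˢ E).image (fun p => p.1 + (f * 2 ^ N : ℕ) * p.2)) ∧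
    Set.InjOn (fun p : OO k × OO k => p.1 + (f * 2 ^ N : ℕ) * p.2)
      ((T ×ˢ E : Finset (OO k × OO k)) : Set (OO k × OO k))

/-- (200 lines) **TwR**. (`DI/G/TwR.lean`.) PROOF. `M' = f 2^(N+1)`. Norms: an element of `HN f N` has norm `±1` or `±1 + 2^N` modulo
`2^(N+1)`; it is in `HN f (N+1)` in the first case only, and the four classes are different (`N ≥ 2`). So `Nm a = ±1 + 2^N`. FIRST
SYSTEM: `mem` by C_HNf. `ex`: `v` with `HN f N v`, `Cop v (2 f)`: in the first case `T'`; otherwise let `b` be an inverse of `a` modulo `M'`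
(C_Cop; `HN f N b` by C_HNf): `Nm (b v) = ±1` modulo `2^(N+1)` and `Hf f (b v)`, so `M' ∣ b v ∓ h` with `h ∈ T'`, `M' ∣ v ∓ a h`. `uni`:
inside `T'`; inside `a T'` (multiply by `b`); `h = ± a h'` modulo `M'` is impossible by the norms; this is also the disjointness.
SECOND SYSTEM: `mem`: `HN f N` and `Cop · (2 f)` are invariant modulo `f 2^N` (`N ≥ 1`). `ex`: `v = ± h + f 2^N x`, so
`v = ± (h + f 2^N (± x))`, and `± x = e` modulo `2` with `e ∈ E` (parities of the coordinates). `uni`: `h + f 2^N e = ± (h' + f 2^N e')`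
modulo `M'` gives `h = h'` (`uni` for `T`); with the sign `+`: `2 ∣ e - e'`, so `e = e'`; with the sign `-`: `f ∣ 2 h`, impossible
(`Cop h f`, `f ≥ 3` odd). -/
def S_TwR : Prop := C_Cop → C_HNf → C_TwR

/-! ## 2. Ray classes -/

/-- Lifting a ray equivalence to a larger modulus. -/
def C_RUp : Prop :=
  ∀ (k : ℕ) [SqK k] (f n : ℕ) (b b' : Ideal (OO k)), 0 < f → 0 < n → b ≠ ⊥ → b' ≠ ⊥ →
    PrI b (f * n) → PrI b' (f * n) → Ray f b' b →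
    ∃ β : OO k, β ≠ 0 ∧ (f : OO k) ∣ β - 1 ∧ Cop β (f * n) ∧ Ray (f * n) b' (sp β * b)

/-- (120 lines) **RUp**. PROOF. `S_O6` (last claim): `v ∈ b'`, `v ≠ 0`, `f n ∣ v - 1`. `sp v ≤ b'`, so `sp v = b' * c` (`Ideal.dvd_iff_le`). Let
`sp α * b' = sp α' * b` with `α, α' ≠ 0` prime to `f`, `f ∣ α - α'`. `sp (α v) = sp α * b' * c = sp α' * (b * c) ≤ sp α'`, so
`α v = α' x`, and cancelling `sp α'`: `b * c = sp x` (`x ≠ 0`). `PrI (sp v) (f n)` (`S_O6` (4), `Nm v = 1` modulo `f n`), so `PrI c (f n)`,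
`PrI (b * c) (f n)`, `Cop x (f n)` (`S_O6`). Modulo `f`: `α' x = α v = α = α'`, so `f ∣ x - 1` (C_Cop, cancellation). `sp x * b' = b * c * b' = sp v * b`.
Let `β ≠ 0` with `f n ∣ x β - 1`, `Cop β (f n)` (C_Cop); `f ∣ β - 1` since `f ∣ x - 1`. `Ray (f n) b' (sp β * b)` by `x β` and `v`:
`sp (x β) * b' = sp β * (sp v * b) = sp v * (sp β * b)`, `f n ∣ x β - v` (both are `1`), `Cop (x β) (f n)`, `Cop v (f n)`. -/
def S_RUp : Prop := S_O6 → C_Cop → C_RUp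

/-- Sums over two systems of representatives of classes. -/
def C_RI : Prop :=
  ∀ (k : ℕ) [SqK k] (M : ℕ) (C : Ideal (OO k) → Prop) (B B' : Finset (Ideal (OO k))) (A : Type)
    [AddCommMonoid A] (F : Ideal (OO k) → A), 0 < M → IsRI M C B → IsRI M C B' →
    (∀ b b' : Ideal (OO k), C b → C b' → Ray M b b' → F b = F b') → ∑ b ∈ B, F b = ∑ b ∈ B', F b

/-- (60 lines) **RI**. PROOF. `e : B → B'` with `Ray M b (e b)`, a bijection by `uni` and `S_O7` (symmetric, transitive); `F (e b) = F b`.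
`Finset.sum_bij`, `Finset.sum_nbij`. -/
def S_RI : Prop := S_O7 → C_RI

/-- Every class modulo `f` contains ideals prime to `2 f`; the sums `etaX` do not depend on `R`; multiplication by `a`. -/
def C_R2 : Prop :=
  ∀ (k : ℕ) [SqK k] (f : ℕ), Odd f → 3 ≤ f →
    (∃ R : Finset (Ideal (OO k)), IsRC f R ∧ ∀ b ∈ R, PrI b (2 * f)) ∧
    (∀ R R' : Finset (Ideal (OO k)), IsRC f R → IsRC f R' → ∀ F : Ideal (OO k) → Om,
      (∀ b b' : Ideal (OO k), b ≠ ⊥ → PrI b f → b' ≠ ⊥ → PrI b' f → Ray f b b' → F b = F b') →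
      ∑ b ∈ R, F b = ∑ b ∈ R', F b) ∧
    ∀ R : Finset (Ideal (OO k)), IsRC f R → ∀ a : Ideal (OO k), a ≠ ⊥ → PrI a f →
      ∀ F : Ideal (OO k) → Om,
      (∀ b b' : Ideal (OO k), b ≠ ⊥ → PrI b f → b' ≠ ⊥ → PrI b' f → Ray f b b' → F b = F b') →
      ∑ b ∈ R, F (a * b) = ∑ b ∈ R, F b

/-- (100 lines) **R2**. PROOF. `IsRC f R` is `IsRI f (fun b => b ≠ ⊥ ∧ PrI b f) R`. FIRST: `S_O7` gives `R0` with `IsRC f R0`; for `b ∈ R0` `S_O8`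
(`N = f`, `M = 2`, `C = fun _ => True`) gives `b' ≠ ⊥`, `PrI b' (f * 2)`, `Ray f b b'`; `R` = the image of `R0` under a choice `b ↦ b'`. SECOND: C_RI.
THIRD: the image of `R` under `b ↦ a * b` is a system of representatives: `ex`: given `b`, `S_O7` gives `a'` with `Ray f (a * a') ⊤`; `b₁ ∈ R` with
`Ray f (a' * b) b₁`; then `Ray f (a * b₁) b`; `uni` and injectivity: cancel `a` (`S_O7`). C_RI. -/
def S_R2 : Prop := S_O6 → S_O7 → S_O8 → C_RI → C_R2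

/-- The classes modulo `f 2^N`: first system. -/
def C_RB : Prop :=
  ∀ (k : ℕ) [SqK k] (f N : ℕ) (R : Finset (Ideal (OO k))), Odd f → 3 ≤ f → 1 ≤ N → IsRC f R →
    (∀ b ∈ R, PrI b (2 * f)) → ∀ I : Finset (Ideal (OO k) × ℕ × ℕ),
    (∀ p, p ∈ I ↔ p.1 ∈ R ∧ p.2.1 < 2 ^ N ∧ p.2.2 < 2 ^ N ∧
      Pm N (NI p.1 * Nm (bt k f p.2.1 p.2.2)) 1) →
    Set.InjOn (fun p : Ideal (OO k) × ℕ × ℕ => sp (bt k f p.2.1 p.2.2) * p.1) (I : Set _) ∧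
    ∀ B : Finset (Ideal (OO k)), (B : Set (Ideal (OO k))) =
      (fun p : Ideal (OO k) × ℕ × ℕ => sp (bt k f p.2.1 p.2.2) * p.1) '' (I : Set _) →
      IsRI (f * 2 ^ N) (CN f N) B

/-- (150 lines) **RB**. PROOF. Let `β = bt k f x y`, so `f ∣ β - 1`, `β ≠ 0`; the condition `Pm` implies that `Nm β` is odd (`N ≥ 1`), so
`Cop β (2 f)`. `mem`: `NI (sp β * b) = Nm β NI b` (`S_O2`), `PrI` by `S_O6`. `ex`: let `CN f N b'`. `IsRC.ex`: `b ∈ R`, `Ray f b' b`. C_RUp (`n = 2^N`):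
`β'` with `f ∣ β' - 1`, `Cop β' (f 2^N)`, `Ray (f 2^N) b' (sp β' * b)`. `β' = 1 + f γ`; let `x, y` be the residues modulo `2^N` of the coordinates
of `γ`: `f 2^N ∣ β' - bt k f x y`, so (`S_O7`) `Ray (f 2^N) b' (sp (bt k f x y) * b)`. The norm condition: `S_O9` for `N := f 2^N` and `S_O2`
(`NI b' = Nm β NI b` modulo `2^N`). INJECTIVITY, `uni`: let `Ray (f 2^N) (sp β * b) (sp β' * b')`. `Ray f (sp β) ⊤` (`S_O7`: `f ∣ β - 1`; `sp 1 = ⊤`), so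
`Ray f b b'`, `b = b'`; cancel `b`: `Ray (f 2^N) (sp β) (sp β')`, so `f 2^N ∣ β - β'` or `f 2^N ∣ β + β'` (`S_O7`); the latter gives `f ∣ 2`. So
`f 2^N ∣ β - β' = f ⟨x - x', y - y'⟩`, `2^N ∣ x - x'`, `y - y'`, and `x = x'`, `y = y'` (`< 2^N`). -/
def S_RB : Prop := S_O2 → S_O6 → S_O7 → S_O9 → C_Cop → C_RUp → C_RB

/-- The classes modulo `f 2^N`: second system. -/
def C_RD : Prop :=
  ∀ (k : ℕ) [SqK k] (f N : ℕ) (T : Finset (OO k)) (D : Finset (Ideal (OO k))), Odd f → 3 ≤ f →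
    1 ≤ N → IsRep f N T → IsDS f N D →
    Set.InjOn (fun p : Ideal (OO k) × OO k => sp p.2 * p.1)
      ((D ×ˢ T : Finset (Ideal (OO k) × OO k)) : Set _) ∧
    ∀ B : Finset (Ideal (OO k)), (B : Set (Ideal (OO k))) =
      (fun p : Ideal (OO k) × OO k => sp p.2 * p.1) '' ((D ×ˢ T : Finset (Ideal (OO k) × OO k)) : Set _) →
      IsRI (f * 2 ^ N) (CN f N) B

/-- (150 lines) **RD**. PROOF. `mem`: `NI (sp h * c) = Nm h NI c = ± 1` modulo `2^N` (`S_O2`), `PrI` by `S_O6`. `ex`: let `CN f N b'`. `IsDS.ex`: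
`c ∈ D`, `HP f a`, `Ray f b' (a * c)`; `Ray f a (sp v)`, `Hf f v`. C_Cop (odd lift): `v' ≠ 0`, `f ∣ v' - v`, `Cop v' (2 f)`; `Hf f v'`, `Ray f (sp v) (sp v')`, so
`Ray f b' (sp v' * c)`. C_RUp (`n = 2^N`): `β` with `Ray (f 2^N) b' (sp β * (sp v' * c))`; `h' = β v'`: `Hf f h'` (`h' = v'` modulo `f`), `Cop h' (2 f)`, and
`NI b' = Nm h' NI c` modulo `2^N` (`S_O9`, `S_O2`), so `Nm h' = ± 1` modulo `2^N`: `HN f N h'`. `IsRep.ex`: `h ∈ T` with `f 2^N ∣ h' ∓ h`, so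
`Ray (f 2^N) b' (sp h * c)` (`S_O7`). `uni`, INJECTIVITY: let `Ray (f 2^N) (sp h * c) (sp h' * c')`. Let `h'' ≠ 0` be an inverse of `h'` modulo `f`
(C_Cop): `Hf f h''`, `Ray f (sp (h'' h) * c) (sp (h'' h') * c')`, `Ray f (sp (h'' h')) ⊤`, so `Ray f c' (sp (h'' h) * c)` and `HP f (sp (h'' h))`: `c = c'` by
`IsDS.uni`. Cancel `c`: `Ray (f 2^N) (sp h) (sp h')`, `f 2^N ∣ h ∓ h'` (`S_O7`), `h = h'` (`IsRep.uni`). (`h ≠ 0` since `Cop h (2 f)`.) -/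
def S_RD : Prop := S_O2 → S_O6 → S_O7 → S_O9 → C_Cop → C_HNf → C_RUp → C_RD

open Classical in
/-- Comparison of the two systems. -/
def C_RS : Prop :=
  ∀ (k : ℕ) [SqK k] (f N : ℕ) (R : Finset (Ideal (OO k))) (T : Finset (OO k))
    (D : Finset (Ideal (OO k))), Odd f → 3 ≤ f → 1 ≤ N → IsRC f R → (∀ b ∈ R, PrI b (2 * f)) →
    IsRep f N T → IsDS f N D → ∀ F : Ideal (OO k) → Om,
    (∀ b b' : Ideal (OO k), CN f N b → CN f N b' → Ray (f * 2 ^ N) b b' → F b = F b') →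
    (∑ b ∈ R, ∑ x ∈ Finset.range (2 ^ N), ∑ y ∈ Finset.range (2 ^ N),
      if Pm N (NI b * Nm (bt k f x y)) 1 then F (sp (bt k f x y) * b) else 0) =
    ∑ c ∈ D, ∑ h ∈ T, F (sp h * c)

/-- (80 lines) **RS**. PROOF. `I` = the filter of `R ×ˢ range (2^N) ×ˢ range (2^N)`; the left side is `∑ p ∈ I, F (sp β_p * p.1)`
(`Finset.sum_product`, `Finset.sum_filter`) `= ∑ b ∈ I.image .., F b` (`Finset.sum_image`, C_RB), the right side is `∑ b ∈ (D ×ˢ T).image .., F b`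
(C_RD). Both images are `IsRI (f 2^N) (CN f N)`: C_RI. -/
def S_RS : Prop := C_RI → C_RB → C_RD → C_RS

/-- (150 lines) **GR**: `S_GR`. PROOF. `T`: the finite set `Y` of the `⟨x, y⟩`, `0 ≤ x, y < 2 f 2^N`, with `HN f N` and `Cop · (2 f)`; every `v` with these
properties is congruent modulo `2 f 2^N` to one of them (C_HNf, `cop_congr`). Choose representatives for the relation `f 2^N ∣ v - u ∨ f 2^N ∣ v + u`
(an equivalence relation): e.g. `Y.image r`, `r v` a chosen element of the nonempty finite set `{u ∈ Y | u ~ v}`, which depends only on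
the class of `v`. (`DI/Util/UEx.lean`.) `D`: `R` from C_R2, ideals prime to `2 f`. For `b ∈ R` let `v_b` be from C_V0 for an odd `a` with
`a NI b = 1` modulo `2^N` (`NI b` is odd, `S_O6`), `c_b = sp v_b * b`: `Ray f b c_b`, `PrI c_b (2 f)`, `NI c_b = 1` modulo `2^N` (`S_O2`). Let `Y` be the set
of the `c_b`. The relation `c ~ c'` iff there is `a` with `HP f a` and `Ray f c' (a * c)` is an equivalence relation on ideals `≠ ⊥` prime to `f`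
(C_HNf and `S_O7`: reflexive: `a = ⊤`; symmetric: `Ray f a (sp v)`, `u ≠ 0` an inverse of `v` modulo `f` (C_Cop), `Ray f (sp (u v)) ⊤`; transitive: products). Choose
representatives as before. -/
def S_GRm : Prop := S_O2 → S_O6 → S_O7 → C_Cop → C_HNf → C_V0 → C_R2 → S_GR

/-- The groups `HP`, `HPN`. -/
def C_HPg : Prop :=
  ∀ (k : ℕ) [SqK k] (f : ℕ), Odd f → 3 ≤ f →
    (HP f (⊤ : Ideal (OO k)) ∧ (∀ a : Ideal (OO k), HP f a → a ≠ ⊥ ∧ PrI a f) ∧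
      (∀ a a' : Ideal (OO k), HP f a → Ray f a a' → HP f a') ∧
      ∀ a a' : Ideal (OO k), HP f a → HP f a' → HP f (a * a')) ∧
    ∀ N : ℕ, HPN f N (⊤ : Ideal (OO k)) ∧
      (∀ a : Ideal (OO k), HPN f N a → a ≠ ⊥ ∧ PrI a (f * 2 ^ N)) ∧
      (∀ a a' : Ideal (OO k), HPN f N a → Ray (f * 2 ^ N) a a' → HPN f N a') ∧
      (∀ a a' : Ideal (OO k), HPN f N a → HPN f N a' → HPN f N (a * a')) ∧
      ∀ a : Ideal (OO k), a ≠ ⊥ → PrI a (f * 2 ^ N) → (HPN f N a ↔ HP f a ∧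
        ((2 : ℤ) ^ N ∣ (NI a : ℤ) - 1 ∨ (2 : ℤ) ^ N ∣ (NI a : ℤ) + 1))

/-- (150 lines) **HPg**. PROOF. `⊤ = sp 1`. All the closure properties: C_HNf and `S_O7` (`Ray` is an equivalence relation compatible with
products; `PrI` and `≠ ⊥` are invariant; `PrI (sp v) f` from `Cop v f`: `S_O6`). LAST CLAIM. `→`: `Ray (f 2^N) a (sp v)` gives `Ray f a (sp v)` (`S_O7`), and
`NI a = Nm v` modulo `f 2^N` (`S_O9`, `S_O2`). `←`: `Ray f a (sp v)`, `Hf f v`, `v ≠ 0`. C_Cop (odd lift): `v'`, `f ∣ v' - v`, `Cop v' (2 f)`, so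
`Hf f v'`, `Ray f a (sp v')`. If `N = 0` then `v'` shows `HPN f 0 a` (`f * 2^0 = f`). Let `N ≥ 1`. C_RUp (`n = 2^N`, `b' = a`, `b = sp v'`): `β` with
`Ray (f 2^N) a (sp β * sp v') = sp (β v')`; `Hf f (β v')`, `Cop (β v') (2 f)`, `Nm (β v') = NI a = ± 1` modulo `2^N` (`S_O9`, `S_O2`): `HN f N (β v')`. -/
def S_HPg : Prop := S_O2 → S_O6 → S_O7 → S_O9 → C_Cop → C_HNf → C_RUp → C_HPg

/-- (150 lines) **GM**: `S_GM`. PROOF. Groups: C_HPg. Fields: `Mf k f = FixI f (HP f)`, `Mn k f N = FixI (f * 2^N) (HPN f N)`: `S_E8` gives finiteness, `KQ ≤ ·` and the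
Galois groups. `Mf ≤ Mn N`: let `x ∈ Mf`, `τ ∈ GK`, `Psi τ (f 2^N) a`, `HPN f N a`: `Psi τ f a` (`S_E1`, last claim), `HP f a`, so `τ x = x`.
`Mn N ≤ Mn (N+1)`: the same (`HPN f (N+1) a → HPN f N a`: last claim of C_HPg). LAST CLAIM. `→`: `τ` fixes `KQ ≤ Mf ≤ Mn`, so `τ ∈ GK`; `Psi τ (f 2^N) a` (`S_E1`),
`HPN f N a`, `NI a = ± 1` modulo `2^N`, and `τ ζ = ζ^(NI a)` (`S_E6` for `N := f 2^N`: `ζ^(f 2^N) = 1`), `= ζ^(± 1)`. `←`: `τ ∈ GK`, `Psi τ (f 2^N) a`, `Psi τ f a`, so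
`HP f a`; `ζ^(NI a) = τ ζ = ζ^(± 1)` and `ζ` is primitive: `2^N ∣ NI a ∓ 1` (`IsPrimitiveRoot.zpow_eq_one_iff_dvd`); C_HPg: `HPN f N a`. -/
def S_GMm : Prop := S_E1 → S_E6 → S_E8 → C_HPg → S_GM

/-! ## 3. Half systems, class functions -/

/-- Sums over half systems. -/
def C_Hlf : Prop :=
  ∀ (k : ℕ) [SqK k] (m b : Ideal (OO k)) (S S' : Finset ℂ) (A : Type) [AddCommMonoid A] (F : ℂ → A),
    IsHalf m b S → IsHalf m b S' → (∀ u l : ℂ, l ∈ Lam b → F (u + l) = F u) →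
    (∀ u : ℂ, F (-u) = F u) → ∑ u ∈ S, F u = ∑ u ∈ S', F u

/-- (60 lines) **Hlf**. PROOF. For `u ∈ S` let `e u ∈ S'` with `u - e u ∈ Lam b` or `u + e u ∈ Lam b` (`IsHalf.ex`); `F u = F (e u)`. `e` is injective
(`e u = e u'` gives `u ∓ u' ∈ Lam b`: `lam_add`, `lam_sub`; `uni`) and onto. -/
def S_Hlf : Prop := C_Hlf

/-- The function `gt`. -/
def C_Gt : Prop :=
  ∀ (k : ℕ) [SqK k] (m b : Ideal (OO k)), m ≠ ⊥ → b ≠ ⊥ → PrI m 2 →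
    (∀ (α : OO k) (z : ℂ), α ≠ 0 → gt m (sp α * b) z = gt m b (toC α * z)) ∧
    (∀ z l : ℂ, l ∈ Lam b → gt m b (z + l) = gt m b z) ∧ ∀ z : ℂ, gt m b (-z) = gt m b z

/-- (120 lines) **Gt**. PROOF. `xO (sp α * b) z = xO b (toC α * z)` (`S_B7`: the complex numbers are equal, `ofC` of both sides);
`xO b (z + l) = xO b z`, `xO b (-z) = xO b z` (`S_B1`). This gives the second and third claims. FIRST: `S = hs m (sp α * b)` and `S₀ = hs m b` are half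
systems (`S_B14`). The image `S' = S.image (toC α * ·)` is a half system for `m, b`: `u ∈ Lam (m * (sp α * b))` iff `toC α * u ∈ Lam (m * b)` (`lam_sp`;
`m * (sp α * b) = sp α * (m * b)`), and `u ∈ Lam (sp α * b)` iff `toC α * u ∈ Lam b`; for `ex` divide by `toC α ≠ 0`. So
`gt m (sp α * b) z = ∑_(u ∈ S) F (toC α * u)` with `F u = xO b (α z) * (xO b (α z) - xO b u)⁻¹`, `= ∑_(S') F = ∑_(S₀) F` (C_Hlf). -/
def S_Gt : Prop := S_B1 → S_B7 → S_B14 → C_Hlf → C_Gt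

/-- Homogeneous functions at points of order `M` depend only on the ray class modulo `M`. -/
def C_RayF : Prop :=
  ∀ (k : ℕ) [SqK k] (M : ℕ) (A : Type) (F : Ideal (OO k) → ℂ → A), 0 < M →
    (∀ (b : Ideal (OO k)) (α : OO k) (z : ℂ), b ≠ ⊥ → α ≠ 0 → F (sp α * b) z = F b (toC α * z)) →
    (∀ (b : Ideal (OO k)) (z l : ℂ), b ≠ ⊥ → l ∈ Lam b → F b (z + l) = F b z) →
    ∀ b b' : Ideal (OO k), b ≠ ⊥ → b' ≠ ⊥ → Ray M b b' → ∀ h : OO k, F b (toC h / M) = F b' (toC h / M)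

/-- (80 lines) **RayF**. PROOF. `sp α * b = sp α' * b'`, `M ∣ α - α'`, `Cop α M`. Let `β ≠ 0` with `M ∣ α β - 1` (C_Cop); then `M ∣ α' β - 1`.
`sp (α β) * b = sp (α' β) * b'`, so `F b (toC (α β) * z) = F b' (toC (α' β) * z)` for all `z`. For `z = toC h / M`:
`toC (α β) * z = z + toC (h c)` with `α β - 1 = M c`, and `toC (h c) ∈ Lam b` (`lam_top`, `lam_mono`). So the left side is `F b (toC h / M)`, and the
same for the right side. -/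
def S_RayF : Prop := C_Cop → C_RayF

/-! ## 4. Reduction at the primes above `2` -/

/-- `P` above `pp`: the elements of `O` in `M_P`. -/
def C_AbP : Prop :=
  ∀ (k : ℕ) [SqK k] (P : Ideal ZZ), (AbP k P → ∀ v : OO k, MP P (toO v) ↔ v ∈ pp k) ∧
    (AbPb k P → ∀ v : OO k, MP P (toO v) ↔ v ∈ ppb k) ∧ ¬ (AbP k P ∧ AbPb k P) ∧
    (Npr P → ¬ AbP k P → ∃ α ∈ pp k, ¬ MP P (toO α)) ∧
    (Npr P → ¬ AbPb k P → ∃ α ∈ ppb k, ¬ MP P (toO α))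

/-- (80 lines) **AbP**. PROOF. `v ∈ pp`: `v = 2 x + w y` with `x, y` in `O`, `toO` is a ring homomorphism with values in `V_P`. `v ∉ pp`: `v.re` is odd
(`S_O4`), so `v - 1 ∈ pp` and `toO v = 1 + (..)` is not in `M_P` (`MP.one_not`). The same for `ppb` (`v.re + v.im`). `w + (1 - w) = 1` is not in `M_P`.
If `¬ AbP k P` then `¬ MP P 2` (take `α = 2`) or `¬ MP P (wO k)` (`α = wI k`, `toO_wI`). The same for `ppb` (`1 - w`). -/
def S_AbP : Prop := S_O4 → C_AbP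

/-- The points `h/(f 2^N) + u`, `u ∈ E[m]`, are not primary. -/
def C_NQ : Prop :=
  ∀ (k : ℕ) [SqK k] (f N : ℕ) (m b : Ideal (OO k)), 0 < f → Odd f → 1 ≤ N → m ≠ ⊥ → b ≠ ⊥ →
    PrI m 2 → PrI b 2 → ∀ Q : Ideal ZZ, Npr Q → ∀ h : OO k, Cop h 2 → ∀ u ∈ Lam (m * b),
      ¬ Qp Q b (toC h / (f * 2 ^ N : ℕ) + u)

/-- (120 lines) **NQ**. PROOF. Not both `AbP k Q` and `AbPb k Q` (C_AbP). CASE `¬ AbP k Q`: `α₀ ∈ pp`, `¬ MP Q (toO α₀)` (C_AbP), `α = α₀^N ∈ pp^N`,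
`¬ MP Q (toO α)` (`MP.of_pow`). The ideal `J = ppb^N * m * sp f` is not contained in the prime ideal `pp` (otherwise `ppb ≤ pp` or `m ≤ pp` or `f ∈ pp`; but
`pp ⊔ ppb = ⊤`, `m ⊔ sp 2 = ⊤` with `2 ∈ pp`, `f` odd): let `β ∈ J`, `β ∉ pp`. `α β ∈ pp^N * ppb^N * m * sp f = sp (2^N f) * m` (`pp * ppb = sp 2`), so
`α β = f 2^N γ` with `γ ∈ m`. Put `z = h/(f 2^N) + u`: `toC (α β) z = toC (γ h) + toC (α β) u ∈ Lam b` (`γ h ∈ O`: `lam_top`, `lam_mono`; `α β ∈ m`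
and `u ∈ Lam (m * b)`: `lam_prod`). If `Qp Q b z` then `toC β z ∈ Lam b`, and `toC β u ∈ Lam b` (`β ∈ m`), so `toC (β h)/(f 2^N) ∈ Lam b`. Let `x ∈ b`, `x ∉ pp`
(`b ⊔ sp 2 = ⊤`, `2 ∈ pp`): `x β h = f 2^N c` with `c ∈ O` is in `pp`, so `x`, `β` or `h` is in `pp`: contradiction (`Cop h 2`, C_Cop). CASE
`¬ AbPb k Q`: the same with `pp` and `ppb` exchanged. -/
def S_NQ : Prop := S_O4 → C_Cop → C_AbP → C_NQ

/-- Values at `z_h` and on `E[m]`, `P` above `pp`. -/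
def C_Rdz : Prop :=
  ∀ (k : ℕ) [SqK k] (f N : ℕ) (m b : Ideal (OO k)), Odd f → 1 ≤ N → m ≠ ⊥ → b ≠ ⊥ → PrI m 2 →
    PrI b 2 → ∀ P : Ideal ZZ, AbP k P → ∀ h : OO k, Cop h 2 → ∀ z : ℂ, z = toC h / (f * 2 ^ N : ℕ) →
    Tor k z ∧ z ∉ Lam (m * b) ∧ z ∉ Lam b ∧ z + ptT b ∉ Lam b ∧ VP P (xO b z) ∧
    ∀ u ∈ hs m b, Tor k u ∧ VP P (xO b u) ∧ UP P (xO b z - xO b u)

/-- (120 lines) **Rdz**. PROOF. `z ∉ Lam (m * b)`: otherwise `u = -z ∈ Lam (m * b)` and `z + u = 0` is `Qp` (`0 ∈ Lam b`), against C_NQ; so `z ∉ Lam b`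
(`lam_mono`). `VP P (xO b z)`: `S_D2`, the claim
`¬ Qp → ¬ IK ∧ VP` (`¬ Qp P b z`: C_NQ with `u = 0`). `z + T ∉ Lam b`: `T` is in `IK P b` (`S_D2` (1)); if `z + T = l` then
`z = l + (-1) T` is in `IK P b` (`S_D1`, `AbP k P` excludes `AbPb k P` by C_AbP), hence `Qp P b z` (`S_D1` (5)), contradiction. `u ∈ hs m b`: `u ∈ Lam (m * b)`,
`u ∉ Lam b` (`S_B14`); `Tor k u` (`tor_lam`). `¬ Qp P b u`: there is `α ∈ m`, `α ∉ pp` (`m ⊔ sp 2 = ⊤`, `2 ∈ pp`), `¬ MP P (toO α)` (C_AbP), `toC α u ∈ Lam b` and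
`u ∉ Lam b`. So `VP P (xO b u)`, `¬ IK P b u`, `¬ IK P b z` (the same claim of `S_D2`). If `MP P (xO b z - xO b u)` then by `S_D1` (7) `z + u` or `z - u` is in `IK P b`, so it is
`Qp`, against C_NQ (`± u ∈ Lam (m * b)`). -/
def S_Rdz : Prop := S_O4 → S_B14 → S_D1 → S_D2 → C_AbP → C_NQ → C_Rdz

/-- Translation by `T`. -/
def C_ThT : Prop :=
  ∀ (k : ℕ) [SqK k] (f N : ℕ) (m b : Ideal (OO k)), Odd f → 1 ≤ N → m ≠ ⊥ → b ≠ ⊥ → PrI m 2 →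
    PrI b 2 → ∀ P : Ideal ZZ, AbP k P → ∀ h : OO k, Cop h 2 → ∀ z : ℂ, z = toC h / (f * 2 ^ N : ℕ) →
    VP P (gt m b z) ∧ Theta m b z ≠ 0 ∧
      TP P 4 (Theta m b (z + ptT b) / Theta m b z - 1 - 2 * gt m b z)

/-- (150 lines) **ThT**. (Compare `DI/G/ThT.lean`.) PROOF. `X = xO b z`, `X' = xO b (z + ptT b)`, `X_u = xO b u`, `𝒟 = dO b`. C_Rdz: `VP P X`, `X - X_u` is a unit;
`VP P 𝒟` (`S_R2` (2)). `S_B4` in `Om` (`S_R1`, `S_R4`, `io` injective; `z`, `z + T` torsion: `tor_lam` for `ptT b ∈ Lam (pp * b)`, `S_L6`):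
`4 X + 1 ≠ 0`, `X' (4 X + 1) = -(X + 4 𝒟)`. `4 X + 1` is a unit (`MP P 2`). `X' - X = 2 e`, `e = -(2 X² + X + 2 𝒟)/(4 X + 1)`, `VP P e`, and
`e + X = 2 (X² - 𝒟)/(4 X + 1)` is in `2 V_P`. `X' - X_u = (X - X_u) + 2 e` is a unit. `Theta m b z ≠ 0`: `S_D8` (last). So all factors
`W2 b u` are `≠ 0` and `Theta(z + T)/Theta(z) = ∏_u ((X - X_u)/(X' - X_u))^9`. `(X - X_u)/(X' - X_u) = 1 - 2 e/(X' - X_u) = 1 + 2 y_u`,
`y_u = -e/(X' - X_u)`, `VP P y_u`, `y_u - X/(X - X_u) ∈ 2 V_P` (`-e = X` and `X' = X` modulo `2`). `(1 + 2 y)^9 = 1 + 2 y` modulo `4` (`18 = 2` modulo `4`, the other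
terms are divisible by `4`). The product over `u` of `1 + 2 y_u + 4 r_u` is `1 + 2 ∑ y_u` modulo `4` (induction), and `∑ y_u = gt m b z` modulo `2`. -/
def S_ThT : Prop := S_L6 → S_B4 → S_R1 → S_R2 → S_R4 → S_D8 → C_Rdz → C_ThT

/-! ## 5. The units -/

/-- The units: first properties. -/
def C_UBa : Prop :=
  ∀ (k : ℕ) [SqK k] (f : ℕ) (m : Ideal (OO k)) (N : ℕ) (T : Finset (OO k)), Hy f m → 1 ≤ N →
    IsRep f N T → ∀ b : Ideal (OO k), b ≠ ⊥ → PrI b (2 * f) →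
      uN f N m T b ≠ 0 ∧ (∀ Q : Ideal ZZ, Npr Q → UP Q (uN f N m T b)) ∧
      (∀ b' : Ideal (OO k), Ray (f * 2 ^ N) b b' → uN f N m T b' = uN f N m T b) ∧
      (∀ v : OO k, v ≠ 0 → Cop v (2 * f) →
        uN f N m T (sp v * b) = ∏ h ∈ T, Theta m b (toC (v * h) / (f * 2 ^ N : ℕ))) ∧
      (∀ a : Ideal (OO k), HPN f N a → uN f N m T (a * b) = uN f N m T b) ∧
      ∀ T' : Finset (OO k), IsRep f N T' → uN f N m T' b = uN f N m T b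

/-- (150 lines) **UBa**. PROOF. `G t = Theta m b (toC t / M)` is `M`-periodic and even (`S_D8` (2); `toC x ∈ Lam b` for `x ∈ O`). UNITS: `S_D5` at
`z_h`, with C_NQ (`Cop h 2`, `PrI b 2`: `S_O6`); `UP.prod`; nonzero: `UP.ne_zero` for a prime `Q` (`S_D8` (last) and C_NQ also give it). CLASS FUNCTION: C_RayF for
`F b z = Theta m b z` (`S_D8` (3), (2)) for each `h`; `b' ≠ ⊥` by `S_O7`. `sp v * b`: `S_D8` (3), `toC v * (toC h / M) = toC (v h)/M`. `HPN f N a`: `Ray (f 2^N) a (sp v)`, `HN f N v`,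
`Cop v (2 f)`, `v ≠ 0`; so `Ray (f 2^N) (sp v * b) (a * b)` (`S_O7`), and `uN (a * b) = uN (sp v * b) = ∏ G (v h) = ∏ G h` by C_Rp (2) (`v' ` an inverse of `v` modulo
`f 2^N`, `HN f N v'`, `Cop v' (2 f)`: C_Cop, C_HNf). `T'`: C_Rp (1), `isRep_iff`. -/
def S_UBa : Prop := S_O6 → S_O7 → S_D5 → S_D8 → C_Cop → C_HNf → C_Rp → C_RayF → C_NQ → C_UBa

/-- The units: Galois action. -/
def C_UBb : Prop :=
  ∀ (k : ℕ) [SqK k] (f : ℕ) (m : Ideal (OO k)) (N : ℕ) (T : Finset (OO k)), Hy f m → 1 ≤ N →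
    IsRep f N T → ∀ b : Ideal (OO k), b ≠ ⊥ → PrI b (2 * f) → uN f N m T b ∈ Mn k f N ∧
      ∀ τ ∈ GK k, ∀ a : Ideal (OO k), Psi τ (f * 2 ^ N) a → τ (uN f N m T b) = uN f N m T (a * b)

/-- (80 lines) **UBb**. PROOF. `M' = f 2^N NI m > 0` (`S_O2`). Let `Psi τ (f 2^N) a`. `S_E1`: `Psi τ M' a'`, so `Psi τ (f 2^N) a'` and `Ray (f 2^N) a a'`. `S_E10` (last claim)
for `M'`, `z = toC h / (f 2^N)` (`M' z ∈ O ⊆ Lam b`): `τ (Theta m b z) = Theta m (a' * b) z`. Product over `h`: `τ (uN b) = uN (a' * b)`, and this is `uN (a * b)` by C_UBa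
(class function; `Ray (f 2^N) (a * b) (a' * b)`; `a * b ≠ ⊥`, `PrI (a * b) (2 f)`: `Psi.ne`, `Psi.cop`, `N ≥ 1`, `S_O6`). `uN b ∈ Mn`: `τ ∈ GK`, `Psi τ (f 2^N) a`,
`HPN f N a`: `τ (uN b) = uN (a * b) = uN b`. -/
def S_UBb : Prop := S_O2 → S_O6 → S_O7 → S_E1 → S_E10 → C_UBa → C_UBb

/-- The norm relation. -/
def C_Two : Prop :=
  ∀ (k : ℕ) [SqK k] (f : ℕ) (m : Ideal (OO k)) (N : ℕ) (T : Finset (OO k)), Hy f m → 2 ≤ N →
    IsRep f N T → ∀ b : Ideal (OO k), b ≠ ⊥ → PrI b (2 * f) → ∀ T' : Finset (OO k),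
    IsRep f (N + 1) T' → ∀ s ∈ GK k, ∀ a : Ideal (OO k), Psi s (f * 2 ^ (N + 1)) a → HPN f N a →
      ¬ HPN f (N + 1) a → uN f (N + 1) m T' b * s (uN f (N + 1) m T' b) = uN f N m T b

/-- (200 lines) **Two**. (`DI/G/Two.lean`.) PROOF. `M' = f 2^(N+1)`. `Ray (f 2^N) a (sp v)`, `HN f N v`, `Cop v (2 f)`. C_RUp with `f := f 2^N`, `n := 2` (`Psi.cop`,
`f 2^N * 2 = M'`): `β`, `f 2^N ∣ β - 1`, `Cop β M'`, `Ray M' a (sp β * sp v)`. `v' = β v`: `HN f N v'`, `Cop v' (2 f)`, and not `HN f (N+1) v'` (otherwise `HPN f (N+1) a`).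
`G t = Theta m b (toC t / M')` is `M'`-periodic and even (`S_D8`). `s (u_(N+1)(b)) = u_(N+1)(a * b) = u_(N+1)(sp v' * b) = ∏_(h ∈ T') G (v' h)` (C_UBb, C_UBa). So the left
side is the product of `G` over the first system of C_TwR (for `a := v'`), by C_Rp (1) the product over the second one:
`∏_(h ∈ T) ∏_(e ∈ E) G (h + f 2^N e)`, and `toC (h + f 2^N e)/M' = z + toC e / 2`, `z = toC h / M'`. The set `{toC e / 2 | e ∈ E}` is `IsSys (sp 2) b`: there are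
`x ∈ b`, `y ∈ O` with `x + 2 y = 1` (`PrI b 2`), so `l = toC x l + 2 toC y l` with `toC x l ∈ O` for `l ∈ Lam b`. `ex`: `2 z' ∈ Lam b` (`lam_sp`, `toC 2 = 2`),
`2 z' = toC e' + 2 l'`, `e'` is congruent to some `e ∈ E` modulo `2`. `uni`: if `toC (e - e')/2 = l ∈ Lam b` then `x (e - e') = 2 (x l)` and
`e - e' = x (e - e') + 2 y (e - e')` is divisible by `2`, so `e = e'`. `S_D7` (2): the inner product is `s₀ Theta m b (2 z) = s₀ Theta m b (toC h / (f 2^N))`, `s₀ = ± 1`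
independent of `h` (`2 z ∉ Lam (m * b)`: C_NQ with `u = -2 z`, as `0` is `Qp`). So the left side is `s₀^(card T) u_N(b)` and `card T` is even
(C_TEv). -/
def S_Two : Prop :=
  S_O6 → S_O7 → S_D7 → S_D8 → C_Cop → C_HNf → C_RUp → C_Rp → C_TEv → C_TwR → C_NQ → C_UBa → C_UBb → C_Two

/-- (30 lines) **G3**: `S_G3`, assembly. -/
def S_G3m : Prop := C_UBa → C_UBb → C_Two → S_G3

/-! ## 6. The element `s` -/

/-- The element `s = s_n`, `n = N - 2`. -/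
def C_SN : Prop :=
  ∀ (k : ℕ) [SqK k] (f N : ℕ), Odd f → 3 ≤ f → 2 ≤ N →
    aN k f N ≠ 0 ∧ Cop (aN k f N) (2 * f) ∧ (f : OO k) ∣ aN k f N - 1 ∧
    ∃ s ∈ GK k, Psi s (f * 2 ^ N) (sp (aN k f N)) ∧ (∀ x ∈ Mf k f, s x = x) ∧
      ∀ ζ : Om, IsPrimitiveRoot ζ (2 ^ N) → s ζ = -ζ

/-- (100 lines) **SN**. PROOF. `t = 2^(N-1) f`, `a = 1 + t (1 - w)`, `Nm a = (1 + t)² - (1 + t) t + 2 k t² = 1 + t + 2 k t²`: `= 1` modulo `f`, odd (`N ≥ 2`), and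
`= 1 + 2^(N-1)` modulo `2^N` (`f` odd; `2^N ∣ t²` as `2 N - 2 ≥ N`). `S_E7` for `f 2^N`, `sp a` (`PrI` by `S_O6`). `s` fixes `Mf`: `Psi s f (sp a)` (`S_E1`),
`HP f (sp a)` (`f ∣ a - 1`; `S_O7` reflexive), `S_GM`. `s ζ = ζ^(NI (sp a))` (`S_E6`, `ζ^(f 2^N) = 1`), `NI (sp a) = Nm a` (`S_O2`), so
`= ζ^(1 + 2^(N-1)) = -ζ` (`ζ^(2^(N-1)) = -1`). -/
def S_SN : Prop := S_O2 → S_O6 → S_O7 → S_E1 → S_E6 → S_E7 → S_GM → C_SN

/-- `a_N z_h = z_h + T`. -/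
def C_Tra : Prop :=
  ∀ (k : ℕ) [SqK k] (f N : ℕ) (b : Ideal (OO k)), 0 < f → 1 ≤ N → b ≠ ⊥ → PrI b 2 → ∀ h : OO k,
    Cop h 2 → toC (aN k f N * h) / (f * 2 ^ N : ℕ) - (toC h / (f * 2 ^ N : ℕ) + ptT b) ∈ Lam b

/-- (80 lines) **Tra**. PROOF. `a_N = 1 + 2^(N-1) f (1 - w)`, so the left fraction is `toC h / M + y`, `y = toC ((1 - w) h)/2`. `y ∈ Lam (pp * b)`: for `x ∈ pp` `x (1 - w)` is
divisible by `2` (`x = 2 x₁ + w x₂`, `w (1 - w) = 2 k`), so `toC x * y ∈ O ⊆ Lam b` (`lam_prod`). `y ∉ Lam b`: let `x ∈ b`, `x ∉ pp` (`b ⊔ sp 2 = ⊤`); if `toC x * y ∈ O`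
then `2 ∣ x (1 - w) h`, so `x (1 - w) h ∈ pp`, which is prime; but `x`, `1 - w`, `h` are not in `pp` (`S_O4`, C_Cop). `S_L6` (1): `y - ptT b ∈ Lam b`. -/
def S_Tra : Prop := S_O4 → S_L6 → C_Cop → C_Tra

/-- The homomorphism `D` on the units. -/
def C_DU : Prop :=
  ∀ (k : ℕ) [SqK k] (f : ℕ) (m : Ideal (OO k)) (N : ℕ) (T : Finset (OO k)) (P : Ideal ZZ), Hy f m →
    2 ≤ N → IsRep f N T → AbP k P → ∀ s ∈ GK k, Psi s (f * 2 ^ N) (sp (aN k f N)) →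
    ∀ b : Ideal (OO k), b ≠ ⊥ → PrI b (2 * f) → VP P (Dw s (uN f N m T b)) ∧
      (∀ h ∈ T, VP P (gt m b (toC h / (f * 2 ^ N : ℕ)))) ∧
      TP P 2 (Dw s (uN f N m T b) - ∑ h ∈ T, gt m b (toC h / (f * 2 ^ N : ℕ)))

/-- (100 lines) **DU**. PROOF. `s (uN b) = uN (sp a_N * b) = ∏_(h ∈ T) Theta m b (toC (a_N h)/M)` (C_UBb, C_UBa (4); C_SN: `a_N ≠ 0`, `Cop`), and by C_Tra and `S_D8`
(periodicity) the factors are `Theta m b (z_h + ptT b)`. C_ThT: `Theta m b (z_h + ptT b)/Theta m b z_h = 1 + 2 g_h + 4 r_h`, `g_h = gt m b z_h` (`Cop h 2`, `PrI b 2`). The product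
over `T` is `1 + 2 ∑ g_h + 4 r`, `VP P r` (induction). `Dw s u = (s u/u - 1)/2 = ∑ g_h + 2 r`. -/
def S_DU : Prop := S_O6 → S_D8 → C_SN → C_Tra → C_ThT → C_UBa → C_UBb → C_DU

/-! ## 7. The character; Fourier transform -/

/-- Characters of odd order. -/
def C_Chi : Prop :=
  ∀ (k : ℕ) [SqK k] (f : ℕ) (χ : Ideal (OO k) → Om), Odd f → 3 ≤ f → IsChi f χ →
    χ ⊤ = 1 ∧ (∀ a : Ideal (OO k), HP f a → χ a = 1) ∧ (∀ v : OO k, v ≠ 0 → Hf f v → χ (sp v) = 1) ∧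
    (∀ b : Ideal (OO k), IsIntegral ℤ (χ b)) ∧
    (∀ (P : Ideal ZZ) (b : Ideal (OO k)), Npr P → b ≠ ⊥ → PrI b f → UP P (χ b)) ∧
    ∃ n : ℕ, Odd n ∧ ∀ b : Ideal (OO k), χ b = 0 ∨ χ b ^ n = 1

/-- (80 lines) **Chi**. PROOF. `χ b ^ n = 1` for `b ≠ ⊥` prime to `f`, `n` odd; `0` otherwise (`IsCl.zero`). `χ ⊤ χ ⊤ = χ ⊤ ≠ 0`. `Hf f v`: `f ∣ v^(2^j) - 1`, so
`Ray f (sp (v^(2^j))) ⊤` (by `1` and `v^(2^j)`), `χ (sp v)^(2^j) = χ ((sp v)^(2^j)) = 1`, and `χ (sp v)^n = 1` with `n` odd: `χ (sp v) = 1` (`orderOf` divides both).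
`HP f a`: `χ a = χ (sp v)` (`IsCl.ray`; `S_O7` for `≠ ⊥`, `PrI`). Roots of unity and `0` are integral; roots of unity are units
(`UP.of_pow`). -/
def S_Chi : Prop := S_O6 → S_O7 → C_Chi

/-- Galois action on `etaX` at `c / 2^j`. -/
def C_EtG : Prop :=
  ∀ (k : ℕ) [SqK k] (f : ℕ) (m : Ideal (OO k)) (R : Finset (Ideal (OO k))) (χ : Ideal (OO k) → Om),
    Hy f m → IsRC f R → IsChi f χ → ∀ (c : ℤ) (j : ℕ), ∀ τ ∈ GK k, (∀ x ∈ Mf k f, τ x = x) →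
      (∀ b : Ideal (OO k), τ (χ b) = χ b) → τ (etaX f m R χ (c / 2 ^ j)) = etaX f m R χ (c / 2 ^ j)

/-- (150 lines) **EtG**. PROOF. `n = 2^j`, prime to `NI m` (`S_O6`: `PrI m 2`), `M'' = f n NI m`. `F b = χ b * etaM f m b (c/n)` is a class function (`S_K1`, `IsCl.ray`). By C_R2
replace `R` by `R'` whose ideals are prime to `2 f`. `S_E1`: `Psi τ M'' a`, so `Psi τ f a`, `HP f a` (`S_GM`), `χ a = 1` (C_Chi); `PrI a (f n)`, `PrI a f`. For `b ∈ R'`: `S_K2` at `b` and at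
`a * b` (`PrI (a * b) (f n)`). With `β = ⟨1 + f x, f y⟩`, `z = toC β/(f n)`, `ζ = zet n`: `τ (ζ^e) = ζ^(e NI a)` (`S_E6` for `M''`, `ζ^n = 1`, so
`ζ^(M'') = 1`; `zet n ^ n = 1`: `io` and `ex`), `τ (gO f m b z) = gO f m (a * b) z` (`S_E10` (2), last part: `f ∣ M''`, `NI m ∣ M''`, `M'' z ∈ O ⊆ Lam b`, `z ∉ Lam (m * b)`: otherwise take
`v ∈ m * b` with `f ∣ v - 1` (`S_O6`): `toC (v β)/(f n) ∈ O`, so `f ∣ v β`, `f ∣ 1`). And `NI (a * b) = NI a NI b` (`S_O2`). So `τ (etaM f m b (c/n)) = etaM f m (a * b) (c/n)`. Hence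
`τ (∑ F b) = ∑ χ b etaM f m (a * b) (c/n) = ∑ F (a * b)` (`χ (a * b) = χ b`) `= ∑ F b` (C_R2 (3)). -/
def S_EtG : Prop :=
  S_O2 → S_O6 → S_E1 → S_E6 → S_E10 → S_K1 → S_K2 → S_GM → C_R2 → C_Chi → C_EtG

/-- The general lemma on fields unramified at `P` (proved in `DI/G/UnrG.lean`, theorem `DI.G.tUnrG`). -/
def C_UnrG : Prop :=
  ∀ M : IntermediateField ℚ Om, FiniteDimensional ℚ M → (∀ τ : Gal(Om/ℚ), ∀ x ∈ M, τ x ∈ M) →
    ∀ P : Ideal ZZ, P.IsPrime → P ≠ ⊥ → MP P 2 →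
    (∀ τ ∈ P.inertia Gal(Om/ℚ), ∀ x ∈ M, τ x = x) → Unr P M

/-- (10 lines) **UnrG**. Import `Pool.Agent.Lib.DI.G.UnrG`. -/
def S_UnrG : Prop := C_UnrG

/-- A field of definition for `η_χ`. -/
def C_ChiF : Prop :=
  ∀ (k : ℕ) [SqK k] (f : ℕ) (χ : Ideal (OO k) → Om) (P : Ideal ZZ), Odd f → 3 ≤ f → IsChi f χ →
    AbP k P → ∃ M : IntermediateField ℚ Om, Unr P M ∧ FiniteDimensional ℚ M ∧ Mf k f ≤ M ∧
      (∀ b : Ideal (OO k), χ b ∈ M) ∧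
      ∀ x : Om, (∀ τ ∈ GK k, (∀ y ∈ Mf k f, τ y = y) → (∀ b : Ideal (OO k), τ (χ b) = χ b) →
        τ x = x) → x ∈ M

/-- (120 lines) **ChiF**. (`DI/G/ChiF.lean`.) PROOF. `n` odd with `χ b = 0` or `χ b ^ n = 1` (C_Chi); `ξ` a primitive `n`-th root of unity in `Om`;
`M = Mf k f ⊔ ℚ(ξ)`. `χ b ∈ ℚ(ξ)` (a power of `ξ` or `0`). Finite: `S_GM` and `ξ` algebraic. Normal: `S_E9` (1) and `τ ξ` is a power of `ξ`. Inertia at `P` (`MP P 2`):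
`S_E9` (5) on `Mf`; `τ ξ = ξ^j` and `ξ^j - ξ ∈ P`; if `ξ^j ≠ ξ` then `1 - ξ^(j-1)` is in `M_P` and `ω = ξ^(j-1) ≠ 1`, `0 = 1 + ω + .. + ω^(n-1) = n`
modulo `M_P`, impossible (`n` odd). So `Unr P M` by C_UnrG. Last part: every `τ ∈ M.fixingSubgroup` is in `GK` (`KQ ≤ Mf`: `S_GM`), fixes `Mf` and
the `χ b`, so `τ x = x`; by infinite Galois theory (`InfiniteGalois.fixedField_fixingSubgroup`) `x ∈ M`. -/
def S_ChiF : Prop := S_E9 → S_GM → C_UnrG → C_Chi → C_ChiF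

/-- The Fourier transform, first form. -/
def C_Fou1 : Prop :=
  ∀ (k : ℕ) [SqK k] (f : ℕ) (m : Ideal (OO k)) (R : Finset (Ideal (OO k))) (χ : Ideal (OO k) → Om),
    Hy f m → IsRC f R → (∀ b ∈ R, PrI b (2 * f)) → ∀ (N : ℕ) (a : ℤ), 2 ≤ N → Odd a →
    ∑ c ∈ Finset.range (2 ^ N), zet (2 ^ N) ^ (-((c : ℤ) * a)) * etas f m R χ ((c : ℚ) / 2 ^ N) =
      SSN f m N R χ a

/-- (150 lines) **Fou1**. (`DI/G/Fou1.lean`.) PROOF. `ζ = zet (2^N)`, a primitive `2^N`-th root of unity (`io (zet n) = ex (1/n)`: `ex (1/n)^n = 1`, so it is algebraic;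
`Complex.isPrimitiveRoot_exp`; `io` is injective). `S_K2` with `n = 2^N`, for `c` and `-c` (`-(c/2^N) = (-c)/2^N`): with `β = bt k f x y` and `q = NI m NI b Nm β`
`etas (c/2^N) = ∑_(b ∈ R) χ b (1/2^N) ∑_(x,y) (ζ^(c q) + ζ^(-c q)) gO f m b (toC β/M)`. Multiply by `ζ^(-c a)` and sum over `c`:
`∑_(c < 2^N) ζ^(c (q - a)) = 2^N` if `2^N ∣ q - a` and `0` otherwise (geometric sum), and `∑_c ζ^(-c (q + a)) = 2^N` iff `2^N ∣ q + a`. Both conditions together give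
`2^N ∣ 2 a`, impossible (`a` odd, `N ≥ 2`), so the sum of the two indicators is the indicator of `Pm N q a`. -/
def S_Fou1 : Prop := S_O6 → S_K2 → C_Fou1

/-- The Fourier transform, second form. -/
def C_Fou2 : Prop :=
  ∀ (k : ℕ) [SqK k] (f : ℕ) (m : Ideal (OO k)) (R : Finset (Ideal (OO k))) (χ : Ideal (OO k) → Om)
    (P : Ideal ZZ), Hy f m → IsRC f R → (∀ b ∈ R, PrI b (2 * f)) → IsChi f χ → AbP k P →
    ∀ (N : ℕ) (a : ℤ), 2 ≤ N → Odd a → VP P (SSN f m N R χ a) ∧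
    TP P 2 (SSN f m N R χ a - χ (pp k) * ∑ c ∈ Finset.range (2 ^ (N - 1)),
      zet (2 ^ N) ^ (-((c : ℤ) * a)) * haX f m R χ ((c : ℚ) / 2 ^ (N - 1)))

/-- (150 lines) **Fou2**. (`DI/G/Fou2.lean`.) PROOF. `MM k f m` is odd (`Dk k = 8 k - 1`, `f`, `NI m` are odd: `S_O6`), so the numbers `c/2^j` have denominators
prime to it; `VP P (etaX (c/2^j))` by `S_K6` and C_Chi. With C_Fou1 `VP P (SSN a)`. `q = 2^(N-1)`: `ζ^(-(c+q) a) = -ζ^(-c a)` (`ζ^q = -1`, `a` odd), so with `s = c/2^N`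
`∑_(c < 2 q) ζ^(-ca) etas(c/2^N) = ∑_(c < q) ζ^(-ca) (etas(s) - etas(s + 1/2))`. `S_K3` with `r = 2 s` and with `r = -2 s`, and `S_K4`
(`-(s + 1/2) + 1 = -s + 1/2`): `etas(s) + etas(s + 1/2) + χ(sp 2) etas(4 s) - χ(pp) etas(2 s) ∈ 2 V_P`. Signs do not matter modulo `2 V_P`, `χ (sp 2) = χ pp χ ppb` (`S_O4`), so
`etas(s) - etas(s + 1/2) - χ(pp) haX(2 s) ∈ 2 V_P`, `2 s = c/2^(N-1)`; `ζ` is a unit. -/
def S_Fou2 : Prop := S_O4 → S_O6 → S_K3 → S_K4 → S_K6 → C_Chi → C_Fou1 → C_Fou2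

/-- Independence of the powers of `ζ` over an unramified field. -/
def C_Uni : Prop :=
  ∀ P : Ideal ZZ, P.IsPrime → MP P 2 → ∀ (M : IntermediateField ℚ Om) (N : ℕ) (ζ : Om), 1 ≤ N →
    IsPrimitiveRoot ζ (2 ^ N) → Unr P M → ∀ A : ℕ → Om, (∀ c, A c ∈ M) → (∀ c, VP P (A c)) →
    TP P 2 (∑ c ∈ Finset.range (2 ^ (N - 1)), ζ ^ c * A c) → ∀ c < 2 ^ (N - 1), TP P 2 (A c)

/-- (120 lines) **Uni**. (`DI/G/Uni.lean`, with `2` for `wO`.) PROOF. `n = 2^(N-1)`, `l = ζ - 1`, integral, `ζ^n = -1` (primitive). Binomial theorem for `(1 + l)^n = -1`: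
`l^n = -2 (1 + ∑_(0<j<n) (binom(n,j)/2) l^j)` (the binomials are even), so `MP P (l^n)`, `MP P l` (`MP.of_pow`), and `l^n = 2 ε` with a unit `ε` of `V_P`.
`∑_(c<n) ζ^c A_c = ∑_(j<n) l^j B_j`, `B_j = ∑_(j ≤ c < n) binom(c,j) A_c ∈ M`, `VP P B_j`. CLAIM: all `B_j ∈ 2 V_P`. Otherwise let `j` be the least index with
`B_j ∉ 2 V_P`. `B_j` is a unit: if `MP P B_j` then `VP P (B_j/2)` (`Unr P M`). Then `∑_(i ≥ j) l^i B_i = l^j (B_j + l (..))` is `l^j` times a unit and is in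
`2 V_P = l^n V_P`; as `j < n` this gives `VP P l⁻¹`, contradiction to `MP P l`. Finally `A_c = B_c - ∑_(c < c' < n) binom(c',c) A_(c')`: downward induction on `c`. -/
def S_Uni : Prop := C_Uni

/-- **Output of G1.** -/
def C_G1 : Prop :=
  ∀ (k : ℕ) [SqK k] (f : ℕ) (m : Ideal (OO k)) (R : Finset (Ideal (OO k))) (χ : Ideal (OO k) → Om)
    (P : Ideal ZZ), Hy f m → m ≠ ⊤ → IsRC f R → IsChi f χ → AbP k P →
    ∃ (c : ℤ) (j : ℕ), ¬ MP P (haX f m R χ (c / 2 ^ j))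

/-- (250 lines) **G1**. (`DI/G/G1.lean`: copy it.) Import `Pool.Agent.Lib.DI.F.VPB`, `Pool.Agent.Lib.DI.V.All`. PROOF. Suppose `MP P (haX (c/2^j))` for all `c`, `j`. `M = MM k f m`, odd and `≥ 3`.
`F = V_P/M_P` is the field `F.RF` of `VPB.lean` with the reduction `F.red`. `X : DI.V.Sy M F` with `h r = red (etas r)` for `QM M r` (`VP` by `S_K6`, C_Chi), `0` otherwise;
`kb = red (χ (ppb k)) ≠ 0` (`PrI (ppb k) f` as `NI ppb = 2` is prime to `f`: `S_O4`, `S_O6`; C_Chi); the character of `ZMod M`: `x ↦ red (χ (sp (x.val : O)))` for units `x`, `0` for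
non-units (multiplicative: `χ` is multiplicative and `sp a = sp b` up to `Ray f` if `M ∣ a - b`: `S_O7`, `Cop (a : O) f`; C_Chi for `χ ⊤ = 1`). `v1`: `S_K5` for
`(a, b, c, d)` at `r` and `(a, -b, -c, d)` at `-r`; the denominators are prime to `M` (`DI.V.QM.mobZ`; `QM M r` iff `r.den.Coprime M`). `d` is prime to `M`, so `(d : ZMod M)` is a unit.
`v3`: `S_K4`. `van`: the assumption. `DI.V.main` gives `h (b/d) = h 0` for the matrix of `S_KF`: contradiction (`etaX (b/d) + etaX (-(b/d)) - 2 etaX 0 = etas (b/d) - etas 0`). -/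
def S_G1 : Prop := S_O2 → S_O4 → S_O6 → S_O7 → S_K4 → S_K5 → S_K6 → S_KF → C_Chi → C_G1

/-- Nonvanishing of the Fourier transform. -/
def C_SNo : Prop :=
  ∀ (k : ℕ) [SqK k] (f : ℕ) (m : Ideal (OO k)) (R : Finset (Ideal (OO k))) (χ : Ideal (OO k) → Om)
    (P : Ideal ZZ), Hy f m → m ≠ ⊤ → IsRC f R → (∀ b ∈ R, PrI b (2 * f)) → IsChi f χ → AbP k P →
    ∃ N1 : ℕ, 2 ≤ N1 ∧ ∀ N : ℕ, N1 ≤ N → ∀ a : ℤ, Odd a → VP P (SSN f m N R χ a) ∧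
      ¬ TP P 2 (SSN f m N R χ a)

/-- (120 lines) **SNo**. (`DI/G/SNo.lean`.) PROOF. C_G1: `c₀`, `m₀` with `¬ MP P (haX (c₀/2^m₀))`. `N1 = m₀ + 2`. For `N ≥ N1` let `c' = (c₀ 2^(N-1-m₀)) mod 2^(N-1)`;
`haX (c'/2^(N-1)) = haX (c₀/2^m₀)` (`S_K4`, integer shifts). Let `M` be from C_ChiF and `A c = haX (c/2^(N-1))`: `VP P` by `S_K6` (`MM` is odd) and C_Chi; `∈ M` by C_EtG
(`χ (ppb k) ∈ M`). `ζ = zet (2^N)^(-a)` is primitive (`a` odd). If `TP P 2 (SSN a)` then by C_Fou2 `TP P 2 (χ(pp) ∑ ζ^c A c)`, `χ(pp)` is a unit (C_Chi; `PrI (pp k) f`: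
`NI pp = 2`), so by C_Uni `TP P 2 (A c')` and `MP P (A c')`, contradiction. -/
def S_SNo : Prop :=
  S_O4 → S_O6 → S_K4 → S_K6 → C_Chi → C_EtG → C_ChiF → C_Fou2 → C_Uni → C_G1 → C_SNo

/-! ## 8. Conclusion -/

/-- **Output of G7.** -/
def C_G7 : Prop :=
  ∀ (k : ℕ) [SqK k] (f : ℕ) (m : Ideal (OO k)) (χ : Ideal (OO k) → Om) (P : Ideal ZZ), Hy f m →
    m ≠ ⊤ → IsChi f χ → AbP k P → ∃ N0 : ℕ, 3 ≤ N0 ∧ ∀ N : ℕ, N0 ≤ N → ∀ T : Finset (OO k),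
      IsRep f N T → ∀ D : Finset (Ideal (OO k)), IsDS f N D → ∀ s ∈ GK k,
        Psi s (f * 2 ^ N) (sp (aN k f N)) → ¬ TP P 2 (∑ c ∈ D, χ c * Dw s (uN f N m T c))

/-- (150 lines) **G7**. PROOF. `R` from C_R2 (ideals prime to `2 f`), `N1` from C_SNo, `N0 = max N1 3`, `a = NI m` (odd: `S_O6`). All congruences modulo `2 V_P`. In `SSN f m N R χ a` the condition
`Pm N (NI m NI b Nm β) (NI m)` is equivalent to `Pm N (NI b Nm β) 1` (`NI m` is odd), and it implies `Cop β 2` (`Nm β` odd). For such `b`, `β` and `z = toC β/M`: `S_D9` (last part,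
`AbP k P`; C_NQ) gives `gO f m b z = gt m b z`. Let `F b' = χ b' * gt m b' (1/M)`; `gt m b (toC β/M) = gt m (sp β * b) (1/M)` (C_Gt), `χ (sp β * b) = χ b` (C_Chi: `Hf f β` as
`f ∣ β - 1`). So `SSN(a) = ∑_b ∑_(x,y) [Pm] F (sp β * b) = ∑_(c ∈ D) ∑_(h ∈ T) F (sp h * c)` (C_RS; `F` is a class function modulo `f 2^N` by C_RayF and C_Gt, `h = 1`, and `IsCl.ray`,
`S_O7`) `= ∑_c χ c ∑_h gt m c (toC h/M)` (`χ (sp h) = 1`, C_Chi; C_Gt) `= ∑_c χ c Dw s (uN c)` (C_DU). C_SNo: it is not `0` modulo `2 V_P`. -/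
def S_G7 : Prop :=
  S_O6 → S_O7 → S_D9 → C_Cop → C_R2 → C_RS → C_Gt → C_RayF → C_NQ → C_DU → C_Chi → C_SNo → C_G7

end Pool.Agent.DK.G
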