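import Pool.Agent.Lib.DK.G.Spec
import Pool.Agent.Lib.DK.IfaceF

/-!
# Theorem DK, part G: the bridge from parts C, F (interface of helper36) to the inputs of part G

Author helper21. `theorem tX : S_X` in `DK/G/X.lean`; complete proofs in the docstrings.
-/

set_option autoImplicit false

open scoped Pointwise

noncomputable section

namespace Pool.Agent.DK.G

open Pool.Agent.MuZ Pool.Agent.FW Pool.Agent.DK
open Pool.Agent.DI (io ofC io_inj exists_io io_ofC ofC_io VP MP UP TP ex sqr sqr_sq kap)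

/-- (10 lines) **KA**. `S_K1`, `S_K4` are parts of `S_C6`. -/
def S_KA : Prop := S_C6 → S_K1 ∧ S_K4

/-- (120 lines) **KB**. PROOF. `S_C4` for `U` = the set of the `u = (x + y w)/n`, `0 ≤ x, y < n` (the image of `range n ×ˢ range n` under `(x, y) ↦ toC ⟨x, y⟩ / n`). `PrI b n`
(`PrI b (f * n)`, `S_O6`): `v + n t = 1` with `v ∈ b` (`Ideal.mem_sup`, `Ideal.mem_span_singleton'`). `IsSys (sp n) b U`: `mem`: `n u ∈ O ⊆ Lam b` (`lam_sp`, `lam_top`, `lam_mono`).
`ex`: `z ∈ Lam (sp n * b)`: `n z ∈ Lam b`, so `toC v * (n z) = toC e` with `e ∈ O` (definition of `Lam`), `z - toC e / n = toC t * (n z) ∈ Lam b`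
(`1 = toC v + n toC t`), and `e = ⟨x, y⟩ + n e'` with `0 ≤ x, y < n`. `uni`: if `u - u' ∈ Lam b`, `d = ⟨x - x', y - y'⟩`, `toC d = n l`, `l ∈ Lam b`, then `v d = n (v l)` is divisible by
`n` (`toC v * l ∈ toC O`, `toC_inj`), so `n ∣ v d + n t d = d`, and `x = x'`, `y = y'`. For `u = toC ⟨x, y⟩/n` and `β = ⟨1 + f x, f y⟩`: `1 + f n u = toC β`, so
`qN m b (1 + f n u) = ⌊NI m NI b Nm β⌋ = NI m NI b Nm β` (`Nm_norm`), and `1/(f n) + u = toC β/(f n)`. The map `(x, y) ↦ u` is injective (proof of `uni`), so the sum over `U` is the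
double sum. -/
def S_KB : Prop := S_O6 → S_C4 → S_K2

/-- (80 lines) **KC**. PROOF. Let `n = r.den`, prime to `MM k f m = Dk k * f^2 * NI m`. `S_O8` (`N = f`, `M = 2 n`, `C = fun _ => True`): `b' ≠ ⊥`, `PrI b' (f * (2 * n))`, `Ray f b b'`. `M = lev f m {b'}`
`= Dk k * f^2 * (NI m * NI b')^3`: odd (`Dk k = 8 k - 1`, `f`, `NI m`, `NI b'` are odd: `S_O6`), `≥ 3`, so `IsLv f m {b'} M`; `n` is prime to `M`. `S_C9` gives
`VP P (etaM f m b' r)`, and `etaM f m b' r = etaM f m b r` (`S_C6` (1); `FB f b'`). -/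
def S_KC : Prop := S_O6 → S_O8 → S_C6 → S_C9 → S_K6

/-- (120 lines) **KD**. PROOF. Let `n = r.den`, prime to `MM k f m`. For `b ∈ R` choose (`S_O8`, `N = f`, `M = 2 n`) `b' ≠ ⊥` with `PrI b' (f * (2 * n))`, `Ray f b b'`; `R'` = the image of `R`: `IsRC f R'` (`S_O7`),
`FR f R'` (`S_O6`). `M = lev f m R' = Dk k * f^2 * (NI m * ∏_(b' ∈ R') NI b')^3` is odd, `≥ 3` (as in KC), `IsLv f m R' M`, `n` is prime to `M`. `S_V` (last claim) for `R'`, `M`, `r`. Finally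
`etaX f m R χ r' = etaX f m R' χ r'` for all `r'`: C_R2 (2) for `F b = χ b * etaM f m b r'` (`S_C6` (1), `IsCl.ray`). -/
def S_KD : Prop := S_O6 → S_O7 → S_O8 → S_C6 → S_V → C_R2 → S_K3

end Pool.Agent.DK.G
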