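import Pool.Agent.Lib.DK.G.Spec
import Pool.Agent.Lib.DK.GL.Spec

/-!
# Theorem DK, part G: the local lemma for the fields `L'`, `L'_n`; conclusion (author helper21)

The abstract local lemma is in `DK/GL/All.lean` (`GL.g4`, `GL.g8`, `GL.g9`, without hypotheses).
-/

set_option autoImplicit false

open scoped Pointwise

noncomputable section

namespace Pool.Agent.DK.G

open Pool.Agent.MuZ Pool.Agent.FW Pool.Agent.DK
open Pool.Agent.DI (io ofC io_inj exists_io io_ofC ofC_io VP MP UP TP ex sqr sqr_sq kap)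
open Pool.Agent.DI.G (Unr)

/-- The situation of the local lemma. -/
def C_Sit : Prop :=
  ∀ (k : ℕ) [SqK k] (f : ℕ) (P : Ideal ZZ), Odd f → 3 ≤ f → AbP k P →
    GL.Sit (Mf k f) (fun N => Mn k f N) P

/-- (60 lines) **Sit**. PROOF. `AbP k P`: `P` is prime, `≠ ⊥`, `MP P 2`. `nrm`: `S_E9` (1); `lnn`: `S_E9` (2); `inr`: `S_E9` (5); `unr`: C_UnrG (finite by `S_GM`); `lnx`: the
last claim of `S_GM` (`Fx M τ` is `∀ x ∈ M, τ x = x`). -/
def S_Sit : Prop := S_E9 → S_GM → C_UnrG → C_Sit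

/-- (100 lines) **GFin**: `S_G`. Import `Pool.Agent.Lib.DK.GL.All`. PROOF. C_G7: `N0`. Let `N ≥ N0`, `T`, `D`; `s` from C_SN. Suppose that there is no such `d`: for all `d` with
`GL.DD (fun N => Mn k f N) P d` the sum `∑_(c ∈ D) χ c * (kap (uN c) d).val` is in `M_P`. `GL.g9` for C_Sit, `s`, `ι = Ideal (OO k)`, `D`, `u = uN f N m T` (`∈ Mn`, `UP P`: `S_G3`; `N ≥ 3`), `χ` and
the odd exponent of C_Chi: `TP P 4 (∑ χ c * (s (u c)/u c - 1))`. Divide by `2`: `TP P 2 (∑ χ c * Dw s (u c))`, against C_G7. -/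
def S_GFin : Prop := S_G3 → C_SN → C_Chi → C_G7 → C_Sit → S_G

end Pool.Agent.DK.G
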