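import Pool.Agent.Lib.DK.G.Spec

/-!
# Theorem DK, part G, module Uni: unramified coefficients and a root of unity of order `2 ^ N`
-/

set_option autoImplicit false

open scoped Pointwise

noncomputable section

namespace Pool.Agent.DK.G

open Pool.Agent.MuZ Pool.Agent.FW Pool.Agent.DK
open Pool.Agent.DI (io ofC io_inj exists_io io_ofC ofC_io VP MP UP TP ex sqr sqr_sq kap)
open Pool.Agent.DI.G (Unr)

private theorem Uni_add {P : Ideal ZZ} [P.IsPrime] {t x y : Om} (hx : TP P t x) (hy : TP P t y) :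
    TP P t (x + y) := by
  obtain ⟨a, ha, rfl⟩ := hx
  obtain ⟨b, hb, rfl⟩ := hy
  exact ⟨a + b, ha.add hb, by ring⟩

private theorem Uni_sub {P : Ideal ZZ} [P.IsPrime] {t x y : Om} (hx : TP P t x) (hy : TP P t y) :
    TP P t (x - y) := by
  obtain ⟨a, ha, rfl⟩ := hx
  obtain ⟨b, hb, rfl⟩ := hy
  exact ⟨a - b, ha.sub hb, by ring⟩

private theorem Uni_mul {P : Ideal ZZ} [P.IsPrime] {t x y : Om} (hx : VP P x) (hy : TP P t y) :
    TP P t (x * y) := by
  obtain ⟨b, hb, rfl⟩ := hy
  exact ⟨x * b, hx.mul hb, by ring⟩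

private theorem Uni_zero {P : Ideal ZZ} [P.IsPrime] {t : Om} : TP P t 0 :=
  ⟨0, DI.VP.zero, by rw [mul_zero]⟩

private theorem Uni_sum {P : Ideal ZZ} [P.IsPrime] {t : Om} (s : Finset ℕ) (F : ℕ → Om)
    (h : ∀ i ∈ s, TP P t (F i)) : TP P t (∑ i ∈ s, F i) := by
  classical
  induction s using Finset.induction_on with
  | empty => rw [Finset.sum_empty]; exact Uni_zero
  | insert a s ha ih =>
    rw [Finset.sum_insert ha]
    exact Uni_add (h a (Finset.mem_insert_self a s))
      (ih fun i hi => h i (Finset.mem_insert_of_mem hi))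

/-- Binomial theorem: `(l + 1) ^ (2 ^ m) = l ^ (2 ^ m) + 1 + 2 l r`. -/
private theorem Uni_binom {P : Ideal ZZ} [P.IsPrime] (m : ℕ) (l : Om) (hl : VP P l) :
    ∃ r : Om, VP P r ∧ (l + 1) ^ (2 ^ m) = l ^ (2 ^ m) + 1 + 2 * l * r := by
  obtain ⟨q, hq⟩ : ∃ q, 2 ^ m = q + 1 := ⟨2 ^ m - 1, by have := Nat.one_le_two_pow (n := m); omega⟩
  have hd : ∀ i : ℕ, i < q → ∃ d : ℕ, (2 ^ m).choose (i + 1) = 2 * d := by
    intro i hi
    have h1 := Nat.Prime.dvd_choose_pow (p := 2) (n := m) (k := i + 1) Nat.prime_two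
      (Nat.succ_ne_zero i) (by omega)
    obtain ⟨d, hd⟩ := h1
    exact ⟨d, hd⟩
  choose! d hd using hd
  refine ⟨∑ i ∈ Finset.range q, l ^ i * (d i : Om), ?_, ?_⟩
  · exact DI.VP.sum _ _ fun i _ => (hl.pow i).mul (DI.VP.nat _)
  · rw [add_pow, Finset.sum_range_succ, Nat.choose_self, Nat.sub_self]
    have h2 : Finset.range (2 ^ m) = Finset.range (q + 1) := by rw [hq]
    rw [h2, Finset.sum_range_succ']
    have h3 : ∑ i ∈ Finset.range q, l ^ (i + 1) * 1 ^ (2 ^ m - (i + 1)) * ((2 ^ m).choose (i + 1) : Om)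
        = 2 * l * ∑ i ∈ Finset.range q, l ^ i * (d i : Om) := by
      rw [Finset.mul_sum]
      refine Finset.sum_congr rfl fun i hi => ?_
      rw [hd i (Finset.mem_range.1 hi), one_pow]
      push_cast
      ring
    rw [h3, Nat.choose_zero_right]
    push_cast
    ring

theorem tUni : S_Uni := by
  intro P hP h2 M N ζ hN hz hM A hAM hAV hT
  have hPp : P.IsPrime := hP
  obtain ⟨m, rfl⟩ : ∃ m, N = m + 1 := ⟨N - 1, by omega⟩
  have hm : m + 1 - 1 = m := rfl
  rw [hm] at hT ⊢
  have hζV : VP P ζ := by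
    refine DI.VP.of_pow (n := 2 ^ (m + 1)) (by positivity) ?_
    rw [hz.pow_eq_one]
    exact DI.VP.one
  have hζq : ζ ^ (2 ^ m) = -1 := by
    have h3 : ζ ^ (2 ^ m) * ζ ^ (2 ^ m) = 1 := by
      rw [← pow_two, ← pow_mul, ← pow_succ, hz.pow_eq_one]
    rcases mul_self_eq_one_iff.1 h3 with h4 | h4
    · exact absurd h4 (hz.pow_ne_one_of_pos_of_lt (by positivity)
        (Nat.pow_lt_pow_right (by norm_num) (by omega)))
    · exact h4
  set l : Om := ζ - 1 with hl
  have hlV : VP P l := hζV.sub DI.VP.one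
  have hζl : ζ = l + 1 := by rw [hl]; ring
  obtain ⟨r, hr, hbin⟩ := Uni_binom (P := P) m l hlV
  set n : ℕ := 2 ^ m with hn
  have hn0 : 0 < n := by rw [hn]; positivity
  rw [← hζl, hζq] at hbin
  have hln : l ^ n = 2 * -(1 + l * r) := by linear_combination -hbin
  have hlM : MP P l := by
    refine DI.MP.of_pow (n := n) ?_
    rw [hln]
    exact DI.MP.mul_right h2 (DI.VP.one.add (hlV.mul hr)).neg
  have hu : UP P (-(1 + l * r)) := by
    refine DI.UP.neg (DI.UP.congr DI.UP.one ?_)
    have e : 1 + l * r - 1 = l * r := by ring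
    rw [e]
    exact DI.MP.mul_right hlM hr
  have hl0 : l ≠ 0 := by
    intro h0
    have : ζ = 1 := by rw [hζl, h0, zero_add]
    rw [this, one_pow] at hζq
    have h3 : (1 : Om) = -1 := hζq
    have h4 : (2 : Om) = 0 := by linear_combination h3
    exact two_ne_zero h4
  -- elements of `2 V_P` are divisible by `l ^ n`
  have hdiv : ∀ x : Om, TP P 2 x → ∃ y, VP P y ∧ x = l ^ n * y := by
    rintro x ⟨y, hy, rfl⟩
    refine ⟨(-(1 + l * r))⁻¹ * y, hu.inv.1.mul hy, ?_⟩
    rw [hln]
    have := hu.ne_zero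
    rw [mul_assoc, mul_inv_cancel_left₀ this]
  -- the coefficients
  set B : ℕ → Om := fun k => ∑ c ∈ Finset.range n, (c.choose k : Om) * A c with hB
  have hBM : ∀ k, B k ∈ M := fun k =>
    sum_mem fun c _ => mul_mem (natCast_mem M _) (hAM c)
  have hBV : ∀ k, VP P (B k) := fun k => DI.VP.sum _ _ fun c _ => (DI.VP.nat _).mul (hAV c)
  have hsum : ∑ c ∈ Finset.range n, ζ ^ c * A c = ∑ k ∈ Finset.range n, l ^ k * B k := by
    have h3 : ∀ c ∈ Finset.range n, ζ ^ c * A c =
        ∑ k ∈ Finset.range n, l ^ k * ((c.choose k : Om) * A c) := by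
      intro c hc
      have hc' : c < n := Finset.mem_range.1 hc
      have h4 : ζ ^ c = ∑ k ∈ Finset.range n, l ^ k * (c.choose k : Om) := by
        rw [hζl, add_pow]
        have h5 : Finset.range (c + 1) ⊆ Finset.range n :=
          Finset.range_subset_range.2 (by omega)
        rw [← Finset.sum_subset h5]
        · refine Finset.sum_congr rfl fun k _ => ?_
          rw [one_pow, mul_one]
        · intro k _ hk
          rw [Finset.mem_range, not_lt] at hk
          rw [Nat.choose_eq_zero_of_lt (by omega), Nat.cast_zero, mul_zero]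
      rw [h4, Finset.sum_mul]
      exact Finset.sum_congr rfl fun k _ => by ring
    rw [Finset.sum_congr rfl h3, Finset.sum_comm]
    exact Finset.sum_congr rfl fun k _ => by rw [hB, Finset.mul_sum]
  rw [hsum] at hT
  have hBT : ∀ k, k < n → TP P 2 (B k) := by
    intro k
    induction k using Nat.strong_induction_on with
    | _ k ih =>
      intro hk
      by_contra hcon
      have hBU : ¬ MP P (B k) := by
        intro h3
        refine hcon ⟨B k / 2, hM _ (hBM k) h3, ?_⟩
        field_simp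
      obtain ⟨q, hq⟩ : ∃ q, n = k + (q + 1) := ⟨n - k - 1, by omega⟩
      have hsplit : ∑ j ∈ Finset.range n, l ^ j * B j = (∑ j ∈ Finset.range k, l ^ j * B j) +
          l ^ k * (B k + l * ∑ j ∈ Finset.range q, l ^ j * B (k + (j + 1))) := by
        have h4 : Finset.range n = Finset.range (k + (q + 1)) := by rw [← hq]
        rw [h4, Finset.sum_range_add, Finset.sum_range_succ']
        have h5 : ∑ j ∈ Finset.range q, l ^ (k + (j + 1)) * B (k + (j + 1)) =
            l ^ k * (l * ∑ j ∈ Finset.range q, l ^ j * B (k + (j + 1))) := by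
          rw [Finset.mul_sum, Finset.mul_sum]
          exact Finset.sum_congr rfl fun j _ => by ring
        rw [h5, add_zero]
        ring
      have h6 : TP P 2 (∑ j ∈ Finset.range k, l ^ j * B j) :=
        Uni_sum _ _ fun j hj => by
          have hj' := Finset.mem_range.1 hj
          exact Uni_mul (hlV.pow j) (ih j hj' (by omega))
      have h7 : TP P 2 (l ^ k * (B k + l * ∑ j ∈ Finset.range q, l ^ j * B (k + (j + 1)))) := by
        have := Uni_sub hT h6
        rwa [hsplit, add_sub_cancel_left] at this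
      obtain ⟨y, hy, h8⟩ := hdiv _ h7
      have h9 : B k + l * ∑ j ∈ Finset.range q, l ^ j * B (k + (j + 1)) = l * (l ^ q * y) := by
        refine mul_left_cancel₀ (pow_ne_zero k hl0) ?_
        rw [h8, hq]
        ring
      refine hBU ?_
      have h10 : B k = l * (l ^ q * y - ∑ j ∈ Finset.range q, l ^ j * B (k + (j + 1))) := by
        linear_combination h9
      rw [h10]
      exact DI.MP.mul_right hlM (((hlV.pow q).mul hy).sub
        (DI.VP.sum _ _ fun j _ => (hlV.pow j).mul (hBV _)))
  -- downward induction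
  have hfin : ∀ d c : ℕ, c + d + 1 = n → TP P 2 (A c) := by
    intro d
    induction d using Nat.strong_induction_on with
    | _ d ih =>
      intro c hc
      have h3 : c ∈ Finset.range n := Finset.mem_range.2 (by omega)
      have h4 := hBT c (by omega)
      rw [hB] at h4
      have h5 := Finset.add_sum_erase (Finset.range n) (fun c' => (c'.choose c : Om) * A c') h3
      simp only [Nat.choose_self, Nat.cast_one, one_mul] at h5
      have h6 : A c = (∑ c' ∈ Finset.range n, (c'.choose c : Om) * A c') -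
          ∑ c' ∈ (Finset.range n).erase c, (c'.choose c : Om) * A c' := by
        linear_combination h5
      rw [h6]
      refine Uni_sub h4 (Uni_sum _ _ fun c' hc' => ?_)
      rw [Finset.mem_erase, Finset.mem_range] at hc'
      rcases Nat.lt_or_ge c' c with h7 | h7
      · rw [Nat.choose_eq_zero_of_lt h7, Nat.cast_zero, zero_mul]
        exact Uni_zero
      · exact Uni_mul (DI.VP.nat _) (ih (n - 1 - c') (by omega) c' (by omega))
  intro c hc
  exact hfin (n - 1 - c) c (by omega)

end Pool.Agent.DK.G
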